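import Pool.Agent.Lib.MP_f58a57_nt.LT.C.CDefs

/-!
# MP_f58a57_nt, large transcendence degree, part C (row lt-C-M0)

Small facts: L g = Lt g = v0, g^T L w = v0^T w etc.
-/

open Complex Matrix MeasureTheory

noncomputable section

namespace Pool.Agent.LT

variable {c : ℕ}

namespace M0_

/-- the complex form of the symmetry of `M` on `g` -/
theorem Mg (D : Dat c) (i : Fin (2 * c + 1)) :
    (D.M.map (fun q : ℚ => (q : ℂ)) *ᵥ D.gc) i = ((D.Mᵀ).map (fun q : ℚ => (q : ℂ)) *ᵥ D.gc) i := by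
  have h := congrFun D.hMg i
  have h2 := congrArg (fun q : ℚ => (q : ℂ)) h
  simp only [Matrix.mulVec, dotProduct, Rat.cast_sum, Rat.cast_mul, Rat.cast_intCast] at h2
  simpa only [Matrix.mulVec, dotProduct, Matrix.map_apply, Dat.gc] using h2

end M0_

theorem L_gc (D : Dat c) : D.L *ᵥ D.gc = D.v0 := by
  unfold Dat.v0 Dat.L Dat.Lt
  rw [Matrix.sub_mulVec, Matrix.sub_mulVec]
  congr 1
  funext i
  exact (M0_.Mg D i).symm

/-- transposes -/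
theorem M0_.L_transpose (D : Dat c) : (D.L)ᵀ = D.Lt := by
  unfold Dat.L Dat.Lt
  rw [Matrix.transpose_sub, Matrix.diagonal_transpose, Matrix.transpose_map, Matrix.transpose_transpose]

/-- `uᵀ L w = wᵀ Lᵀ u` -/
theorem dot_L (D : Dat c) (u w : VN c) : u ⬝ᵥ (D.L *ᵥ w) = w ⬝ᵥ (D.Lt *ᵥ u) := by
  rw [← M0_.L_transpose, Matrix.mulVec_transpose, Matrix.dotProduct_mulVec, dotProduct_comm]

theorem gc_dot_L (D : Dat c) (w : VN c) : D.gc ⬝ᵥ (D.L *ᵥ w) = D.v0 ⬝ᵥ w := by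
  rw [dot_L, dotProduct_comm]
  rfl

theorem gc_dot_Lt (D : Dat c) (w : VN c) : D.gc ⬝ᵥ (D.Lt *ᵥ w) = D.v0 ⬝ᵥ w := by
  rw [← dot_L, L_gc, dotProduct_comm]

theorem ee_add (x y : ℂ) : ee (x + y) = ee x * ee y := by
  unfold ee
  rw [mul_add, Complex.exp_add]

theorem ee_int (m : ℤ) : ee m = 1 := by
  unfold ee
  rw [Complex.exp_eq_one_iff]
  exact ⟨m, by ring⟩

theorem norm_ee (x : ℂ) : ‖ee x‖ = Real.exp (-(2 * Real.pi * x.im)) := by
  unfold ee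
  rw [Complex.norm_exp]
  congr 1
  simp

theorem exists_mu {D : Dat c} {C : (Fin (2 * c + 1) → ℤ) → ℂ} (hC : MulOK D.d D.z C) : ∃ μ, Mu D C μ := by
  obtain ⟨l, hl⟩ := hC
  have hCg : C D.g ≠ 0 := by
    rw [← norm_pos_iff, hl]
    exact Real.exp_pos _
  have hd : (D.d : ℂ) ≠ 0 := by exact_mod_cast D.hd.ne'
  have hpi : (2 * Real.pi * I : ℂ) ≠ 0 := Complex.two_pi_I_ne_zero
  set w : ℂ := C D.g * ee (D.nu * (D.d : ℂ) ^ 2 / 2) with hw
  have hw0 : w ≠ 0 := mul_ne_zero hCg (Complex.exp_ne_zero _)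
  refine ⟨Complex.log w⁻¹ / (2 * Real.pi * I) / D.d, ?_⟩
  unfold Mu
  rw [ee_add, ← mul_assoc, ← hw]
  have h1 : ee (Complex.log w⁻¹ / (2 * Real.pi * I) / D.d * D.d) = w⁻¹ := by
    rw [div_mul_cancel₀ _ hd]
    unfold ee
    rw [mul_div_cancel₀ _ hpi, Complex.exp_log (inv_ne_zero hw0)]
  rw [h1, mul_inv_cancel₀ hw0]

end Pool.Agent.LT
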