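import Pool.Agent.Lib.MP_f58a57_nt.LT.P0

/-!
# MP_f58a57_nt, large transcendence degree, part C: lemmas on partial derivatives
-/

open Complex Matrix MeasureTheory Topology

noncomputable section

namespace Pool.Agent.LT

theorem pdlC_sum {n : ℕ} {ι : Type} (s : Finset ι) (a : ι → ℂ) (F : ι → (Fin n → ℂ) → ℂ) (hF : ∀ i ∈ s, Differentiable ℂ (F i))
    (w : List (Fin n)) (u : Fin n → ℂ) : pdl w (fun u => ∑ i ∈ s, a i * F i u) u = ∑ i ∈ s, a i * pdl w (F i) u := by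
  rw [pdl_sum s (F := fun i u => a i * F i u) (fun i hi => (hF i hi).const_mul (a i))]
  exact Finset.sum_congr rfl fun i hi => pdl_smul (hF i hi) (a i) w u

theorem pdlC_bound {n : ℕ} {F : (Fin n → ℂ) → ℂ} (hF : Differentiable ℂ F) {M : ℝ} (h : ∀ v : Fin n → ℂ, (∀ i, ‖v i‖ ≤ 1) → ‖F v‖ ≤ M)
    (w : List (Fin n)) : ‖pdl w F 0‖ ≤ (w.length : ℝ) ^ w.length * M :=
  pdl_bound hF w 0 fun v hv => h v fun i => by simpa using hv i

theorem pdl_int {n : ℕ} (G : ℝ → (Fin n → ℂ) → ℂ) (hc : Continuous (fun q : ℝ × (Fin n → ℂ) => G q.1 q.2))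
    (hG : ∀ x, Differentiable ℂ (G x)) (a b : ℝ) (w : List (Fin n)) :
    Differentiable ℂ (fun u => ∫ x in a..b, G x u) ∧ Continuous (fun q : ℝ × (Fin n → ℂ) => pdl w (G q.1) q.2) ∧
      ∀ u, pdl w (fun u => ∫ x in a..b, G x u) u = ∫ x in a..b, pdl w (G x) u := by
  have hc' : Continuous (Function.uncurry (fun (u : Fin n → ℂ) (t : ℝ) => G t u)) := by
    have := hc.comp (continuous_swap (X := Fin n → ℂ) (Y := ℝ))
    exact this
  refine ⟨PI (fun u t => G t u) hc' hG a b, ?_, fun u => pdl_integral (fun u t => G t u) hc' hG a b w u⟩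
  exact (pdl_cont (fun u t => G t u) hc' hG w).comp (continuous_swap (X := ℝ) (Y := Fin n → ℂ))

theorem pdl_param {n : ℕ} (Φ : (Fin n → ℂ) → (Fin n → ℂ) → ℂ) (h : Differentiable ℂ (fun q : (Fin n → ℂ) × (Fin n → ℂ) => Φ q.1 q.2))
    (w : List (Fin n)) : Differentiable ℂ (fun q : (Fin n → ℂ) × (Fin n → ℂ) => pdl w (Φ q.1) q.2) :=
  pdl_diff_param h w

theorem pdl_schwarz {n : ℕ} {F : (Fin n → ℂ) → ℂ} (hF : Differentiable ℂ F) (T : ℕ) (h : ∀ w : List (Fin n), w.length < T → pdl w F 0 = 0)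
    (v : Fin n → ℂ) {M : ℝ} (hM : ∀ t : ℂ, ‖t‖ ≤ 2 → ‖F (t • v)‖ ≤ M) : ‖F v‖ ≤ M / 2 ^ T := by
  set f : ℂ → ℂ := fun t => F (t • v) with hf
  have hfd : Differentiable ℂ f := hF.comp (differentiable_id.smul_const v)
  have hcf : ∀ d < T, cf F v d = 0 := fun d hd => by
    have h1 := cf_eq_words hF v d
    have h2 : ∀ w : Fin d → Fin n, pdl (List.ofFn w) F 0 = 0 := fun w => h _ (by simpa using hd)
    rw [Finset.sum_eq_zero (fun w _ => by rw [h2 w, mul_zero])] at h1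
    exact (mul_eq_zero.1 h1).resolve_left (by exact_mod_cast d.factorial_ne_zero)
  have hit : ∀ d < T, iteratedDeriv d f 0 = 0 := fun d hd => by
    have h1 := cf_eq_iter hF v d
    rw [hcf d hd] at h1
    have h2 : (d.factorial : ℂ) ≠ 0 := by exact_mod_cast d.factorial_ne_zero
    exact (div_eq_zero_iff.1 h1.symm).resolve_right h2
  rcases Nat.eq_zero_or_pos T with hT | hT
  · subst hT
    simpa using hM 1 (by norm_num)
  have hf0 : f 0 = 0 := by simpa using hit 0 hT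
  have han : AnalyticAt ℂ f 0 := hfd.analyticAt 0
  have hord : (T : ℕ∞) ≤ analyticOrderAt f 0 := (natCast_le_analyticOrderAt_iff_iteratedDeriv_eq_zero han).2 hit
  obtain ⟨g, hg, hfg⟩ := (natCast_le_analyticOrderAt han).1 hord
  have hlo : (f · - f 0) =o[𝓝 0] (fun w : ℂ => ‖w - 0‖ ^ (T - 1)) := by
    have h1 : (fun w : ℂ => w ^ T * g w) =O[𝓝 0] (fun w : ℂ => ‖w‖ ^ T) := by
      have h2 : (fun w : ℂ => g w) =O[𝓝 0] (fun _ : ℂ => (1 : ℝ)) := hg.continuousAt.isBigO_one ℝ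
      have h3 : (fun w : ℂ => w ^ T) =O[𝓝 0] (fun w : ℂ => ‖w‖ ^ T) :=
        Asymptotics.isBigO_of_le _ fun w => by simp
      simpa using h3.mul h2
    have h4 : (fun w : ℂ => ‖w‖ ^ T) =o[𝓝 0] (fun w : ℂ => ‖w - 0‖ ^ (T - 1)) := by
      have h5 : (fun w : ℂ => ‖w‖ ^ T) = fun w : ℂ => ‖w‖ * ‖w‖ ^ (T - 1) := by
        funext w
        rw [← pow_succ', Nat.sub_add_cancel hT]
      rw [h5]
      have h6 : (fun w : ℂ => ‖w‖) =o[𝓝 0] (fun _ : ℂ => (1 : ℝ)) := by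
        rw [Asymptotics.isLittleO_one_iff]
        simpa using (continuous_norm.tendsto (0 : ℂ))
      simpa using h6.mul_isBigO (Asymptotics.isBigO_refl (fun w : ℂ => ‖w‖ ^ (T - 1)) (𝓝 0))
    have h7 : (f · - f 0) =ᶠ[𝓝 0] fun w : ℂ => w ^ T * g w := by
      filter_upwards [hfg] with w hw
      rw [hf0, sub_zero, hw]
      simp
    exact (h7.trans_isBigO h1).trans_isLittleO h4
  have hmaps : Set.MapsTo f (Metric.ball 0 2) (Metric.closedBall (f 0) M) := fun t ht => by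
    rw [hf0, mem_closedBall_zero_iff]
    exact hM t (by simpa using (mem_ball_zero_iff.1 ht).le)
  have hfin := Complex.dist_le_mul_div_pow_of_mapsTo_ball_of_isLittleO (z := (1 : ℂ)) hfd.differentiableOn hmaps hlo
    (by rw [mem_ball_zero_iff]; norm_num)
  rw [hf0, dist_zero_right, Nat.sub_add_cancel hT, dist_zero_right, norm_one] at hfin
  have h8 : f 1 = F v := by simp [hf]
  rw [h8] at hfin
  calc ‖F v‖ ≤ M * (1 / 2) ^ T := hfin
    _ = M / 2 ^ T := by rw [one_div, inv_pow, div_eq_mul_inv]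

end Pool.Agent.LT
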