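import Pool.Agent.Lib.MP_f58a57_nt.LT.C.CDefs
import Pool.Agent.Lib.MP_f58a57_nt.LT.C.M0
import Pool.Agent.Lib.MP_f58a57_nt.LT.C.P

/-!
# MP_f58a57_nt, large transcendence degree, part C (row lt-C-B1)

F_q is a section in u; its derivatives at 0 are (B q)_alpha.
-/

open Complex Matrix MeasureTheory

noncomputable section

namespace Pool.Agent.LT

variable {c : ℕ}

namespace B1_

theorem pdl_const_mul {n : ℕ} (a : ℂ) (F : (Fin n → ℂ) → ℂ) (hF : Differentiable ℂ F)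
    (w : List (Fin n)) (u : Fin n → ℂ) : pdl w (fun u => a * F u) u = a * pdl w F u := by
  have h := pdlC_sum ({0} : Finset (Fin 1)) (fun _ => a) (fun _ => F) (fun _ _ => hF) w u
  simpa only [Finset.sum_singleton] using h

theorem diff_snd {c : ℕ} {D : Dat c} {Φ : VN c → VN c → ℂ} {C C' : (Fin (2 * c + 1) → ℤ) → ℂ}
    (hK : Ker D Φ C C') (u : VN c) : Differentiable ℂ (Φ u) :=
  hK.diff.comp ((differentiable_const u).prodMk differentiable_id)

theorem diff_fst {c : ℕ} {D : Dat c} {Φ : VN c → VN c → ℂ} {C C' : (Fin (2 * c + 1) → ℤ) → ℂ}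
    (hK : Ker D Φ C C') (w : List (Fin (2 * c + 1))) :
    Differentiable ℂ (fun u : VN c => pdl w (Φ u) 0) :=
  (pdl_param Φ hK.diff w).comp (differentiable_id.prodMk (differentiable_const 0))

end B1_

theorem Fq_sec {D : Dat c} {Φ : VN c → VN c → ℂ} {C C' : (Fin (2 * c + 1) → ℤ) → ℂ} (hK : Ker D Φ C C') {T : ℕ} (q : Wd (2 * c + 1) T → ℂ) :
    Sec D.d D.Lt C (Fq Φ q) := by
  refine ⟨?_, fun a u => ?_, fun k hk u => ?_⟩
  · have h : Differentiable ℂ (fun u : VN c => ∑ β, q β * pdl β.l (Φ u) 0) :=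
      Differentiable.fun_sum fun β _ => (B1_.diff_fst hK β.l).const_mul (q β)
    exact h
  · have h : Φ (u + lat D.d a) = fun s => (C a * ee (-(lat D.d a ⬝ᵥ (D.Lt *ᵥ u)))) * Φ u s := by
      funext s
      exact (hK.secu s).per a u
    unfold Fq
    rw [h, Finset.mul_sum]
    refine Finset.sum_congr rfl fun β _ => ?_
    rw [B1_.pdl_const_mul _ _ (B1_.diff_snd hK u)]
    ring
  · have h : Φ (u + k) = Φ u := by
      funext s
      exact (hK.secu s).ker k hk u
    unfold Fq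
    rw [h]

theorem Fq_pdl {D : Dat c} {Φ : VN c → VN c → ℂ} {C C' : (Fin (2 * c + 1) → ℤ) → ℂ} (hK : Ker D Φ C C') {T : ℕ} (q : Wd (2 * c + 1) T → ℂ)
    (α : Wd (2 * c + 1) T) : pdl α.l (Fq Φ q) 0 = (BM Φ T *ᵥ q) α := by
  have h := pdlC_sum (Finset.univ : Finset (Wd (2 * c + 1) T)) q
    (fun β u => pdl β.l (Φ u) 0) (fun β _ => B1_.diff_fst hK β.l) α.l 0
  have h2 : Fq Φ q = fun u => ∑ β, q β * pdl β.l (Φ u) 0 := rfl
  rw [h2, h]
  simp only [Matrix.mulVec, dotProduct, BM, mix]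
  exact Finset.sum_congr rfl fun β _ => mul_comm _ _

/-- every list of length `< T` is a word -/
theorem exists_wd {n T : ℕ} (w : List (Fin n)) (hw : w.length < T) : ∃ α : Wd n T, α.l = w :=
  ⟨⟨⟨w.length, hw⟩, fun i => w.get i⟩, List.ofFn_get w⟩

end Pool.Agent.LT
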