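import Pool.Agent.Lib.MP_f58a57_nt.LT.C.CDefs
import Pool.Agent.Lib.MP_f58a57_nt.LT.C.B1
import Pool.Agent.Lib.MP_f58a57_nt.LT.C.P

/-!
# MP_f58a57_nt, large transcendence degree, part C (row lt-C-B2)

Growth of F_q: at most (number of words) T^T exp(A(1+|u|^2)) for coefficients of absolute value <= 1; number of words <= T (2c+1)^T.
-/

open Complex Matrix MeasureTheory

noncomputable section

namespace Pool.Agent.LT

variable {c : ℕ}

namespace B2_

/-- the number of words -/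
theorem card_wd (n T : ℕ) (hn : 1 ≤ n) : (Fintype.card (Wd n T) : ℝ) ≤ T * (n : ℝ) ^ T := by
  have h1 : Fintype.card (Wd n T) = ∑ d : Fin T, n ^ (d : ℕ) := by
    unfold Wd
    rw [Fintype.card_sigma]
    refine Finset.sum_congr rfl fun d _ => ?_
    simp
  rw [h1]
  push_cast
  have h2 : ∀ d ∈ (Finset.univ : Finset (Fin T)), (n : ℝ) ^ (d : ℕ) ≤ (n : ℝ) ^ T := by
    intro d _
    exact pow_le_pow_right₀ (by exact_mod_cast hn) (le_of_lt d.2)
  refine (Finset.sum_le_card_nsmul _ _ _ h2).trans ?_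
  simp

/-- the elementary inequality -/
theorem elem (n T : ℕ) (hn : 1 ≤ n) (hT : 2 ≤ T) :
    ((T : ℝ) * (n : ℝ) ^ T) * (T : ℝ) ^ T ≤ Real.exp ((2 + 2 * (n : ℝ)) * (T * Real.log T)) := by
  have hT0 : (0 : ℝ) < T := by positivity
  have hn0 : (0 : ℝ) < n := by exact_mod_cast hn
  have hT2 : (2 : ℝ) ≤ T := by exact_mod_cast hT
  have hlog : 1 / 2 ≤ Real.log T := by
    have h1 : Real.log 2 ≤ Real.log T := Real.log_le_log (by norm_num) hT2
    have h2 := Real.log_two_gt_d9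
    linarith
  have hlogn : Real.log n ≤ n := by
    have := Real.log_le_sub_one_of_pos hn0
    linarith
  have e1 : ((T : ℝ) * (n : ℝ) ^ T) * (T : ℝ) ^ T = Real.exp (Real.log T + T * Real.log n + T * Real.log T) := by
    rw [Real.exp_add, Real.exp_add, Real.exp_log hT0, mul_comm (T : ℝ) (Real.log n), mul_comm (T : ℝ) (Real.log T), Real.exp_mul,
      Real.exp_mul, Real.exp_log hn0, Real.exp_log hT0, Real.rpow_natCast, Real.rpow_natCast]
  rw [e1]
  apply Real.exp_le_exp.mpr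
  have a1 : Real.log T ≤ T * Real.log T := by nlinarith
  have a2 : T * Real.log n ≤ 2 * n * (T * Real.log T) := by
    have : (T : ℝ) * Real.log n ≤ T * n := mul_le_mul_of_nonneg_left hlogn hT0.le
    have h3 : (T : ℝ) * n ≤ 2 * n * (T * Real.log T) := by
      have h4 : 1 ≤ 2 * Real.log T := by linarith
      have h5 : 0 ≤ (T : ℝ) * n := by positivity
      nlinarith
    linarith
  nlinarith

end B2_

theorem Fq_bound {D : Dat c} {Φ : VN c → VN c → ℂ} {C C' : (Fin (2 * c + 1) → ℤ) → ℂ} (hK : Ker D Φ C C') :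
    ∃ A : ℝ, 0 ≤ A ∧ ∀ T : ℕ, 2 ≤ T → ∀ q : Wd (2 * c + 1) T → ℂ, (∀ β, ‖q β‖ ≤ 1) → ∀ u, ‖Fq Φ q u‖ ≤ Real.exp (A * (T * Real.log T) + A * (1 + nsq u)) := by
  obtain ⟨A0, hA0⟩ := hK.grow
  set A1 : ℝ := max A0 0 with hA1d
  have hA1 : 0 ≤ A1 := le_max_right _ _
  have hA01 : A0 ≤ A1 := le_max_left _ _
  set n : ℕ := 2 * c + 1 with hn
  have hn1 : 1 ≤ n := by omega
  have hnR : (0 : ℝ) ≤ n := by positivity
  refine ⟨(2 + 2 * (n : ℝ)) + A1 * (1 + n), by positivity, ?_⟩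
  intro T hT q hq u
  have hT2 : (2 : ℝ) ≤ T := by exact_mod_cast hT
  have hlogT : 0 ≤ Real.log T := Real.log_nonneg (by linarith)
  have hnsq : ∀ v : VN c, 0 ≤ nsq v := fun v => by unfold nsq; positivity
  have hdiff : Differentiable ℂ (Φ u) := (hK.secs u).diff
  have hM : ∀ v : VN c, (∀ i, ‖v i‖ ≤ 1) → ‖Φ u v‖ ≤ Real.exp (A1 * (1 + nsq u + n)) := by
    intro v hv
    refine (hA0 u v).trans (Real.exp_le_exp.mpr ?_)
    have h1 : nsq v ≤ n := by
      unfold nsq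
      have : ∀ i ∈ (Finset.univ : Finset (Fin (2 * c + 1))), ‖v i‖ ^ 2 ≤ (1 : ℝ) := by
        intro i _
        have h0 := norm_nonneg (v i)
        have h1 := hv i
        nlinarith
      refine (Finset.sum_le_card_nsmul _ _ _ this).trans ?_
      simp [hn]
    have h2 := hnsq u
    have h3 := hnsq v
    have h4 : A0 * (1 + nsq u + nsq v) ≤ A1 * (1 + nsq u + nsq v) := mul_le_mul_of_nonneg_right hA01 (by linarith)
    have h5 : A1 * (1 + nsq u + nsq v) ≤ A1 * (1 + nsq u + n) := mul_le_mul_of_nonneg_left (by linarith) hA1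
    linarith
  have hβ : ∀ β : Wd (2 * c + 1) T, ‖pdl β.l (Φ u) 0‖ ≤ (T : ℝ) ^ T * Real.exp (A1 * (1 + nsq u + n)) := by
    intro β
    have h1 := pdlC_bound hdiff hM β.l
    refine h1.trans (mul_le_mul_of_nonneg_right ?_ (Real.exp_nonneg _))
    have h2 : β.l.length = (β.1 : ℕ) := by unfold Wd.l; simp
    rw [h2]
    have h3 : ((β.1 : ℕ) : ℝ) ≤ T := by exact_mod_cast le_of_lt β.1.2
    calc (((β.1 : ℕ) : ℝ)) ^ (β.1 : ℕ) ≤ (T : ℝ) ^ (β.1 : ℕ) := pow_le_pow_left₀ (by positivity) h3 _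
      _ ≤ (T : ℝ) ^ T := pow_le_pow_right₀ (by linarith) (le_of_lt β.1.2)
  have hsum : ‖Fq Φ q u‖ ≤ Fintype.card (Wd (2 * c + 1) T) * ((T : ℝ) ^ T * Real.exp (A1 * (1 + nsq u + n))) := by
    unfold Fq
    refine (norm_sum_le _ _).trans ?_
    have : ∀ β ∈ (Finset.univ : Finset (Wd (2 * c + 1) T)), ‖q β * pdl β.l (Φ u) 0‖ ≤ (T : ℝ) ^ T * Real.exp (A1 * (1 + nsq u + n)) := by
      intro β _
      rw [norm_mul]
      calc ‖q β‖ * ‖pdl β.l (Φ u) 0‖ ≤ 1 * ‖pdl β.l (Φ u) 0‖ := mul_le_mul_of_nonneg_right (hq β) (norm_nonneg _)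
        _ = ‖pdl β.l (Φ u) 0‖ := one_mul _
        _ ≤ _ := hβ β
    refine (Finset.sum_le_card_nsmul _ _ _ this).trans ?_
    rw [nsmul_eq_mul, Finset.card_univ]
  have hcard := B2_.card_wd n T hn1
  have helem := B2_.elem n T hn1 hT
  have hfin : ‖Fq Φ q u‖ ≤ Real.exp ((2 + 2 * (n : ℝ)) * (T * Real.log T)) * Real.exp (A1 * (1 + nsq u + n)) := by
    refine hsum.trans ?_
    rw [← mul_assoc]
    refine mul_le_mul_of_nonneg_right ?_ (Real.exp_nonneg _)
    refine le_trans ?_ helem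
    exact mul_le_mul_of_nonneg_right hcard (by positivity)
  refine hfin.trans ?_
  rw [← Real.exp_add]
  apply Real.exp_le_exp.mpr
  have h2 := hnsq u
  have hTT : 0 ≤ (T : ℝ) * Real.log T := by positivity
  have e1 : 0 ≤ A1 * (1 + (n : ℝ)) * (T * Real.log T) := by positivity
  have e2 : 0 ≤ (2 + 2 * (n : ℝ)) * (1 + nsq u) := by positivity
  have e3 : A1 * (1 + nsq u + n) ≤ A1 * (1 + n) * (1 + nsq u) := by
    have : 0 ≤ A1 * ((n : ℝ) * nsq u) := by positivity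
    nlinarith
  nlinarith

end Pool.Agent.LT
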