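import Pool.Agent.Lib.MP_f58a57_nt.LT.C.CDefs

/-!
# MP_f58a57_nt, large transcendence degree, part C (row lt-C-D2a)

D.2(a),(c): the rank of P is c+1 and uniqueness. b in R^N with P b = 0 gives Y b = 0 (imaginary part, M real), b = 0; so R^N meets ker P in 0 and dim ker P <= c. (c) b + iyg in ker P: iy v0 = -P b; g^T P b = v0^T b (P^T g = P g = v0 because (M - M^T) g = 0), so v0^T b = -iy nu, b^T P b = -iy b^T v0 = -y^2 nu, imaginary parts b^T Y b = -y^2 Im nu, Im nu = g^T Y g > 0. Do it for P = Lt and for P = L.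
-/

open Complex Matrix MeasureTheory

noncomputable section

namespace Pool.Agent.LT

variable {c : ℕ}

namespace D2a_

/-- the real computation -/
theorem core {n : ℕ} (x Y b g : Fin n → ℝ) (N : Fin n → Fin n → ℝ) (y : ℝ) (hY : ∀ j, 0 < Y j) (hg : g ≠ 0)
    (hN : ∀ j, ∑ k, N j k * g k = ∑ k, N k j * g k)
    (h1 : ∀ j, Y j * b j + y * (x j * g j - ∑ k, N j k * g k) = 0)
    (h2 : ∀ j, x j * b j - (∑ k, N j k * b k) - y * (Y j * g j) = 0) : b = 0 ∧ y = 0 := by
  have e1 : ∑ j, b j * (Y j * b j + y * (x j * g j - ∑ k, N j k * g k)) = 0 :=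
    Finset.sum_eq_zero fun j _ => by rw [h1 j, mul_zero]
  have e2 : ∑ j, g j * (x j * b j - (∑ k, N j k * b k) - y * (Y j * g j)) = 0 :=
    Finset.sum_eq_zero fun j _ => by rw [h2 j, mul_zero]
  have e3 : ∑ j, g j * (∑ k, N j k * b k) = ∑ j, b j * (∑ k, N j k * g k) := by
    calc ∑ j, g j * (∑ k, N j k * b k) = ∑ j, ∑ k, g j * (N j k * b k) := by simp only [Finset.mul_sum]
      _ = ∑ k, ∑ j, g j * (N j k * b k) := Finset.sum_comm
      _ = ∑ k, b k * (∑ j, N j k * g j) := by
          refine Finset.sum_congr rfl fun k _ => ?_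
          rw [Finset.mul_sum]
          exact Finset.sum_congr rfl fun j _ => by ring
      _ = ∑ k, b k * (∑ j, N k j * g j) := by
          refine Finset.sum_congr rfl fun k _ => ?_
          rw [hN k]
  have e4 : ∑ j, (Y j * b j ^ 2 + Y j * (y * g j) ^ 2) = 0 := by
    have a1 : ∑ j, b j * (Y j * b j + y * (x j * g j - ∑ k, N j k * g k)) =
        ∑ j, Y j * b j ^ 2 + y * ∑ j, x j * g j * b j - y * ∑ j, b j * (∑ k, N j k * g k) := by
      rw [Finset.mul_sum, Finset.mul_sum, ← Finset.sum_add_distrib, ← Finset.sum_sub_distrib]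
      exact Finset.sum_congr rfl fun j _ => by ring
    have a2 : ∑ j, g j * (x j * b j - (∑ k, N j k * b k) - y * (Y j * g j)) =
        ∑ j, x j * g j * b j - ∑ j, g j * (∑ k, N j k * b k) - y * ∑ j, Y j * g j ^ 2 := by
      rw [Finset.mul_sum, ← Finset.sum_sub_distrib, ← Finset.sum_sub_distrib]
      exact Finset.sum_congr rfl fun j _ => by ring
    have a3 : ∑ j, (Y j * b j ^ 2 + Y j * (y * g j) ^ 2) = ∑ j, Y j * b j ^ 2 + y ^ 2 * ∑ j, Y j * g j ^ 2 := by
      rw [Finset.mul_sum, ← Finset.sum_add_distrib]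
      exact Finset.sum_congr rfl fun j _ => by ring
    rw [a3]
    rw [a1] at e1
    rw [a2, e3] at e2
    linear_combination e1 - y * e2
  have e5 : ∀ j, Y j * b j ^ 2 + Y j * (y * g j) ^ 2 = 0 := by
    intro j
    refine (Finset.sum_eq_zero_iff_of_nonneg fun i _ => ?_).1 e4 j (Finset.mem_univ j)
    have := (hY i).le
    positivity
  have e6 : ∀ j, b j = 0 ∧ y * g j = 0 := by
    intro j
    have h := e5 j
    have hp := hY j
    have i1 : 0 ≤ Y j * b j ^ 2 := by positivity
    have i2 : 0 ≤ Y j * (y * g j) ^ 2 := by positivity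
    constructor
    · have : Y j * b j ^ 2 = 0 := by linarith
      rcases mul_eq_zero.1 this with h' | h'
      · exact absurd h' hp.ne'
      · exact pow_eq_zero_iff (two_ne_zero) |>.1 h'
    · have : Y j * (y * g j) ^ 2 = 0 := by linarith
      rcases mul_eq_zero.1 this with h' | h'
      · exact absurd h' hp.ne'
      · exact pow_eq_zero_iff (two_ne_zero) |>.1 h'
  refine ⟨funext fun j => (e6 j).1, ?_⟩
  by_contra hy
  apply hg
  funext j
  rcases mul_eq_zero.1 (e6 j).2 with h | h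
  · exact absurd h hy
  · exact h

theorem uniq (z : Fin (2 * c + 1) → ℂ) (im : ∀ j, 0 < (z j).im) (M : Matrix (Fin (2 * c + 1)) (Fin (2 * c + 1)) ℚ)
    (g : Fin (2 * c + 1) → ℤ) (hg : g ≠ 0) (hMg : M *ᵥ (fun j => (g j : ℚ)) = Mᵀ *ᵥ (fun j => (g j : ℚ)))
    (b' : Fin (2 * c + 1) → ℝ) (y : ℝ)
    (h : (Matrix.diagonal z - M.map (fun q : ℚ => (q : ℂ))) *ᵥ (pt g b' y) = 0) : b' = 0 ∧ y = 0 := by
  have hj : ∀ j, z j * ((b' j : ℂ) + I * y * (g j : ℂ)) - ∑ k, (M j k : ℂ) * ((b' k : ℂ) + I * y * (g k : ℂ)) = 0 := by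
    intro j
    have := congrFun h j
    rw [Matrix.sub_mulVec, Pi.sub_apply, Matrix.mulVec_diagonal] at this
    simpa [Matrix.mulVec, dotProduct, pt] using this
  have hs : ∀ j, ∑ k, (M j k : ℂ) * ((b' k : ℂ) + I * y * (g k : ℂ)) =
      ((∑ k, (M j k : ℝ) * b' k : ℝ) : ℂ) + I * ((y * ∑ k, (M j k : ℝ) * (g k : ℝ) : ℝ) : ℂ) := by
    intro j
    push_cast
    rw [Finset.mul_sum, Finset.mul_sum, ← Finset.sum_add_distrib]
    exact Finset.sum_congr rfl fun k _ => by ring
  refine core (fun j => (z j).re) (fun j => (z j).im) b' (fun j => (g j : ℝ)) (fun j k => (M j k : ℝ)) y im ?_ ?_ ?_ ?_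
  · intro h0
    apply hg
    funext j
    have := congrFun h0 j
    simpa using this
  · intro j
    have := congrFun hMg j
    simp only [Matrix.mulVec, dotProduct, Matrix.transpose_apply] at this
    have h' : ((∑ k, M j k * (g k : ℚ) : ℚ) : ℝ) = ((∑ k, M k j * (g k : ℚ) : ℚ) : ℝ) := by rw [this]
    push_cast at h'
    exact h'
  · intro j
    have h0 := hj j
    rw [hs j] at h0
    have := congrArg Complex.im h0
    simp [Complex.add_im, Complex.mul_im, Complex.mul_re] at this
    linarith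
  · intro j
    have h0 := hj j
    rw [hs j] at h0
    have := congrArg Complex.re h0
    simp [Complex.add_re, Complex.mul_im, Complex.mul_re] at this
    linarith

theorem ker_le {n : ℕ} (P : Matrix (Fin n) (Fin n) ℂ) (h : ∀ b : Fin n → ℝ, P *ᵥ (fun j => (b j : ℂ)) = 0 → b = 0) :
    2 * Module.finrank ℂ (LinearMap.ker (Matrix.mulVecLin P)) ≤ n := by
  let K : Submodule ℝ (Fin n → ℂ) := (LinearMap.ker (Matrix.mulVecLin P)).restrictScalars ℝ
  let f : (Fin n → ℝ) →ₗ[ℝ] (Fin n → ℂ) :=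
    { toFun := fun b j => (b j : ℂ)
      map_add' := by intro a b; funext j; simp
      map_smul' := by intro t b; funext j; simp }
  have hf : Function.Injective f := by
    intro a b hab
    funext j
    have := congrFun hab j
    exact Complex.ofReal_injective this
  have hd : Disjoint K (LinearMap.range f) := by
    rw [Submodule.disjoint_def]
    intro x hx hx'
    obtain ⟨b, rfl⟩ := hx'
    have : P *ᵥ (f b) = 0 := by
      have hx2 : f b ∈ LinearMap.ker (Matrix.mulVecLin P) := hx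
      simpa using hx2
    rw [h b this]
    simp
  have h1 := Submodule.finrank_add_finrank_le_of_disjoint hd
  have h2 : Module.finrank ℝ (LinearMap.range f) = n := by
    rw [LinearMap.finrank_range_of_inj hf]
    simp
  have h3 : Module.finrank ℝ (Fin n → ℂ) = 2 * n := by
    rw [finrank_real_of_complex]
    simp
  have h4 : Module.finrank ℝ K = 2 * Module.finrank ℂ (LinearMap.ker (Matrix.mulVecLin P)) :=
    finrank_real_of_complex (LinearMap.ker (Matrix.mulVecLin P))
  rw [h2, h3, h4] at h1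
  omega

theorem hL (D : Dat c) : D.L = D.Ltᵀ := by
  unfold Dat.L Dat.Lt
  rw [Matrix.transpose_sub, Matrix.diagonal_transpose, Matrix.transpose_map]

theorem ge (P : Matrix (Fin (2 * c + 1)) (Fin (2 * c + 1)) ℂ) (h : c ≤ Module.finrank ℂ (LinearMap.ker (Matrix.mulVecLin P))) :
    c ≤ Module.finrank ℂ (LinearMap.ker (Matrix.mulVecLin Pᵀ)) := by
  have h1 := LinearMap.finrank_range_add_finrank_ker (Matrix.mulVecLin P)
  have h2 := LinearMap.finrank_range_add_finrank_ker (Matrix.mulVecLin Pᵀ)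
  have h3 : Pᵀ.rank = P.rank := Matrix.rank_transpose P
  unfold Matrix.rank at h3
  omega

end D2a_

theorem dec_uniq (D : Dat c) (P : Matrix (Fin (2 * c + 1)) (Fin (2 * c + 1)) ℂ) (hP : P = D.Lt ∨ P = D.L) (b' : Fin (2 * c + 1) → ℝ) (y : ℝ)
    (h : P *ᵥ (pt D.g b' y) = 0) : b' = 0 ∧ y = 0 := by
  rcases hP with rfl | rfl
  · exact D2a_.uniq D.z D.im D.M D.g D.hg D.hMg b' y h
  · exact D2a_.uniq D.z D.im D.Mᵀ D.g D.hg (by rw [Matrix.transpose_transpose]; exact D.hMg.symm) b' y h

theorem finrank_ker (D : Dat c) (P : Matrix (Fin (2 * c + 1)) (Fin (2 * c + 1)) ℂ) (hP : P = D.Lt ∨ P = D.L) :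
    Module.finrank ℂ (LinearMap.ker (Matrix.mulVecLin P)) = c := by
  apply le_antisymm
  · have h := D2a_.ker_le P (fun b hb => (dec_uniq D P hP b 0 (by
      have : pt D.g b 0 = fun j => (b j : ℂ) := by
        funext j
        simp [pt]
      rw [this]
      exact hb)).1)
    omega
  · rcases hP with rfl | rfl
    · exact D.rk
    · rw [D2a_.hL]
      exact D2a_.ge D.Lt D.rk

end Pool.Agent.LT
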