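import Pool.Agent.Lib.MP_f58a57_nt.LT.C.CDefs
import Pool.Agent.Lib.MP_f58a57_nt.LT.C.D2a

/-!
# MP_f58a57_nt, large transcendence degree, part C (row lt-C-D2b)

D.2(c): the real-linear map (b,y) -> class of pt g b y in C^N / ker P is injective between spaces of real dimension 2c+2, so bijective; b, Y = its inverse composed with the projection.
-/

open Complex Matrix MeasureTheory

noncomputable section

namespace Pool.Agent.LT

variable {c : ℕ}

namespace D2b_

/-- the point map as a real linear map -/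
private def ptL {n : ℕ} (g : Fin n → ℤ) : ((Fin n → ℝ) × ℝ) →ₗ[ℝ] (Fin n → ℂ) where
  toFun q := pt g q.1 q.2
  map_add' a b := by
    funext j
    simp only [pt, Prod.fst_add, Prod.snd_add, Pi.add_apply, Complex.ofReal_add]
    ring
  map_smul' t a := by
    funext j
    simp only [pt, Prod.smul_fst, Prod.smul_snd, Pi.smul_apply, smul_eq_mul, Complex.ofReal_mul,
      RingHom.id_apply, Complex.real_smul]
    ring

private theorem ptL_apply {n : ℕ} (g : Fin n → ℤ) (b : Fin n → ℝ) (y : ℝ) : ptL g (b, y) = pt g b y := rfl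

end D2b_

open D2b_

theorem exists_dec (D : Dat c) (P : Matrix (Fin (2 * c + 1)) (Fin (2 * c + 1)) ℂ) (hP : P = D.Lt ∨ P = D.L) :
    ∃ (b : VN c →ₗ[ℝ] (Fin (2 * c + 1) → ℝ)) (Y : VN c →ₗ[ℝ] ℝ), Dec D P b Y := by
  classical
  have huniq := dec_uniq D P hP
  have hker := finrank_ker D P hP
  -- range of `P` over `ℂ`
  have hrn := LinearMap.finrank_range_add_finrank_ker (Matrix.mulVecLin P)
  have hN : Module.finrank ℂ (Fin (2 * c + 1) → ℂ) = 2 * c + 1 := by simp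
  rw [hker, hN] at hrn
  have hr : Module.finrank ℂ (LinearMap.range (Matrix.mulVecLin P)) = c + 1 := by omega
  -- the real linear map
  let PR : VN c →ₗ[ℝ] LinearMap.range (Matrix.mulVecLin P) :=
    ((Matrix.mulVecLin P).rangeRestrict).restrictScalars ℝ
  let f : ((Fin (2 * c + 1) → ℝ) × ℝ) →ₗ[ℝ] LinearMap.range (Matrix.mulVecLin P) := PR ∘ₗ ptL D.g
  have hfinj : Function.Injective f := by
    rw [← LinearMap.ker_eq_bot, LinearMap.ker_eq_bot']
    rintro ⟨b', y⟩ h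
    have h1 : P *ᵥ (pt D.g b' y) = 0 := by
      have := congrArg Subtype.val h
      simpa [f, PR, ptL_apply] using this
    obtain ⟨h2, h3⟩ := huniq b' y h1
    rw [h2, h3]; rfl
  have hdim : Module.finrank ℝ ((Fin (2 * c + 1) → ℝ) × ℝ) = Module.finrank ℝ (LinearMap.range (Matrix.mulVecLin P)) := by
    rw [Module.finrank_prod, ← Module.finrank_mul_finrank ℝ ℂ (LinearMap.range (Matrix.mulVecLin P)), hr,
      Complex.finrank_real_complex]
    simp
    omega
  let e := LinearEquiv.ofInjectiveOfFinrankEq f hfinj hdim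
  let q : VN c →ₗ[ℝ] ((Fin (2 * c + 1) → ℝ) × ℝ) := e.symm.toLinearMap ∘ₗ PR
  refine ⟨LinearMap.fst ℝ _ _ ∘ₗ q, LinearMap.snd ℝ _ _ ∘ₗ q, ⟨fun u => ?_, huniq⟩⟩
  have h1 : f (q u) = PR u := by
    have : e (q u) = PR u := by
      show e (e.symm (PR u)) = PR u
      exact e.apply_symm_apply _
    exact this
  have h2 : P *ᵥ (pt D.g (q u).1 (q u).2) = P *ᵥ u := by
    exact congrArg Subtype.val h1
  show P *ᵥ (u - pt D.g (q u).1 (q u).2) = 0
  rw [Matrix.mulVec_sub, h2, sub_self]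

theorem Dec.Y_pt {D : Dat c} {P : Matrix (Fin (2 * c + 1)) (Fin (2 * c + 1)) ℂ} {b : VN c →ₗ[ℝ] (Fin (2 * c + 1) → ℝ)} {Y : VN c →ₗ[ℝ] ℝ}
    (h : Dec D P b Y) (b' : Fin (2 * c + 1) → ℝ) (y : ℝ) : Y (pt D.g b' y) = y := by
  have h1 := h.dec (pt D.g b' y)
  have h2 : pt D.g b' y - pt D.g (b (pt D.g b' y)) (Y (pt D.g b' y)) =
      pt D.g (b' - b (pt D.g b' y)) (y - Y (pt D.g b' y)) := by
    rw [← ptL_apply, ← ptL_apply, ← ptL_apply, ← map_sub]
    rfl
  rw [h2] at h1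
  have h3 := (h.uniq _ _ h1).2
  linarith

theorem Dec.Y_g {D : Dat c} {P : Matrix (Fin (2 * c + 1)) (Fin (2 * c + 1)) ℂ} {b : VN c →ₗ[ℝ] (Fin (2 * c + 1) → ℝ)} {Y : VN c →ₗ[ℝ] ℝ}
    (h : Dec D P b Y) (x : ℝ) : Y ((x : ℂ) • D.gc) = 0 := by
  have h1 : (x : ℂ) • D.gc = pt D.g (fun j => x * (D.g j : ℝ)) 0 := by
    funext j
    simp [pt, Dat.gc]
  rw [h1, h.Y_pt]

end Pool.Agent.LT
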