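import Pool.Agent.Lib.MP_f58a57_nt.LT.C.CDefs
import Pool.Agent.Lib.MP_f58a57_nt.LT.C.B2
import Pool.Agent.Lib.MP_f58a57_nt.LT.C.G1
import Pool.Agent.Lib.MP_f58a57_nt.LT.C.D2b

/-!
# MP_f58a57_nt, large transcendence degree, part C (row lt-C-B3)

First step of C.4: INT for F_q / exp(A T log T) (use Fq_sec, Fq_pdl, exists_wd for (I4)), then extend_bound; k^2 >= T^(1+2 eps) >> T log T absorbs exp(A T log T).
-/

open Complex Matrix MeasureTheory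

noncomputable section

namespace Pool.Agent.LT

variable {c : ℕ}

namespace B3_

theorem Fq_scale {T : ℕ} (Φ : VN c → VN c → ℂ) (q : Wd (2 * c + 1) T → ℂ) (t : ℂ) (u : VN c) :
    Fq Φ (fun β => t * q β) u = t * Fq Φ q u := by
  unfold Fq
  rw [Finset.mul_sum]
  exact Finset.sum_congr rfl fun β _ => by ring

theorem BM_scale {n T : ℕ} (Φ : (Fin n → ℂ) → (Fin n → ℂ) → ℂ) (q : Wd n T → ℂ) (t : ℂ) (α : Wd n T) :
    (BM Φ T *ᵥ (fun β => t * q β)) α = t * (BM Φ T *ᵥ q) α := by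
  simp only [Matrix.mulVec, dotProduct]
  rw [Finset.mul_sum]
  exact Finset.sum_congr rfl fun β _ => by ring

theorem nsq_nonneg {n : ℕ} (z : Fin n → ℂ) : 0 ≤ nsq z := Finset.sum_nonneg fun _ _ => by positivity

theorem nsq_pt_le {n : ℕ} (g : Fin n → ℤ) (d : ℕ) (b : Fin n → ℝ) (hb : ∀ j, 0 ≤ b j ∧ b j ≤ d) (y : ℝ) :
    nsq (pt g b y) ≤ (n * (d : ℝ) ^ 2) + (∑ j, (g j : ℝ) ^ 2) * y ^ 2 := by
  unfold nsq pt
  have h1 : ∀ j, ‖(b j : ℂ) + I * y * (g j : ℂ)‖ ^ 2 = b j ^ 2 + (g j : ℝ) ^ 2 * y ^ 2 := by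
    intro j
    have : (b j : ℂ) + I * y * (g j : ℂ) = ((b j : ℝ) : ℂ) + ((y * (g j : ℝ) : ℝ) : ℂ) * I := by
      push_cast
      ring
    rw [this, ← Complex.normSq_eq_norm_sq, Complex.normSq_add_mul_I]
    ring
  calc ∑ j, ‖(b j : ℂ) + I * y * (g j : ℂ)‖ ^ 2 = ∑ j, (b j ^ 2 + (g j : ℝ) ^ 2 * y ^ 2) :=
        Finset.sum_congr rfl fun j _ => h1 j
    _ = ∑ j, b j ^ 2 + (∑ j, (g j : ℝ) ^ 2) * y ^ 2 := by rw [Finset.sum_add_distrib, Finset.sum_mul]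
    _ ≤ (n * (d : ℝ) ^ 2) + (∑ j, (g j : ℝ) ^ 2) * y ^ 2 := by
        have : ∑ j, b j ^ 2 ≤ ∑ _j : Fin n, (d : ℝ) ^ 2 :=
          Finset.sum_le_sum fun j _ => pow_le_pow_left₀ (hb j).1 (hb j).2 2
        rw [Finset.sum_const, Finset.card_univ, Fintype.card_fin, nsmul_eq_mul] at this
        linarith

theorem log_small (ε B : ℝ) (hε : 0 < ε) (hB : 0 < B) : ∃ T2 : ℝ, ∀ T : ℝ, T2 ≤ T → Real.log T ≤ B * T ^ (2 * ε) := by
  have h := (isLittleO_log_rpow_atTop (show (0 : ℝ) < 2 * ε by linarith)).bound hB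
  rw [Filter.eventually_atTop] at h
  obtain ⟨a, ha⟩ := h
  refine ⟨max a 1, fun T hT => ?_⟩
  have h1 := ha T (le_trans (le_max_left _ _) hT)
  have hT1 : (1 : ℝ) ≤ T := le_trans (le_max_right _ _) hT
  rw [Real.norm_of_nonneg (Real.log_nonneg hT1), Real.norm_of_nonneg (Real.rpow_nonneg (by linarith) _)] at h1
  exact h1

end B3_

open B3_ in
theorem Fq_small {D : Dat c} {Φ : VN c → VN c → ℂ} {C C' : (Fin (2 * c + 1) → ℤ) → ℂ} (hK : Ker D Φ C C') (hI : INT D.d D.g D.Lt C)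
    {b : VN c →ₗ[ℝ] (Fin (2 * c + 1) → ℝ)} {Y : VN c →ₗ[ℝ] ℝ} (hd : Dec D D.Lt b Y) {ε : ℝ} (hε : 0 < ε) (hε' : ε ≤ 1 / 20) :
    ∃ K T1 : ℝ, 1 ≤ K ∧ ∀ T : ℕ, T1 ≤ (T : ℝ) → ∀ k : ℝ, (T : ℝ) ^ (1 / 2 + ε) ≤ k → k ≤ (T : ℝ) ^ ((c : ℝ) + 1 - ε) →
      ∀ q : Wd (2 * c + 1) T → ℂ, (∀ β, ‖q β‖ ≤ 1) → (∀ α, ‖(BM Φ T *ᵥ q) α‖ ≤ Real.exp (-((T : ℝ) ^ ε * k ^ 2))) →
        ∀ u, |Y u| ≤ k / K → ‖Fq Φ q u‖ ≤ Real.exp (K * (1 + nsq u) - k ^ 2 / K) := by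
  obtain ⟨A1, hA1, hF⟩ := Fq_bound hK
  obtain ⟨A2, hA2, hext⟩ := extend_bound D D.Lt hd hK.mulu
  set G : ℝ := ∑ j, (D.g j : ℝ) ^ 2 with hG
  have hG0 : 0 ≤ G := Finset.sum_nonneg fun _ _ => by positivity
  set N : ℝ := (((2 * c + 1 : ℕ) : ℝ) * (D.d : ℝ) ^ 2) with hN
  have hN0 : 0 ≤ N := by positivity
  obtain ⟨C0, T0, hC0, hint⟩ := hI ε (A1 * (1 + N + G)) hε hε' (by positivity)
  have hC0p : 0 < C0 := by linarith
  obtain ⟨T2, hT2⟩ := log_small ε (1 / (2 * C0 * (A1 + 1))) hε (by positivity)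
  set K : ℝ := max (2 * C0) (max A2 1) with hKdef
  have hK1 : 1 ≤ K := le_trans (le_max_right _ _) (le_max_right _ _)
  have hKC : 2 * C0 ≤ K := le_max_left _ _
  have hKA : A2 ≤ K := le_trans (le_max_left _ _) (le_max_right _ _)
  have hKp : 0 < K := by linarith
  refine ⟨K, max (max T0 T2) 2, hK1, ?_⟩
  intro T hT k hk1 hk2 q hq hBM u hu
  have hTT0 : T0 ≤ (T : ℝ) := le_trans (le_trans (le_max_left _ _) (le_max_left _ _)) hT
  have hTT2 : T2 ≤ (T : ℝ) := le_trans (le_trans (le_max_right _ _) (le_max_left _ _)) hT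
  have hT2r : (2 : ℝ) ≤ (T : ℝ) := le_trans (le_max_right _ _) hT
  have hT2n : 2 ≤ T := by exact_mod_cast hT2r
  have hTpos : (0 : ℝ) < (T : ℝ) := by linarith
  have hk0 : 0 ≤ k := le_trans (Real.rpow_nonneg hTpos.le _) hk1
  have hlog0 : 0 ≤ Real.log T := Real.log_nonneg (by linarith)
  set W : ℝ := (T : ℝ) * Real.log T with hW
  have hW0 : 0 ≤ W := mul_nonneg hTpos.le hlog0
  -- the scaled function
  set t : ℝ := Real.exp (-(A1 * W)) with ht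
  have ht0 : 0 < t := Real.exp_pos _
  have ht1 : t ≤ 1 := by
    rw [ht]
    exact Real.exp_le_one_iff.2 (by nlinarith)
  have htn : ‖(t : ℂ)‖ = t := by rw [Complex.norm_real, Real.norm_of_nonneg ht0.le]
  have hsec := Fq_sec hK (fun β => (t : ℂ) * q β)
  have hgrow : ∀ (b' : Fin (2 * c + 1) → ℝ) (y : ℝ), (∀ j, 0 ≤ b' j ∧ b' j ≤ D.d) → |y| ≤ k →
      ‖Fq Φ (fun β => (t : ℂ) * q β) (pt D.g b' y)‖ ≤ Real.exp (A1 * (1 + N + G) * (1 + y ^ 2)) := by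
    intro b' y hb' _
    rw [Fq_scale, norm_mul, htn]
    have h1 := hF T hT2n q hq (pt D.g b' y)
    have h2 := nsq_pt_le D.g D.d b' hb' y
    calc t * ‖Fq Φ q (pt D.g b' y)‖ ≤ t * Real.exp (A1 * W + A1 * (1 + nsq (pt D.g b' y))) :=
          mul_le_mul_of_nonneg_left h1 ht0.le
      _ = Real.exp (A1 * (1 + nsq (pt D.g b' y))) := by
          rw [ht, ← Real.exp_add]
          congr 1
          ring
      _ ≤ Real.exp (A1 * (1 + N + G) * (1 + y ^ 2)) := by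
          apply Real.exp_le_exp.2
          rw [mul_assoc]
          apply mul_le_mul_of_nonneg_left _ hA1
          have h3 : nsq (pt D.g b' y) ≤ N + G * y ^ 2 := h2
          nlinarith [sq_nonneg y, mul_nonneg hN0 (sq_nonneg y)]
  have hder : ∀ w : List (Fin (2 * c + 1)), w.length < T →
      ‖pdl w (Fq Φ (fun β => (t : ℂ) * q β)) 0‖ ≤ Real.exp (-((T : ℝ) ^ ε * k ^ 2)) := by
    intro w hw
    obtain ⟨α, rfl⟩ := exists_wd w hw
    rw [Fq_pdl hK, BM_scale, norm_mul, htn]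
    calc t * ‖(BM Φ T *ᵥ q) α‖ ≤ 1 * ‖(BM Φ T *ᵥ q) α‖ := mul_le_mul_of_nonneg_right ht1 (norm_nonneg _)
      _ = ‖(BM Φ T *ᵥ q) α‖ := one_mul _
      _ ≤ _ := hBM α
  have hsmall := hint T hTT0 k hk1 hk2 _ hsec hgrow hder
  -- the absorption
  have hk2' : (T : ℝ) ^ (1 + 2 * ε) ≤ k ^ 2 := by
    have h1 : ((T : ℝ) ^ (1 / 2 + ε)) ^ 2 ≤ k ^ 2 := pow_le_pow_left₀ (Real.rpow_nonneg hTpos.le _) hk1 2
    have h2 : ((T : ℝ) ^ (1 / 2 + ε)) ^ 2 = (T : ℝ) ^ (1 + 2 * ε) := by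
      rw [← Real.rpow_natCast, ← Real.rpow_mul hTpos.le]
      congr 1
      push_cast
      ring
    rw [← h2]
    exact h1
  have habs : A1 * W ≤ k ^ 2 / (2 * C0) := by
    have h1 := hT2 T hTT2
    have h2 : W ≤ 1 / (2 * C0 * (A1 + 1)) * k ^ 2 := by
      calc W ≤ (T : ℝ) * (1 / (2 * C0 * (A1 + 1)) * (T : ℝ) ^ (2 * ε)) := mul_le_mul_of_nonneg_left h1 hTpos.le
        _ = 1 / (2 * C0 * (A1 + 1)) * (T : ℝ) ^ (1 + 2 * ε) := by
            rw [Real.rpow_add hTpos, Real.rpow_one]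
            ring
        _ ≤ 1 / (2 * C0 * (A1 + 1)) * k ^ 2 := mul_le_mul_of_nonneg_left hk2' (by positivity)
    calc A1 * W ≤ (A1 + 1) * W := by nlinarith
      _ ≤ (A1 + 1) * (1 / (2 * C0 * (A1 + 1)) * k ^ 2) := mul_le_mul_of_nonneg_left h2 (by linarith)
      _ = k ^ 2 / (2 * C0) := by
          field_simp
  have hs : ∀ (b' : Fin (2 * c + 1) → ℝ) (y : ℝ), (∀ j, 0 ≤ b' j ∧ b' j ≤ D.d) → |y| ≤ k / C0 →
      ‖Fq Φ q (pt D.g b' y)‖ ≤ Real.exp (-(k ^ 2 / (2 * C0))) := by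
    intro b' y hb' hy
    have h1 := hsmall b' y hb' hy
    rw [Fq_scale, norm_mul, htn] at h1
    have h2 : ‖Fq Φ q (pt D.g b' y)‖ = Real.exp (A1 * W) * (t * ‖Fq Φ q (pt D.g b' y)‖) := by
      rw [ht, ← mul_assoc, ← Real.exp_add]
      simp
    rw [h2]
    calc Real.exp (A1 * W) * (t * ‖Fq Φ q (pt D.g b' y)‖) ≤ Real.exp (A1 * W) * Real.exp (-(k ^ 2 / C0)) :=
          mul_le_mul_of_nonneg_left h1 (Real.exp_pos _).le
      _ = Real.exp (A1 * W - k ^ 2 / C0) := by rw [← Real.exp_add]; rfl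
      _ ≤ Real.exp (-(k ^ 2 / (2 * C0))) := by
          apply Real.exp_le_exp.2
          have : k ^ 2 / C0 = k ^ 2 / (2 * C0) + k ^ 2 / (2 * C0) := by
            field_simp
            ring
          linarith
  have hfin := hext (Fq Φ q) (Fq_sec hK q) (Real.exp (-(k ^ 2 / (2 * C0)))) (k / C0) (Real.exp_pos _).le hs u
    (le_trans hu (div_le_div_of_nonneg_left hk0 hC0p (by linarith)))
  refine le_trans hfin ?_
  rw [← Real.exp_add]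
  apply Real.exp_le_exp.2
  have h1 : k ^ 2 / K ≤ k ^ 2 / (2 * C0) := div_le_div_of_nonneg_left (sq_nonneg k) (by linarith) hKC
  have h2 : A2 * (1 + nsq u) ≤ K * (1 + nsq u) := mul_le_mul_of_nonneg_right hKA (by linarith [nsq_nonneg u])
  linarith

end Pool.Agent.LT
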