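import Pool.Agent.Lib.MP_f58a57_nt.LT.C.CDefs
import Pool.Agent.Lib.MP_f58a57_nt.LT.C.M0

/-!
# MP_f58a57_nt, large transcendence degree, part C (row lt-C-M1)

Periodicity and the transformation properties of f_(u,s)(x) (see C.1 of the paper).
-/

open Complex Matrix MeasureTheory

noncomputable section

namespace Pool.Agent.LT

variable {c : ℕ}

namespace M1_

theorem lat_gc (D : Dat c) : lat D.d D.g = (D.d : ℂ) • D.gc := by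
  funext j
  simp [lat, Dat.gc]

theorem v0_gc (D : Dat c) : D.v0 ⬝ᵥ D.gc = D.nu := by
  rw [dotProduct_comm]; rfl

theorem ee_diff : Differentiable ℂ ee := by
  unfold ee
  fun_prop

theorem dot_diff (v : VN c) : Differentiable ℂ (fun u : VN c => v ⬝ᵥ u) := by
  unfold dotProduct
  fun_prop

end M1_

open M1_

theorem fm_diff {D : Dat c} {Φ : VN c → VN c → ℂ} {C C' : (Fin (2 * c + 1) → ℤ) → ℂ} (hK : Ker D Φ C C') (μ : ℂ) :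
    Differentiable ℂ (fun q : ℂ × VN c × VN c => fm D Φ μ q.2.1 q.2.2 q.1) := by
  have h1 : Differentiable ℂ (fun q : ℂ × VN c × VN c => ((q.2.1 + q.1 • D.gc, q.2.2) : VN c × VN c)) := by
    fun_prop
  have h2 : Differentiable ℂ (fun q : ℂ × VN c × VN c => Φ (q.2.1 + q.1 • D.gc) q.2.2) := hK.diff.comp h1
  have h3 : Differentiable ℂ (fun q : ℂ × VN c × VN c => D.v0 ⬝ᵥ q.2.1) :=
    (dot_diff D.v0).comp (differentiable_fst.comp differentiable_snd)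
  have h4 : Differentiable ℂ (fun q : ℂ × VN c × VN c => D.nu * q.1 ^ 2 / 2 + q.1 * (D.v0 ⬝ᵥ q.2.1) + μ * q.1) := by
    fun_prop
  unfold fm
  exact h2.mul (ee_diff.comp h4)

theorem fm_per {D : Dat c} {Φ : VN c → VN c → ℂ} {C C' : (Fin (2 * c + 1) → ℤ) → ℂ} (hK : Ker D Φ C C') {μ : ℂ} (hμ : Mu D C μ)
    (u s : VN c) (x : ℂ) : fm D Φ μ u s (x + (D.d : ℝ)) = fm D Φ μ u s x := by
  have h1 : u + (x + ((D.d : ℝ) : ℂ)) • D.gc = (u + x • D.gc) + lat D.d D.g := by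
    rw [lat_gc, add_smul, ← add_assoc]; simp
  have h2 := (hK.secu s).per D.g (u + x • D.gc)
  unfold fm
  rw [h1, h2, lat_gc, smul_dotProduct, gc_dot_Lt, dotProduct_add, dotProduct_smul, v0_gc]
  have h3 : ee (-((D.d : ℂ) • (D.v0 ⬝ᵥ u + x • D.nu))) *
      ee (D.nu * (x + ((D.d : ℝ) : ℂ)) ^ 2 / 2 + (x + ((D.d : ℝ) : ℂ)) * (D.v0 ⬝ᵥ u) + μ * (x + ((D.d : ℝ) : ℂ))) =
      ee (D.nu * (D.d : ℂ) ^ 2 / 2 + μ * D.d) * ee (D.nu * x ^ 2 / 2 + x * (D.v0 ⬝ᵥ u) + μ * x) := by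
    rw [← ee_add, ← ee_add]
    congr 1
    simp only [smul_eq_mul]
    push_cast
    ring
  have h4 : C D.g * ee (D.nu * (D.d : ℂ) ^ 2 / 2 + μ * D.d) = 1 := hμ
  calc _ = C D.g * Φ (u + x • D.gc) s * (ee (-((D.d : ℂ) • (D.v0 ⬝ᵥ u + x • D.nu))) *
      ee (D.nu * (x + ((D.d : ℝ) : ℂ)) ^ 2 / 2 + (x + ((D.d : ℝ) : ℂ)) * (D.v0 ⬝ᵥ u) + μ * (x + ((D.d : ℝ) : ℂ)))) := by ring
    _ = (C D.g * ee (D.nu * (D.d : ℂ) ^ 2 / 2 + μ * D.d)) *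
        (Φ (u + x • D.gc) s * ee (D.nu * x ^ 2 / 2 + x * (D.v0 ⬝ᵥ u) + μ * x)) := by rw [h3]; ring
    _ = _ := by rw [h4, one_mul]

theorem fm_lat {D : Dat c} {Φ : VN c → VN c → ℂ} {C C' : (Fin (2 * c + 1) → ℤ) → ℂ} (hK : Ker D Φ C C') (μ : ℂ)
    (u s : VN c) (a : Fin (2 * c + 1) → ℤ) (x : ℂ) :
    fm D Φ μ (u + lat D.d a) s x = C a * ee (-(lat D.d a ⬝ᵥ (D.Lt *ᵥ u))) * fm D Φ μ u s x := by
  have h1 : u + lat D.d a + x • D.gc = (u + x • D.gc) + lat D.d a := by abel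
  have h2 := (hK.secu s).per a (u + x • D.gc)
  have h5 : D.Lt *ᵥ D.gc = D.v0 := rfl
  unfold fm
  rw [h1, h2, mulVec_add, mulVec_smul, h5, dotProduct_add, dotProduct_smul, dotProduct_add]
  have h3 : ee (-(lat D.d a ⬝ᵥ (D.Lt *ᵥ u) + x • (lat D.d a ⬝ᵥ D.v0))) *
      ee (D.nu * x ^ 2 / 2 + x * (D.v0 ⬝ᵥ u + D.v0 ⬝ᵥ lat D.d a) + μ * x) =
      ee (-(lat D.d a ⬝ᵥ (D.Lt *ᵥ u))) * ee (D.nu * x ^ 2 / 2 + x * (D.v0 ⬝ᵥ u) + μ * x) := by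
    rw [← ee_add, ← ee_add]
    congr 1
    rw [dotProduct_comm D.v0 (lat D.d a)]
    simp only [smul_eq_mul]
    ring
  calc _ = C a * Φ (u + x • D.gc) s * (ee (-(lat D.d a ⬝ᵥ (D.Lt *ᵥ u) + x • (lat D.d a ⬝ᵥ D.v0))) *
      ee (D.nu * x ^ 2 / 2 + x * (D.v0 ⬝ᵥ u + D.v0 ⬝ᵥ lat D.d a) + μ * x)) := by ring
    _ = _ := by rw [h3]; ring

theorem fm_ker {D : Dat c} {Φ : VN c → VN c → ℂ} {C C' : (Fin (2 * c + 1) → ℤ) → ℂ} (hK : Ker D Φ C C') (μ : ℂ)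
    (u s k : VN c) (hk : D.Lt *ᵥ k = 0) (x : ℂ) : fm D Φ μ (u + k) s x = fm D Φ μ u s x := by
  have h1 : u + k + x • D.gc = (u + x • D.gc) + k := by abel
  have h2 := (hK.secu s).ker k hk (u + x • D.gc)
  have h3 : D.v0 ⬝ᵥ k = 0 := by
    rw [← gc_dot_Lt, hk, dotProduct_zero]
  unfold fm
  rw [h1, h2, dotProduct_add, h3, add_zero]

theorem fm_gu {D : Dat c} {Φ : VN c → VN c → ℂ} {C C' : (Fin (2 * c + 1) → ℤ) → ℂ} (hK : Ker D Φ C C') (μ : ℂ)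
    (u s : VN c) (ξ x : ℂ) :
    fm D Φ μ (u + ξ • D.gc) s x = ee (-(D.nu * ξ ^ 2 / 2) - ξ * (D.v0 ⬝ᵥ u) - μ * ξ) * fm D Φ μ u s (x + ξ) := by
  have h1 : u + ξ • D.gc + x • D.gc = u + (x + ξ) • D.gc := by rw [add_smul]; abel
  unfold fm
  rw [h1, dotProduct_add, dotProduct_smul, v0_gc]
  have h3 : ee (D.nu * x ^ 2 / 2 + x * (D.v0 ⬝ᵥ u + ξ • D.nu) + μ * x) =
      ee (-(D.nu * ξ ^ 2 / 2) - ξ * (D.v0 ⬝ᵥ u) - μ * ξ) *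
      ee (D.nu * (x + ξ) ^ 2 / 2 + (x + ξ) * (D.v0 ⬝ᵥ u) + μ * (x + ξ)) := by
    rw [← ee_add]
    congr 1
    simp only [smul_eq_mul]
    ring
  rw [h3]
  ring

end Pool.Agent.LT
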