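import Pool.Agent.Lib.MP_f58a57_nt.LT.C.CDefs
import Pool.Agent.Lib.MP_f58a57_nt.LT.C.P
import Pool.Agent.Lib.MP_f58a57_nt.LT.C.M1

/-!
# MP_f58a57_nt, large transcendence degree, part C (row lt-C-M6)

hk is jointly entire (parametric integral), and the derivatives in s can be taken under the integral.
-/

open Complex Matrix MeasureTheory

noncomputable section

namespace Pool.Agent.LT

variable {c : ℕ}

namespace M6_

theorem pdl_mul_const {n : ℕ} (F : (Fin n → ℂ) → ℂ) (a : ℂ) (w : List (Fin n)) :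
    pdl w (fun s => F s * a) = fun s => pdl w F s * a := by
  induction w with
  | nil => rfl
  | cons i w ih =>
    funext s
    show pd i (pdl w (fun s => F s * a)) s = pd i (pdl w F) s * a
    rw [ih]
    unfold pd
    have h : (fun s => pdl w F s * a) = a • (pdl w F) := by
      funext t; simp [mul_comm]
    rw [h, fderiv_const_smul_field]
    simp [mul_comm]

theorem ee_cont : Continuous ee := by
  unfold ee; fun_prop

theorem joint {D : Dat c} {Φ : VN c → VN c → ℂ} {C C' : (Fin (2 * c + 1) → ℤ) → ℂ} (hK : Ker D Φ C C') (μ : ℂ) (κ : ℤ) :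
    Continuous (fun q : ℝ × VN c × VN c => fm D Φ μ q.2.1 q.2.2 (q.1 : ℂ) * ee (-(κ * (q.1 : ℂ) / D.d))) := by
  have h := (fm_diff hK μ).continuous
  have h1 : Continuous (fun q : ℝ × VN c × VN c => (((q.1 : ℂ), q.2.1, q.2.2) : ℂ × VN c × VN c)) := by fun_prop
  have h2 := h.comp h1
  refine Continuous.mul h2 ?_
  exact ee_cont.comp (by fun_prop)

end M6_

theorem hk_diff {D : Dat c} {Φ : VN c → VN c → ℂ} {C C' : (Fin (2 * c + 1) → ℤ) → ℂ} (hK : Ker D Φ C C') (μ : ℂ) (κ : ℤ) :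
    Differentiable ℂ (fun q : VN c × VN c => hk D Φ μ κ q.1 q.2) := by
  have key := (pdl_int (n := (2 * c + 1) + (2 * c + 1))
    (fun (x : ℝ) (v : Fin ((2 * c + 1) + (2 * c + 1)) → ℂ) =>
      fm D Φ μ (fun i => v (Fin.castAdd _ i)) (fun i => v (Fin.natAdd _ i)) (x : ℂ) * ee (-(κ * (x : ℂ) / D.d)))
    ?_ ?_ 0 (D.d : ℝ) []).1
  · have hA : Differentiable ℂ (fun q : VN c × VN c => (Fin.append q.1 q.2 : Fin ((2 * c + 1) + (2 * c + 1)) → ℂ)) := by
      rw [differentiable_pi]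
      intro i
      refine Fin.addCases (fun j => ?_) (fun j => ?_) i
      · simp only [Fin.append_left]; fun_prop
      · simp only [Fin.append_right]; fun_prop
    have h2 := (key.comp hA).const_mul ((D.d : ℂ)⁻¹)
    have h3 : (fun q : VN c × VN c => hk D Φ μ κ q.1 q.2) = (fun y => (D.d : ℂ)⁻¹ *
        ((fun u : Fin ((2 * c + 1) + (2 * c + 1)) → ℂ => ∫ (x : ℝ) in (0 : ℝ)..(D.d : ℝ),
          fm D Φ μ (fun i => u (Fin.castAdd (2 * c + 1) i)) (fun i => u (Fin.natAdd (2 * c + 1) i)) (x : ℂ) *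
            ee (-(κ * (x : ℂ) / D.d))) ∘ fun q : VN c × VN c => Fin.append q.1 q.2) y) := by
      funext q
      simp only [Function.comp, hk, Fin.append_left, Fin.append_right]
    rw [h3]
    exact h2
  · have h := M6_.joint hK μ κ
    have h1 : Continuous (fun q : ℝ × (Fin ((2 * c + 1) + (2 * c + 1)) → ℂ) =>
        ((q.1, (fun i => q.2 (Fin.castAdd _ i)), (fun i => q.2 (Fin.natAdd _ i))) : ℝ × VN c × VN c)) := by fun_prop
    exact h.comp h1
  · intro x
    have h := fm_diff hK μ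
    have h1 : Differentiable ℂ (fun v : (Fin ((2 * c + 1) + (2 * c + 1)) → ℂ) =>
        (((x : ℂ), (fun i => v (Fin.castAdd _ i)), (fun i => v (Fin.natAdd _ i))) : ℂ × VN c × VN c)) := by fun_prop
    exact (h.comp h1).mul_const _

theorem hk_pdl {D : Dat c} {Φ : VN c → VN c → ℂ} {C C' : (Fin (2 * c + 1) → ℤ) → ℂ} (hK : Ker D Φ C C') (μ : ℂ) (κ : ℤ) (u s : VN c)
    (w : List (Fin (2 * c + 1))) :
    pdl w (hk D Φ μ κ u) s = (D.d : ℂ)⁻¹ * ∫ x in (0 : ℝ)..(D.d : ℝ),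
      pdl w (Φ (u + (x : ℂ) • D.gc)) s * ee (D.nu * x ^ 2 / 2 + x * (D.v0 ⬝ᵥ u) + μ * x) * ee (-(κ * x / D.d)) := by
  have key := (pdl_int (n := 2 * c + 1)
    (fun (x : ℝ) (v : Fin (2 * c + 1) → ℂ) => fm D Φ μ u v (x : ℂ) * ee (-(κ * (x : ℂ) / D.d)))
    ?_ ?_ 0 (D.d : ℝ) w).2.2 s
  · have h0 : hk D Φ μ κ u = fun v => (∫ x in (0 : ℝ)..(D.d : ℝ), fm D Φ μ u v (x : ℂ) * ee (-(κ * (x : ℂ) / D.d))) * (D.d : ℂ)⁻¹ := by
      funext v; simp only [hk]; rw [mul_comm]
    rw [h0, M6_.pdl_mul_const]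
    beta_reduce
    rw [key, mul_comm]
    congr 1
    refine intervalIntegral.integral_congr (fun x _ => ?_)
    show pdl w (fun v => fm D Φ μ u v (x : ℂ) * ee (-(κ * (x : ℂ) / D.d))) s = _
    have h1 : (fun v => fm D Φ μ u v (x : ℂ) * ee (-(κ * (x : ℂ) / D.d))) =
        fun v => Φ (u + (x : ℂ) • D.gc) v * (ee (D.nu * x ^ 2 / 2 + x * (D.v0 ⬝ᵥ u) + μ * x) * ee (-(κ * (x : ℂ) / D.d))) := by
      funext v; simp only [fm]; ring
    rw [h1, M6_.pdl_mul_const]
    beta_reduce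
    ring
  · have h := M6_.joint hK μ κ
    have h1 : Continuous (fun q : ℝ × (Fin (2 * c + 1) → ℂ) => ((q.1, u, q.2) : ℝ × VN c × VN c)) := by fun_prop
    exact h.comp h1
  · intro x
    have h := fm_diff hK μ
    have h1 : Differentiable ℂ (fun v : (Fin (2 * c + 1) → ℂ) => (((x : ℂ), u, v) : ℂ × VN c × VN c)) := by fun_prop
    exact (h.comp h1).mul_const _

end Pool.Agent.LT
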