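import Pool.Agent.Lib.MP_f58a57_nt.LT.C.CDefs
import Pool.Agent.Lib.MP_f58a57_nt.LT.C.B1
import Pool.Agent.Lib.MP_f58a57_nt.LT.C.M6

/-!
# MP_f58a57_nt, large transcendence degree, part C (row lt-C-B4)

The pairing of q with the derivatives of g_y, by hk_pdl.
-/

open Complex Matrix MeasureTheory

noncomputable section

namespace Pool.Agent.LT

variable {c : ℕ}

namespace B4_

theorem hk_diff2 {D : Dat c} {Φ : VN c → VN c → ℂ} {C C' : (Fin (2 * c + 1) → ℤ) → ℂ} (hK : Ker D Φ C C') (μ : ℂ) (a : ℤ)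
    (u : VN c) : Differentiable ℂ (fun s => hk D Φ μ a u s) := by
  have h2 : Differentiable ℂ (fun s : VN c => ((u, s) : VN c × VN c)) :=
      (differentiable_const u).prodMk differentiable_id
  have h1 := hk_diff hK μ a
  have h3 := h1.comp h2
  simp only [Function.comp_def] at h3
  exact h3

theorem gy_pdl {D : Dat c} {Φ : VN c → VN c → ℂ} {C C' : (Fin (2 * c + 1) → ℤ) → ℂ} (hK : Ker D Φ C C') (μ : ℂ) (κ m : ℤ) (p : VN c) {j : ℕ}
    (y : Fin j → ℂ) (w : List (Fin (2 * c + 1))) (s : VN c) :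
    pdl w (gy D Φ μ κ m p y) s = ∑ i : Fin j, y i * pdl w (hk D Φ μ (κ + (i : ℕ) * m * D.d) (((i : ℕ) : ℂ) • p)) s := by
  have h := pdlC_sum (Finset.univ : Finset (Fin j)) y
    (fun i s => hk D Φ μ (κ + (i : ℕ) * m * D.d) (((i : ℕ) : ℂ) • p) s) (fun i _ => hk_diff2 hK μ _ _) w s
  exact h

theorem ee_cont {f : ℝ → ℂ} (hf : Continuous f) : Continuous (fun x => ee (f x)) := by
  unfold ee
  exact Complex.continuous_exp.comp (continuous_const.mul hf)

theorem term_cont {D : Dat c} {Φ : VN c → VN c → ℂ} {C C' : (Fin (2 * c + 1) → ℤ) → ℂ} (hK : Ker D Φ C C') (μ : ℂ) (κ : ℤ)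
    (u s : VN c) (w : List (Fin (2 * c + 1))) :
    Continuous (fun x : ℝ => pdl w (Φ (u + (x : ℂ) • D.gc)) s * ee (D.nu * x ^ 2 / 2 + x * (D.v0 ⬝ᵥ u) + μ * x) *
      ee (-(κ * x / D.d))) := by
  refine Continuous.mul (Continuous.mul ?_ ?_) ?_
  · have h1 : Continuous (fun q : VN c × VN c => pdl w (Φ q.1) q.2) := (pdl_param Φ hK.diff w).continuous
    have h2 : Continuous (fun x : ℝ => ((u + (x : ℂ) • D.gc, s) : VN c × VN c)) := by
      refine Continuous.prodMk ?_ continuous_const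
      exact continuous_const.add (Complex.continuous_ofReal.smul continuous_const)
    exact h1.comp h2
  · apply ee_cont
    fun_prop
  · apply ee_cont
    fun_prop

end B4_

theorem gy_pair {D : Dat c} {Φ : VN c → VN c → ℂ} {C C' : (Fin (2 * c + 1) → ℤ) → ℂ} (hK : Ker D Φ C C') (μ : ℂ) (κ m : ℤ) (p : VN c) {j T : ℕ}
    (y : Fin j → ℂ) (q : Wd (2 * c + 1) T → ℂ) :
    ∑ β : Wd (2 * c + 1) T, q β * pdl β.l (gy D Φ μ κ m p y) 0 = ∑ i : Fin j, y i * ((D.d : ℂ)⁻¹ * ∫ x in (0 : ℝ)..(D.d : ℝ),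
      Fq Φ q ((((i : ℕ) : ℂ) • p) + (x : ℂ) • D.gc) * ee (D.nu * x ^ 2 / 2 + x * (D.v0 ⬝ᵥ (((i : ℕ) : ℂ) • p)) + μ * x) *
        ee (-(((κ + (i : ℕ) * m * D.d : ℤ) : ℂ) * x / D.d))) := by
  have hL : ∀ β : Wd (2 * c + 1) T, q β * pdl β.l (gy D Φ μ κ m p y) 0 =
      ∑ i : Fin j, y i * ((D.d : ℂ)⁻¹ * (q β * ∫ x in (0 : ℝ)..(D.d : ℝ),
        pdl β.l (Φ ((((i : ℕ) : ℂ) • p) + (x : ℂ) • D.gc)) 0 *
          ee (D.nu * x ^ 2 / 2 + x * (D.v0 ⬝ᵥ (((i : ℕ) : ℂ) • p)) + μ * x) *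
          ee (-(((κ + (i : ℕ) * m * D.d : ℤ) : ℂ) * x / D.d)))) := by
    intro β
    rw [B4_.gy_pdl hK, Finset.mul_sum]
    refine Finset.sum_congr rfl fun i _ => ?_
    rw [hk_pdl hK]
    ring
  rw [Finset.sum_congr rfl fun β _ => hL β, Finset.sum_comm]
  refine Finset.sum_congr rfl fun i _ => ?_
  rw [← Finset.mul_sum, ← Finset.mul_sum]
  congr 2
  simp_rw [← intervalIntegral.integral_const_mul]
  rw [← intervalIntegral.integral_finsetSum]
  · refine intervalIntegral.integral_congr fun x _ => ?_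
    simp only [Fq]
    rw [Finset.sum_mul, Finset.sum_mul]
    refine Finset.sum_congr rfl fun β _ => ?_
    ring
  · intro β _
    exact (continuous_const.mul (B4_.term_cont hK μ _ _ 0 β.l)).intervalIntegrable _ _

/-- `y ↦` the derivatives of `g_y` at `0` is linear -/
theorem gy_lin {D : Dat c} {Φ : VN c → VN c → ℂ} {C C' : (Fin (2 * c + 1) → ℤ) → ℂ} (hK : Ker D Φ C C') (μ : ℂ) (κ m : ℤ) (p : VN c) (j T : ℕ) :
    ∃ L : (Fin j → ℂ) →ₗ[ℂ] (Wd (2 * c + 1) T → ℂ), ∀ y β, L y β = pdl β.l (gy D Φ μ κ m p y) 0 := by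
  refine ⟨{ toFun := fun y β => ∑ i : Fin j, y i *
              pdl β.l (hk D Φ μ (κ + (i : ℕ) * m * D.d) (((i : ℕ) : ℂ) • p)) 0
            map_add' := fun a b => by
              funext β
              simp only [Pi.add_apply, add_mul, Finset.sum_add_distrib]
            map_smul' := fun t a => by
              funext β
              simp only [Pi.smul_apply, smul_eq_mul, RingHom.id_apply, Finset.mul_sum, mul_assoc] }, fun y β => ?_⟩
  rw [B4_.gy_pdl hK]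
  rfl

end Pool.Agent.LT
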