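import Pool.Agent.Lib.MP_f58a57_nt.LT.C.CDefs
import Pool.Agent.Lib.MP_f58a57_nt.LT.C.B3
import Pool.Agent.Lib.MP_f58a57_nt.LT.C.B4

/-!
# MP_f58a57_nt, large transcendence degree, part C (row lt-C-B5)

Second step of C.4: by gy_pair and Fq_small at the points i p + x g (Y(i p + x g) = i Y(p)): |sum| <= j exp(K(1+C(1+j^2)) + C j - k^2/K); the new K j <= k absorbs everything (k >= T^(1/2) large).
-/

open Complex Matrix MeasureTheory

noncomputable section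

namespace Pool.Agent.LT

variable {c : ℕ}

namespace B5_

theorem nsq_nonneg {n : ℕ} (u : Fin n → ℂ) : 0 ≤ nsq u := Finset.sum_nonneg fun _ _ => by positivity

theorem nsq_comb {n : ℕ} (p g : Fin n → ℂ) (a x : ℝ) :
    nsq ((a : ℂ) • p + (x : ℂ) • g) ≤ 2 * a ^ 2 * nsq p + 2 * x ^ 2 * nsq g := by
  unfold nsq
  rw [Finset.mul_sum, Finset.mul_sum, ← Finset.sum_add_distrib]
  refine Finset.sum_le_sum fun l _ => ?_
  have h1 : ‖((a : ℂ) • p + (x : ℂ) • g) l‖ ≤ |a| * ‖p l‖ + |x| * ‖g l‖ := by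
    refine (norm_add_le _ _).trans (le_of_eq ?_)
    simp
  have h2 : ‖((a : ℂ) • p + (x : ℂ) • g) l‖ ^ 2 ≤ (|a| * ‖p l‖ + |x| * ‖g l‖) ^ 2 :=
    pow_le_pow_left₀ (norm_nonneg _) h1 2
  have h3 : (|a| * ‖p l‖ + |x| * ‖g l‖) ^ 2 ≤ 2 * (|a| * ‖p l‖) ^ 2 + 2 * (|x| * ‖g l‖) ^ 2 := by
    nlinarith [sq_nonneg (|a| * ‖p l‖ - |x| * ‖g l‖)]
  have h4 : 2 * (|a| * ‖p l‖) ^ 2 + 2 * (|x| * ‖g l‖) ^ 2 = 2 * a ^ 2 * ‖p l‖ ^ 2 + 2 * x ^ 2 * ‖g l‖ ^ 2 := by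
    rw [mul_pow, mul_pow, sq_abs, sq_abs]; ring
  linarith

theorem norm_ee_le (z : ℂ) : ‖ee z‖ ≤ Real.exp (2 * Real.pi * ‖z‖) := by
  unfold ee
  rw [Complex.norm_exp]
  apply Real.exp_le_exp.2
  have h : (2 * Real.pi * I * z).re = -(2 * Real.pi * z.im) := by
    simp
  rw [h]
  have h2 := Complex.abs_im_le_norm z
  have h3 := neg_abs_le z.im
  have hp := Real.pi_pos
  nlinarith

theorem norm_ee_real (x : ℝ) : ‖ee (x : ℂ)‖ = 1 := by
  unfold ee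
  rw [Complex.norm_exp]
  simp

end B5_

open B5_

theorem pair_small {D : Dat c} {Φ : VN c → VN c → ℂ} {C C' : (Fin (2 * c + 1) → ℤ) → ℂ} (hK : Ker D Φ C C') (hI : INT D.d D.g D.Lt C)
    (μ : ℂ) (κ m : ℤ) (p : VN c) {ε : ℝ} (hε : 0 < ε) (hε' : ε ≤ 1 / 20) :
    ∃ K T1 : ℝ, 1 ≤ K ∧ ∀ T : ℕ, T1 ≤ (T : ℝ) → ∀ k : ℝ, (T : ℝ) ^ (1 / 2 + ε) ≤ k → k ≤ (T : ℝ) ^ ((c : ℝ) + 1 - ε) →
      ∀ j : ℕ, K * j ≤ k → ∀ q : Wd (2 * c + 1) T → ℂ, (∀ β, ‖q β‖ ≤ 1) →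
        (∀ α, ‖(BM Φ T *ᵥ q) α‖ ≤ Real.exp (-((T : ℝ) ^ ε * k ^ 2))) → ∀ y : Fin j → ℂ, (∀ i, ‖y i‖ ≤ 1) →
          ‖∑ β : Wd (2 * c + 1) T, q β * pdl β.l (gy D Φ μ κ m p y) 0‖ ≤ Real.exp (-(k ^ 2 / K)) := by
  obtain ⟨b, Y, hd⟩ := exists_dec D D.Lt (Or.inl rfl)
  obtain ⟨K0, T0, hK0, hF⟩ := Fq_small hK hI hd hε hε'
  have hK0' : 0 < K0 := by linarith
  have hdp : (0 : ℝ) < D.d := by exact_mod_cast D.hd
  have hNp := nsq_nonneg p
  have hNg := nsq_nonneg D.gc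
  set c1 : ℝ := 2 * Real.pi * (‖D.nu‖ * (D.d : ℝ) ^ 2 / 2 + ‖μ‖ * D.d) with hc1
  set c2 : ℝ := 2 * Real.pi * (D.d * ‖D.v0 ⬝ᵥ p‖) with hc2
  set c3 : ℝ := K0 + 2 * K0 * (D.d : ℝ) ^ 2 * nsq D.gc + c1 with hc3
  have hc1' : 0 ≤ c1 := by have := Real.pi_pos; positivity
  have hc2' : 0 ≤ c2 := by have := Real.pi_pos; positivity
  have hc3' : 0 ≤ c3 := by positivity
  set K : ℝ := 4 * K0 + K0 * |Y p| + 8 * K0 ^ 2 * nsq p with hKd
  have hK1 : 4 * K0 ≤ K := by have : 0 ≤ K0 * |Y p| := by positivity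
                              have : 0 ≤ 8 * K0 ^ 2 * nsq p := by positivity
                              linarith
  have hK2 : K0 * |Y p| ≤ K := by have : 0 ≤ 8 * K0 ^ 2 * nsq p := by positivity
                                  linarith
  have hK3 : 8 * K0 ^ 2 * nsq p ≤ K := by have : 0 ≤ K0 * |Y p| := by positivity
                                          linarith
  have hKp : 0 < K := by linarith
  set k0 : ℝ := 1 + 4 * K0 * (1 + c2) + 4 * K0 * c3 with hk0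
  have hk01 : 1 ≤ k0 := by have : 0 ≤ 4 * K0 * (1 + c2) := by positivity
                           have : 0 ≤ 4 * K0 * c3 := by positivity
                           linarith
  refine ⟨K, max T0 (k0 ^ 2), by linarith, fun T hT k hk1 hk2 j hj q hq hB y hy => ?_⟩
  have hT0 : T0 ≤ (T : ℝ) := (le_max_left _ _).trans hT
  have hTk : k0 ^ 2 ≤ (T : ℝ) := (le_max_right _ _).trans hT
  have hT1 : (1 : ℝ) ≤ T := le_trans (one_le_pow₀ hk01) hTk
  have hkk : k0 ≤ k := by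
    refine le_trans ?_ hk1
    have h1 : (T : ℝ) ^ (1 / 2 : ℝ) ≤ (T : ℝ) ^ (1 / 2 + ε) := Real.rpow_le_rpow_of_exponent_le hT1 (by linarith)
    refine le_trans ?_ h1
    rw [← Real.sqrt_eq_rpow]
    exact Real.le_sqrt_of_sq_le hTk
  have hk1' : 1 ≤ k := hk01.trans hkk
  have hkp : 0 < k := by linarith
  have hj0 : (0 : ℝ) ≤ j := Nat.cast_nonneg j
  have hjk : (j : ℝ) ≤ k / K := by rw [le_div_iff₀ hKp]; linarith
  rw [gy_pair hK μ κ m p y q]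
  -- the bound of each term
  set E : ℝ := c3 + 2 * K0 * nsq p * (j : ℝ) ^ 2 + c2 * j - k ^ 2 / K0 with hE
  have hterm : ∀ i : Fin j, ‖y i * ((D.d : ℂ)⁻¹ * ∫ x in (0 : ℝ)..(D.d : ℝ),
      Fq Φ q ((((i : ℕ) : ℂ) • p) + (x : ℂ) • D.gc) * ee (D.nu * x ^ 2 / 2 + x * (D.v0 ⬝ᵥ (((i : ℕ) : ℂ) • p)) + μ * x) *
        ee (-(((κ + (i : ℕ) * m * D.d : ℤ) : ℂ) * x / D.d)))‖ ≤ Real.exp E := by
    intro i
    have hij : ((i : ℕ) : ℝ) ≤ j := by exact_mod_cast i.2.le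
    have hi0 : (0 : ℝ) ≤ ((i : ℕ) : ℝ) := Nat.cast_nonneg _
    have hint : ‖∫ x in (0 : ℝ)..(D.d : ℝ),
      Fq Φ q ((((i : ℕ) : ℂ) • p) + (x : ℂ) • D.gc) * ee (D.nu * x ^ 2 / 2 + x * (D.v0 ⬝ᵥ (((i : ℕ) : ℂ) • p)) + μ * x) *
        ee (-(((κ + (i : ℕ) * m * D.d : ℤ) : ℂ) * x / D.d))‖ ≤ Real.exp E * |(D.d : ℝ) - 0| := by
      refine intervalIntegral.norm_integral_le_of_norm_le_const fun x hx => ?_
      rw [Set.uIoc_of_le hdp.le] at hx
      have hx0 : 0 ≤ x := hx.1.le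
      have hxd : x ≤ D.d := hx.2
      rw [norm_mul, norm_mul]
      have e3 : ‖ee (-(((κ + (i : ℕ) * m * D.d : ℤ) : ℂ) * x / D.d))‖ = 1 := by
        have : (-(((κ + (i : ℕ) * m * D.d : ℤ) : ℂ) * x / D.d)) = ((-(((κ + (i : ℕ) * m * D.d : ℤ) : ℝ) * x / D.d) : ℝ) : ℂ) := by
          push_cast; ring
        rw [this, norm_ee_real]
      have e2 : ‖ee (D.nu * x ^ 2 / 2 + x * (D.v0 ⬝ᵥ (((i : ℕ) : ℂ) • p)) + μ * x)‖ ≤ Real.exp (c1 + c2 * j) := by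
        refine (norm_ee_le _).trans (Real.exp_le_exp.2 ?_)
        have hn : ‖D.nu * (x : ℂ) ^ 2 / 2 + x * (D.v0 ⬝ᵥ (((i : ℕ) : ℂ) • p)) + μ * x‖ ≤
            ‖D.nu‖ * (D.d : ℝ) ^ 2 / 2 + D.d * (j * ‖D.v0 ⬝ᵥ p‖) + ‖μ‖ * D.d := by
          refine (norm_add_le _ _).trans (add_le_add ((norm_add_le _ _).trans (add_le_add ?_ ?_)) ?_)
          · rw [norm_div, norm_mul, norm_pow, Complex.norm_real, Real.norm_eq_abs, abs_of_nonneg hx0]
            simp only [Complex.norm_ofNat]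
            have : x ^ 2 ≤ (D.d : ℝ) ^ 2 := pow_le_pow_left₀ hx0 hxd 2
            have h0 := norm_nonneg D.nu
            have := mul_le_mul_of_nonneg_left this h0
            linarith
          · rw [dotProduct_smul, smul_eq_mul, norm_mul, norm_mul, Complex.norm_real, Real.norm_eq_abs, abs_of_nonneg hx0,
              Complex.norm_natCast]
            exact mul_le_mul hxd (mul_le_mul_of_nonneg_right hij (norm_nonneg _)) (by positivity) hdp.le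
          · rw [norm_mul, Complex.norm_real, Real.norm_eq_abs, abs_of_nonneg hx0]
            exact mul_le_mul_of_nonneg_left hxd (norm_nonneg _)
        have := mul_le_mul_of_nonneg_left hn (by have := Real.pi_pos; positivity : (0 : ℝ) ≤ 2 * Real.pi)
        refine this.trans (le_of_eq ?_)
        rw [hc1, hc2]; ring
      have e1 : ‖Fq Φ q ((((i : ℕ) : ℂ) • p) + (x : ℂ) • D.gc)‖ ≤
          Real.exp (K0 + 2 * K0 * (D.d : ℝ) ^ 2 * nsq D.gc + 2 * K0 * nsq p * (j : ℝ) ^ 2 - k ^ 2 / K0) := by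
        have hcast : (((i : ℕ) : ℂ) • p) + (x : ℂ) • D.gc = ((((i : ℕ) : ℝ) : ℂ) • p) + (x : ℂ) • D.gc := by
          push_cast; rfl
        rw [hcast]
        have hY : |Y (((((i : ℕ) : ℝ) : ℂ) • p) + (x : ℂ) • D.gc)| ≤ k / K0 := by
          rw [map_add, hd.Y_g x, add_zero]
          have : ((((i : ℕ) : ℝ) : ℂ) • p) = (((i : ℕ) : ℝ)) • p := by
            ext l; simp
          rw [this, map_smul, smul_eq_mul, abs_mul, abs_of_nonneg hi0]
          calc ((i : ℕ) : ℝ) * |Y p| ≤ (k / K) * |Y p| := mul_le_mul_of_nonneg_right (hij.trans hjk) (abs_nonneg _)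
            _ ≤ k / K0 := by
              rw [div_mul_eq_mul_div, div_le_div_iff₀ hKp hK0', mul_assoc]
              refine mul_le_mul_of_nonneg_left ?_ hkp.le
              rw [mul_comm]; exact hK2
        refine (hF T hT0 k hk1 hk2 q hq hB _ hY).trans (Real.exp_le_exp.2 ?_)
        have hn := nsq_comb p D.gc ((i : ℕ) : ℝ) x
        have h1 : ((i : ℕ) : ℝ) ^ 2 ≤ (j : ℝ) ^ 2 := pow_le_pow_left₀ hi0 hij 2
        have h2 : x ^ 2 ≤ (D.d : ℝ) ^ 2 := pow_le_pow_left₀ hx0 hxd 2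
        have h3 : 2 * ((i : ℕ) : ℝ) ^ 2 * nsq p ≤ 2 * (j : ℝ) ^ 2 * nsq p := by
          apply mul_le_mul_of_nonneg_right _ hNp; linarith
        have h4 : 2 * x ^ 2 * nsq D.gc ≤ 2 * (D.d : ℝ) ^ 2 * nsq D.gc := by
          apply mul_le_mul_of_nonneg_right _ hNg; linarith
        have h5 := mul_le_mul_of_nonneg_left (hn.trans (add_le_add h3 h4)) hK0'.le
        have h6 : K0 * (2 * (j : ℝ) ^ 2 * nsq p + 2 * (D.d : ℝ) ^ 2 * nsq D.gc) =
            2 * K0 * (D.d : ℝ) ^ 2 * nsq D.gc + 2 * K0 * nsq p * (j : ℝ) ^ 2 := by ring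
        rw [mul_add, mul_one]
        linarith [h5, h6]
      rw [e3, mul_one]
      refine (mul_le_mul e1 e2 (norm_nonneg _) (Real.exp_pos _).le).trans (le_of_eq ?_)
      rw [← Real.exp_add]
      congr 1
      rw [hE, hc3]; ring
    rw [norm_mul, norm_mul, norm_inv, Complex.norm_natCast]
    rw [sub_zero, abs_of_pos hdp] at hint
    calc ‖y i‖ * ((D.d : ℝ)⁻¹ * _) ≤ 1 * ((D.d : ℝ)⁻¹ * (Real.exp E * D.d)) := by
          refine mul_le_mul (hy i) (mul_le_mul_of_nonneg_left hint (by positivity)) (by positivity) zero_le_one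
      _ = Real.exp E := by field_simp
  refine (norm_sum_le _ _).trans ?_
  refine (Finset.sum_le_card_nsmul _ _ _ fun i _ => hterm i).trans ?_
  rw [Finset.card_univ, Fintype.card_fin, nsmul_eq_mul]
  have hje : (j : ℝ) ≤ Real.exp j := by have := Real.add_one_le_exp (j : ℝ); linarith
  refine (mul_le_mul_of_nonneg_right hje (Real.exp_pos _).le).trans ?_
  rw [← Real.exp_add]
  apply Real.exp_le_exp.2
  rw [hE]
  -- final inequality
  have hj2 : (j : ℝ) ^ 2 ≤ k ^ 2 / K ^ 2 := by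
    rw [← div_pow]; exact pow_le_pow_left₀ hj0 hjk 2
  have hK1' : 1 ≤ K := by linarith
  have hjk' : (j : ℝ) ≤ k := hjk.trans (div_le_self hkp.le hK1')
  have q1 : k ^ 2 / K ≤ k ^ 2 / (4 * K0) := div_le_div_of_nonneg_left (by positivity) (by positivity) hK1
  have q2 : 2 * K0 * nsq p * (j : ℝ) ^ 2 ≤ k ^ 2 / (4 * K0) := by
    have h1 : 2 * K0 * nsq p * (j : ℝ) ^ 2 ≤ 2 * K0 * nsq p * (k ^ 2 / K ^ 2) := mul_le_mul_of_nonneg_left hj2 (by positivity)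
    refine h1.trans ?_
    rw [mul_div_assoc', div_le_div_iff₀ (by positivity) (by positivity)]
    have h2 : 8 * K0 ^ 2 * nsq p ≤ K ^ 2 := hK3.trans (le_self_pow₀ hK1' two_ne_zero)
    calc 2 * K0 * nsq p * k ^ 2 * (4 * K0) = k ^ 2 * (8 * K0 ^ 2 * nsq p) := by ring
      _ ≤ k ^ 2 * K ^ 2 := mul_le_mul_of_nonneg_left h2 (sq_nonneg k)
  have q3 : (1 + c2) * (j : ℝ) ≤ k ^ 2 / (4 * K0) := by
    rw [le_div_iff₀ (by positivity)]
    have h1 : 4 * K0 * (1 + c2) ≤ k := by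
      have : 0 ≤ 4 * K0 * c3 := by positivity
      linarith
    have h2 : (1 + c2) * (j : ℝ) ≤ (1 + c2) * k := mul_le_mul_of_nonneg_left hjk' (by positivity)
    calc (1 + c2) * (j : ℝ) * (4 * K0) ≤ (1 + c2) * k * (4 * K0) := mul_le_mul_of_nonneg_right h2 (by positivity)
      _ = (4 * K0 * (1 + c2)) * k := by ring
      _ ≤ k * k := mul_le_mul_of_nonneg_right h1 hkp.le
      _ = k ^ 2 := by ring
  have q4 : c3 ≤ k ^ 2 / (4 * K0) := by
    rw [le_div_iff₀ (by positivity)]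
    have h1 : 4 * K0 * c3 ≤ k := by
      have : 0 ≤ 4 * K0 * (1 + c2) := by positivity
      linarith
    calc c3 * (4 * K0) = 4 * K0 * c3 := by ring
      _ ≤ k := h1
      _ ≤ k ^ 2 := le_self_pow₀ hk1' two_ne_zero
  have q5 : k ^ 2 / K0 = 4 * (k ^ 2 / (4 * K0)) := by field_simp
  rw [q5]
  have q3' : (j : ℝ) + c2 * j ≤ k ^ 2 / (4 * K0) := by
    refine le_trans (le_of_eq ?_) q3
    ring
  linarith [q1, q2, q3', q4]

end Pool.Agent.LT
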