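import Pool.Agent.Lib.MP_f58a57_nt.LT.C.CDefs

/-!
# MP_f58a57_nt, large transcendence degree, part C (row lt-C-V1)

One variable: for an entire function of real period d the integral over [w, w+d] does not depend on w in C (the derivative in w is f(w+d) - f(w) = 0).
-/

open Complex Matrix MeasureTheory

noncomputable section

namespace Pool.Agent.LT

variable {c : ℕ}

theorem per_shift {f : ℂ → ℂ} (hf : Differentiable ℂ f) {d : ℝ} (hp : ∀ x : ℂ, f (x + d) = f x) (w : ℂ) :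
    ∫ x in (0 : ℝ)..d, f (x + w) = ∫ x in (0 : ℝ)..d, f x := by
  have h1 := Complex.integral_boundary_rect_eq_zero_of_differentiableOn f 0 ((d : ℂ) + (w.im : ℂ) * I)
    hf.differentiableOn
  have e1 : ((d : ℂ) + (w.im : ℂ) * I).re = d := by simp
  have e2 : ((d : ℂ) + (w.im : ℂ) * I).im = w.im := by simp
  rw [e1, e2] at h1
  have h2 : (∫ y in (0 : ℂ).im..w.im, f ((d : ℂ) + (y : ℂ) * I)) =
      ∫ y in (0 : ℂ).im..w.im, f (((0 : ℂ).re : ℂ) + (y : ℂ) * I) := by
    refine intervalIntegral.integral_congr ?_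
    intro y _
    have h3 := hp (((0 : ℂ).re : ℂ) + (y : ℂ) * I)
    show f ((d : ℂ) + (y : ℂ) * I) = f (((0 : ℂ).re : ℂ) + (y : ℂ) * I)
    rw [← h3]
    congr 1
    simp
    ring
  rw [h2] at h1
  have h4 : (∫ x in (0 : ℝ)..d, f ((x : ℂ) + (w.im : ℂ) * I)) = ∫ x in (0 : ℝ)..d, f x := by
    have h5 : (∫ x in (0 : ℂ).re..d, f ((x : ℂ) + ((0 : ℂ).im : ℂ) * I)) = ∫ x in (0 : ℝ)..d, f x := by
      simp
    have h6 : (∫ x in (0 : ℂ).re..d, f ((x : ℂ) + (w.im : ℂ) * I)) =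
        ∫ x in (0 : ℝ)..d, f ((x : ℂ) + (w.im : ℂ) * I) := by
      simp
    rw [h5, h6] at h1
    have h7 : (∫ x in (0 : ℝ)..d, f x) - (∫ x in (0 : ℝ)..d, f ((x : ℂ) + (w.im : ℂ) * I)) = 0 := by
      rw [← h1]
      ring
    exact (sub_eq_zero.1 h7).symm
  rw [← h4]
  have hg : Function.Periodic (fun x : ℝ => f ((x : ℂ) + (w.im : ℂ) * I)) d := by
    intro x
    show f (((x + d : ℝ) : ℂ) + (w.im : ℂ) * I) = f ((x : ℂ) + (w.im : ℂ) * I)
    rw [← hp ((x : ℂ) + (w.im : ℂ) * I)]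
    congr 1
    push_cast
    ring
  have h8 := hg.intervalIntegral_add_eq w.re 0
  rw [zero_add] at h8
  rw [← h8]
  have h9 := intervalIntegral.integral_comp_add_right (a := 0) (b := d)
    (fun x : ℝ => f ((x : ℂ) + (w.im : ℂ) * I)) w.re
  rw [zero_add, add_comm d w.re] at h9
  rw [← h9]
  refine intervalIntegral.integral_congr ?_
  intro x _
  show f ((x : ℂ) + w) = f (((x + w.re : ℝ) : ℂ) + (w.im : ℂ) * I)
  congr 1
  push_cast
  rw [add_assoc, Complex.re_add_im]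

end Pool.Agent.LT
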