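import Pool.Agent.Lib.MP_f58a57_nt.LT.C.CDefs
import Pool.Agent.Lib.MP_f58a57_nt.LT.C.V1
import Pool.Agent.Lib.MP_f58a57_nt.LT.C.M1

/-!
# MP_f58a57_nt, large transcendence degree, part C (row lt-C-M3)

hk: independence of the shift w of the line of integration.
-/

open Complex Matrix MeasureTheory

noncomputable section

namespace Pool.Agent.LT

variable {c : ℕ}

theorem hk_shift {D : Dat c} {Φ : VN c → VN c → ℂ} {C C' : (Fin (2 * c + 1) → ℤ) → ℂ} (hK : Ker D Φ C C') {μ : ℂ} (hμ : Mu D C μ) (κ : ℤ)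
    (u s : VN c) (w : ℂ) :
    hk D Φ μ κ u s = (D.d : ℂ)⁻¹ * ∫ x in (0 : ℝ)..(D.d : ℝ), fm D Φ μ u s (x + w) * ee (-(κ * (x + w) / D.d)) := by
  have hd : (D.d : ℂ) ≠ 0 := by exact_mod_cast D.hd.ne'
  have hf : Differentiable ℂ (fun x : ℂ => fm D Φ μ u s x * ee (-(κ * x / D.d))) := by
    have h1 : Differentiable ℂ (fun x : ℂ => fm D Φ μ u s x) := by
      have h2 := fm_diff hK μ
      have h3 : Differentiable ℂ (fun x : ℂ => ((x, u, s) : ℂ × VN c × VN c)) :=
        differentiable_id.prodMk (differentiable_const (u, s))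
      exact h2.comp h3
    refine h1.mul ?_
    unfold ee
    exact Differentiable.cexp (Differentiable.const_mul
      (((differentiable_const (κ : ℂ)).mul differentiable_id).div_const _).neg _)
  have hp : ∀ x : ℂ, fm D Φ μ u s (x + ((D.d : ℝ) : ℂ)) * ee (-(κ * (x + ((D.d : ℝ) : ℂ)) / D.d)) =
      fm D Φ μ u s x * ee (-(κ * x / D.d)) := by
    intro x
    have h1 := fm_per hK hμ u s x
    rw [h1]
    congr 1
    have h2 : (-(κ * (x + ((D.d : ℝ) : ℂ)) / D.d) : ℂ) = -(κ * x / D.d) + ((-κ : ℤ) : ℂ) := by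
      push_cast
      field_simp
      ring
    rw [h2, ee_add, ee_int, mul_one]
  have h := per_shift hf hp w
  unfold hk
  rw [← h]

end Pool.Agent.LT
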