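import Pool.Agent.Lib.MP_f58a57_nt.LT.C.CDefs
import Pool.Agent.Lib.MP_f58a57_nt.LT.C.M3

/-!
# MP_f58a57_nt, large transcendence degree, part C (row lt-C-M4)

(C1): take w = -i delta kappa in hk_shift (delta small), |ee(-(kappa w / d))| = exp(-2 pi delta kappa^2 / d), |fm(x+w)| <= exp(A(1+|u|^2+|s|^2+delta^2 kappa^2)).
-/

open Complex Matrix MeasureTheory

noncomputable section

namespace Pool.Agent.LT

namespace M4_

theorem norm_ee (x : ℂ) : ‖ee x‖ = Real.exp (-(2 * Real.pi * x.im)) := by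
  unfold ee
  rw [Complex.norm_exp]
  congr 1
  simp [Complex.mul_re, Complex.mul_im]

theorem norm_ee_le (x : ℂ) : ‖ee x‖ ≤ Real.exp (2 * Real.pi * ‖x‖) := by
  rw [norm_ee]
  apply Real.exp_le_exp.2
  have h1 : -x.im ≤ ‖x‖ := (neg_le_abs x.im).trans (Complex.abs_im_le_norm x)
  have h2 : 0 < 2 * Real.pi := by positivity
  nlinarith

theorem nsq_nonneg {n : ℕ} (z : Fin n → ℂ) : 0 ≤ nsq z := by
  unfold nsq
  positivity

theorem nsq_add_smul {n : ℕ} (u g : Fin n → ℂ) (y : ℂ) :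
    nsq (u + y • g) ≤ 2 * nsq u + 2 * ‖y‖ ^ 2 * nsq g := by
  unfold nsq
  rw [Finset.mul_sum, Finset.mul_sum, ← Finset.sum_add_distrib]
  apply Finset.sum_le_sum
  intro i _
  have h1 : ‖(u + y • g) i‖ ≤ ‖u i‖ + ‖y‖ * ‖g i‖ := by
    rw [Pi.add_apply, Pi.smul_apply, smul_eq_mul, ← norm_mul]
    exact norm_add_le _ _
  have h2 : ‖(u + y • g) i‖ ^ 2 ≤ (‖u i‖ + ‖y‖ * ‖g i‖) ^ 2 := pow_le_pow_left₀ (norm_nonneg _) h1 2
  nlinarith [sq_nonneg (‖u i‖ - ‖y‖ * ‖g i‖)]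

theorem dot_le {n : ℕ} (v u : Fin n → ℂ) (y : ℂ) :
    ‖y * (v ⬝ᵥ u)‖ ≤ (‖y‖ ^ 2 * nsq v + nsq u) / 2 := by
  have h1 : y * (v ⬝ᵥ u) = ∑ i, y * (v i * u i) := by
    rw [dotProduct, Finset.mul_sum]
  rw [h1]
  refine (norm_sum_le _ _).trans ?_
  unfold nsq
  rw [Finset.mul_sum, ← Finset.sum_add_distrib, Finset.sum_div]
  apply Finset.sum_le_sum
  intro i _
  rw [norm_mul, norm_mul]
  nlinarith [sq_nonneg (‖y‖ * ‖v i‖ - ‖u i‖)]

variable {c : ℕ}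

theorem fm_bound {D : Dat c} {Φ : VN c → VN c → ℂ} {C C' : (Fin (2 * c + 1) → ℤ) → ℂ}
    (hK : Ker D Φ C C') (μ : ℂ) :
    ∃ A1 B : ℝ, 0 ≤ A1 ∧ 0 < B ∧ ∀ (u s : VN c) (y : ℂ),
      ‖fm D Φ μ u s y‖ ≤ Real.exp (A1 * (1 + nsq u + nsq s) + B * ‖y‖ ^ 2) := by
  obtain ⟨A0, hA0⟩ := hK.grow
  have hG := nsq_nonneg D.gc
  have hV := nsq_nonneg D.v0
  have hpi := Real.pi_pos
  refine ⟨2 * |A0| + Real.pi + Real.pi * ‖μ‖ ^ 2,
    2 * |A0| * nsq D.gc + Real.pi * ‖D.nu‖ + Real.pi * nsq D.v0 + Real.pi, by positivity,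
    by positivity, ?_⟩
  intro u s y
  have hu := nsq_nonneg u
  have hs := nsq_nonneg s
  unfold fm
  rw [norm_mul]
  have h1 : ‖Φ (u + y • D.gc) s‖ ≤
      Real.exp (|A0| * (1 + (2 * nsq u + 2 * ‖y‖ ^ 2 * nsq D.gc) + nsq s)) := by
    refine (hA0 _ _).trans (Real.exp_le_exp.2 ?_)
    have h2 := nsq_add_smul u D.gc y
    have h3 := nsq_nonneg (u + y • D.gc)
    calc A0 * (1 + nsq (u + y • D.gc) + nsq s) ≤ |A0| * (1 + nsq (u + y • D.gc) + nsq s) :=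
          mul_le_mul_of_nonneg_right (le_abs_self A0) (by linarith)
      _ ≤ _ := mul_le_mul_of_nonneg_left (by linarith) (abs_nonneg A0)
  have h2 : ‖ee (D.nu * y ^ 2 / 2 + y * (D.v0 ⬝ᵥ u) + μ * y)‖ ≤
      Real.exp (2 * Real.pi * (‖D.nu‖ * ‖y‖ ^ 2 / 2 + (‖y‖ ^ 2 * nsq D.v0 + nsq u) / 2 +
        (‖μ‖ ^ 2 + ‖y‖ ^ 2) / 2)) := by
    refine (norm_ee_le _).trans (Real.exp_le_exp.2 ?_)
    apply mul_le_mul_of_nonneg_left _ (by positivity)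
    have h3 : ‖D.nu * y ^ 2 / 2‖ = ‖D.nu‖ * ‖y‖ ^ 2 / 2 := by
      rw [norm_div, norm_mul, norm_pow]
      norm_num
    have h4 := dot_le D.v0 u y
    have h5 : ‖μ * y‖ ≤ (‖μ‖ ^ 2 + ‖y‖ ^ 2) / 2 := by
      rw [norm_mul]
      nlinarith [sq_nonneg (‖μ‖ - ‖y‖)]
    have h6 := norm_add_le (D.nu * y ^ 2 / 2 + y * (D.v0 ⬝ᵥ u)) (μ * y)
    have h7 := norm_add_le (D.nu * y ^ 2 / 2) (y * (D.v0 ⬝ᵥ u))
    linarith
  refine (mul_le_mul h1 h2 (norm_nonneg _) (Real.exp_nonneg _)).trans ?_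
  rw [← Real.exp_add]
  apply Real.exp_le_exp.2
  have hA : 0 ≤ |A0| := abs_nonneg A0
  have e1 : 0 ≤ |A0| * nsq s := mul_nonneg hA hs
  have e2 : 0 ≤ Real.pi * nsq s := mul_nonneg hpi.le hs
  have e3 : 0 ≤ Real.pi * ‖μ‖ ^ 2 * (nsq u + nsq s) := by positivity
  have e4 : 0 ≤ |A0| * (1 + nsq s) := by positivity
  nlinarith

end M4_

variable {c : ℕ}

theorem hk_bound {D : Dat c} {Φ : VN c → VN c → ℂ} {C C' : (Fin (2 * c + 1) → ℤ) → ℂ} (hK : Ker D Φ C C') {μ : ℂ} (hμ : Mu D C μ) :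
    ∃ A c1 : ℝ, 0 ≤ A ∧ 0 < c1 ∧ ∀ (κ : ℤ) (u s : VN c), ‖hk D Φ μ κ u s‖ ≤ Real.exp (A * (1 + nsq u + nsq s) - c1 * (κ : ℝ) ^ 2) := by
  obtain ⟨A1, B, hA1, hB, hf⟩ := M4_.fm_bound hK μ
  have hpi := Real.pi_pos
  have hd : (0 : ℝ) < (D.d : ℝ) := by exact_mod_cast D.hd
  set δ : ℝ := Real.pi / (D.d * B) with hδ
  have hδ0 : 0 < δ := by positivity
  refine ⟨A1 + B * (D.d : ℝ) ^ 2, Real.pi * δ / D.d, by positivity, by positivity, ?_⟩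
  intro κ u s
  have hu := M4_.nsq_nonneg u
  have hs := M4_.nsq_nonneg s
  set w : ℂ := -(I * (δ * κ : ℝ)) with hw
  rw [hk_shift hK hμ κ u s w]
  set bound : ℝ := Real.exp (A1 * (1 + nsq u + nsq s) + B * ((D.d : ℝ) ^ 2 + (δ * κ) ^ 2) -
    2 * Real.pi * δ * (κ : ℝ) ^ 2 / D.d) with hbound
  have hint : ‖∫ x in (0 : ℝ)..(D.d : ℝ), fm D Φ μ u s (x + w) * ee (-(κ * (x + w) / D.d))‖ ≤
      bound * |(D.d : ℝ) - 0| := by
    apply intervalIntegral.norm_integral_le_of_norm_le_const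
    intro x hx
    rw [Set.uIoc_of_le hd.le] at hx
    rw [norm_mul]
    have hre : ((x : ℂ) + w).re = x := by
      simp [hw]
    have him : ((x : ℂ) + w).im = -(δ * κ) := by
      simp [hw]
    have hnorm : ‖(x : ℂ) + w‖ ^ 2 = x ^ 2 + (δ * κ) ^ 2 := by
      rw [Complex.sq_norm, Complex.normSq_apply, hre, him]
      ring
    have h1 := hf u s ((x : ℂ) + w)
    have h2 : ‖(x : ℂ) + w‖ ^ 2 ≤ (D.d : ℝ) ^ 2 + (δ * κ) ^ 2 := by
      rw [hnorm]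
      have : x ^ 2 ≤ (D.d : ℝ) ^ 2 := pow_le_pow_left₀ hx.1.le hx.2 2
      linarith
    have h3 : ‖fm D Φ μ u s (x + w)‖ ≤
        Real.exp (A1 * (1 + nsq u + nsq s) + B * ((D.d : ℝ) ^ 2 + (δ * κ) ^ 2)) := by
      refine h1.trans (Real.exp_le_exp.2 ?_)
      have := mul_le_mul_of_nonneg_left h2 hB.le
      linarith
    have h4 : ‖ee (-(κ * (x + w) / D.d))‖ = Real.exp (-(2 * Real.pi * δ * (κ : ℝ) ^ 2 / D.d)) := by
      rw [M4_.norm_ee]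
      congr 1
      have h5 : (-((κ : ℂ) * (x + w) / D.d)).im = δ * (κ : ℝ) ^ 2 / D.d := by
        have h6 : (-((κ : ℂ) * (x + w) / D.d)) = ((-(κ : ℝ) / D.d : ℝ) : ℂ) * (x + w) := by
          push_cast
          ring
        rw [h6, Complex.im_ofReal_mul, him]
        ring
      rw [h5]
      ring
    rw [h4]
    calc ‖fm D Φ μ u s (x + w)‖ * Real.exp (-(2 * Real.pi * δ * (κ : ℝ) ^ 2 / D.d))
        ≤ Real.exp (A1 * (1 + nsq u + nsq s) + B * ((D.d : ℝ) ^ 2 + (δ * κ) ^ 2)) *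
          Real.exp (-(2 * Real.pi * δ * (κ : ℝ) ^ 2 / D.d)) :=
          mul_le_mul_of_nonneg_right h3 (Real.exp_nonneg _)
      _ = bound := by
          rw [hbound, ← Real.exp_add]
          congr 1
  rw [norm_mul, norm_inv, Complex.norm_natCast]
  have h7 : |(D.d : ℝ) - 0| = D.d := by
    rw [sub_zero, abs_of_pos hd]
  rw [h7] at hint
  calc (D.d : ℝ)⁻¹ * ‖∫ x in (0 : ℝ)..(D.d : ℝ), fm D Φ μ u s (x + w) * ee (-(κ * (x + w) / D.d))‖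
      ≤ (D.d : ℝ)⁻¹ * (bound * D.d) := mul_le_mul_of_nonneg_left hint (by positivity)
    _ = bound := by field_simp
    _ ≤ _ := by
        rw [hbound]
        apply Real.exp_le_exp.2
        have h8 : B * δ = Real.pi / D.d := by
          rw [hδ]
          field_simp
        have h9 : B * (δ * κ) ^ 2 = Real.pi * δ / D.d * (κ : ℝ) ^ 2 := by
          calc B * (δ * κ) ^ 2 = (B * δ) * δ * (κ : ℝ) ^ 2 := by ring
            _ = _ := by rw [h8]; ring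
        have h10 : 0 ≤ B * (D.d : ℝ) ^ 2 * (nsq u + nsq s) := by positivity
        have h11 : 2 * Real.pi * δ * (κ : ℝ) ^ 2 / D.d = 2 * (Real.pi * δ / D.d * (κ : ℝ) ^ 2) := by ring
        rw [mul_add B, h9, h11]
        nlinarith

end Pool.Agent.LT
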