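import Pool.Agent.Lib.MP_f58a57_nt.LT.C.CDefs
import Pool.Agent.Lib.MP_f58a57_nt.LT.C.M0

/-!
# MP_f58a57_nt, large transcendence degree, part C (row lt-C-M2)

Transformation properties of f_(u,s)(x) in s and for the jump (see C.1 of the paper; (C4): use (P4) = Ker.sh with x = -xi at the point (u + (x+xi) g, s)).
-/

open Complex Matrix MeasureTheory

noncomputable section

namespace Pool.Agent.LT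

variable {c : ℕ}

theorem fm_lat' {D : Dat c} {Φ : VN c → VN c → ℂ} {C C' : (Fin (2 * c + 1) → ℤ) → ℂ} (hK : Ker D Φ C C') (μ : ℂ)
    (u s : VN c) (a : Fin (2 * c + 1) → ℤ) (x : ℂ) :
    fm D Φ μ u (s + lat D.d a) x = C' a * ee (-(lat D.d a ⬝ᵥ (D.L *ᵥ s))) * fm D Φ μ u s x := by
  have h := (hK.secs (u + x • D.gc)).per a s
  simp only [fm]
  rw [h]
  ring

theorem fm_ker' {D : Dat c} {Φ : VN c → VN c → ℂ} {C C' : (Fin (2 * c + 1) → ℤ) → ℂ} (hK : Ker D Φ C C') (μ : ℂ)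
    (u s k : VN c) (hk : D.L *ᵥ k = 0) (x : ℂ) : fm D Φ μ u (s + k) x = fm D Φ μ u s x := by
  have h := (hK.secs (u + x • D.gc)).ker k hk s
  simp only [fm]
  rw [h]

theorem fm_gs {D : Dat c} {Φ : VN c → VN c → ℂ} {C C' : (Fin (2 * c + 1) → ℤ) → ℂ} (hK : Ker D Φ C C') (μ : ℂ)
    (u s : VN c) (ξ x : ℂ) :
    fm D Φ μ u (s + ξ • D.gc) x = ee (-(D.nu * ξ ^ 2 / 2) - ξ * (D.v0 ⬝ᵥ s) - μ * ξ) * fm D Φ μ u s (x + ξ) := by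
  have h := hK.sh (-ξ) (u + (x + ξ) • D.gc) s
  have e1 : u + (x + ξ) • D.gc + (-ξ) • D.gc = u + x • D.gc := by
    rw [add_assoc, ← add_smul]
    congr 2
    ring
  have e2 : s - (-ξ) • D.gc = s + ξ • D.gc := by
    rw [neg_smul, sub_neg_eq_add]
  rw [e1, e2] at h
  have hν : D.v0 ⬝ᵥ D.gc = D.nu := dotProduct_comm _ _
  have e3 : D.v0 ⬝ᵥ (s - (u + (x + ξ) • D.gc)) =
      D.v0 ⬝ᵥ s - (D.v0 ⬝ᵥ u + (x + ξ) * D.nu) := by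
    rw [dotProduct_sub, dotProduct_add, dotProduct_smul, hν, smul_eq_mul]
  rw [e3] at h
  simp only [fm]
  rw [h]
  have e4 : ee (-ξ * (D.v0 ⬝ᵥ s - (D.v0 ⬝ᵥ u + (x + ξ) * D.nu)) - (-ξ) ^ 2 * D.nu) *
      ee (D.nu * x ^ 2 / 2 + x * (D.v0 ⬝ᵥ u) + μ * x) =
      ee (-(D.nu * ξ ^ 2 / 2) - ξ * (D.v0 ⬝ᵥ s) - μ * ξ) *
        ee (D.nu * (x + ξ) ^ 2 / 2 + (x + ξ) * (D.v0 ⬝ᵥ u) + μ * (x + ξ)) := by
    rw [← ee_add, ← ee_add]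
    congr 1
    ring
  calc _ = (ee (-ξ * (D.v0 ⬝ᵥ s - (D.v0 ⬝ᵥ u + (x + ξ) * D.nu)) - (-ξ) ^ 2 * D.nu) *
      ee (D.nu * x ^ 2 / 2 + x * (D.v0 ⬝ᵥ u) + μ * x)) * Φ (u + (x + ξ) • D.gc) s := by ring
    _ = _ := by
      rw [e4]
      ring

theorem fm_jump {D : Dat c} {Φ : VN c → VN c → ℂ} {p p' : VN c} {nn : Fin (2 * c + 1) → ℤ} {C5 : ℂ} {m : ℤ} (hJ : Jump D Φ p p' nn C5 m) (μ : ℂ)
    (u s : VN c) (x : ℂ) :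
    fm D Φ μ (u + p) (s + p') x = C5 * ee (p ⬝ᵥ (D.L *ᵥ s) + u ⬝ᵥ (D.L *ᵥ p')) * (ee (m * x) * fm D Φ μ u s x) := by
  have h := hJ.jmp (u + x • D.gc) s
  have e1 : u + x • D.gc + p = u + p + x • D.gc := by
    rw [add_right_comm]
  rw [e1] at h
  have e2 : (u + x • D.gc) ⬝ᵥ (D.L *ᵥ p') = u ⬝ᵥ (D.L *ᵥ p') + x * (D.v0 ⬝ᵥ p') := by
    rw [add_dotProduct, smul_dotProduct, gc_dot_L, smul_eq_mul]
  have hm : D.v0 ⬝ᵥ p' + D.v0 ⬝ᵥ p = (m : ℂ) := by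
    have h1 : D.gc ⬝ᵥ (D.L *ᵥ p' + D.Lt *ᵥ p) = D.gc ⬝ᵥ (fun j => (nn j : ℂ)) := by
      rw [hJ.eq]
    rw [dotProduct_add, gc_dot_L, gc_dot_Lt] at h1
    rw [h1, hJ.hm]
    simp [dotProduct, Dat.gc]
  rw [e2] at h
  simp only [fm]
  rw [h, dotProduct_add]
  have e4 : ee (p ⬝ᵥ (D.L *ᵥ s) + (u ⬝ᵥ (D.L *ᵥ p') + x * (D.v0 ⬝ᵥ p'))) *
      ee (D.nu * x ^ 2 / 2 + x * (D.v0 ⬝ᵥ u + D.v0 ⬝ᵥ p) + μ * x) =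
      ee (p ⬝ᵥ (D.L *ᵥ s) + u ⬝ᵥ (D.L *ᵥ p')) * (ee (m * x) *
        ee (D.nu * x ^ 2 / 2 + x * (D.v0 ⬝ᵥ u) + μ * x)) := by
    rw [← ee_add, ← ee_add, ← ee_add, ← hm]
    congr 1
    ring
  calc _ = C5 * (ee (p ⬝ᵥ (D.L *ᵥ s) + (u ⬝ᵥ (D.L *ᵥ p') + x * (D.v0 ⬝ᵥ p'))) *
      ee (D.nu * x ^ 2 / 2 + x * (D.v0 ⬝ᵥ u + D.v0 ⬝ᵥ p) + μ * x)) * Φ (u + x • D.gc) s := by ring
    _ = _ := by
      rw [e4]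
      ring

end Pool.Agent.LT
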