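import Pool.Agent.Lib.MP_f58a57_nt.LT.C.CDefs
import Pool.Agent.Lib.MP_f58a57_nt.LT.C.M2
import Pool.Agent.Lib.MP_f58a57_nt.LT.C.M3
import Pool.Agent.Lib.MP_f58a57_nt.LT.C.M6

/-!
# MP_f58a57_nt, large transcendence degree, part C (row lt-C-M7)

(C3),(C3prime),(C4),(C5): integrate the transformation properties of fm; for the shifts by xi use hk_shift with w = xi.
-/

open Complex Matrix MeasureTheory

noncomputable section

namespace Pool.Agent.LT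

variable {c : ℕ}

namespace M7_

theorem pull (d : ℂ) (a b : ℝ) (A : ℂ) (f g : ℝ → ℂ) (h : ∀ x, f x = A * g x) :
    d⁻¹ * ∫ x in a..b, f x = A * (d⁻¹ * ∫ x in a..b, g x) := by
  have h1 : (∫ x in a..b, f x) = A * ∫ x in a..b, g x := by
    rw [← intervalIntegral.integral_const_mul]
    exact intervalIntegral.integral_congr (fun x _ => h x)
  rw [h1]
  ring

theorem shift {D : Dat c} {Φ : VN c → VN c → ℂ} {C C' : (Fin (2 * c + 1) → ℤ) → ℂ} (hK : Ker D Φ C C') {μ : ℂ} (hμ : Mu D C μ) (κ : ℤ)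
    (u s : VN c) (ξ B : ℂ) (f : ℝ → ℂ)
    (hf : ∀ x : ℝ, f x = ee (B - μ * ξ) * fm D Φ μ u s (x + ξ) * ee (-(κ * x / D.d))) :
    (D.d : ℂ)⁻¹ * ∫ x in (0 : ℝ)..(D.d : ℝ), f x = ee (B - (μ - κ / D.d) * ξ) * hk D Φ μ κ u s := by
  rw [hk_shift hK hμ κ u s ξ]
  refine pull _ _ _ _ _ _ ?_
  intro x
  rw [hf x]
  have h1 : ee (B - μ * ξ) * ee (-(κ * x / D.d)) = ee (B - (μ - κ / D.d) * ξ) * ee (-(κ * (x + ξ) / D.d)) := by
    rw [← ee_add, ← ee_add]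
    congr 1
    ring
  calc ee (B - μ * ξ) * fm D Φ μ u s (x + ξ) * ee (-(κ * x / D.d))
      = (ee (B - μ * ξ) * ee (-(κ * x / D.d))) * fm D Φ μ u s (x + ξ) := by ring
    _ = ee (B - (μ - κ / D.d) * ξ) * (fm D Φ μ u s (x + ξ) * ee (-(κ * (x + ξ) / D.d))) := by
      rw [h1]
      ring

theorem compL (F : VN c → VN c → ℂ) (h1 : Differentiable ℂ (fun q : VN c × VN c => F q.1 q.2)) (s : VN c) :
    Differentiable ℂ (fun u : VN c => F u s) := by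
  have h2 : Differentiable ℂ (fun u : VN c => ((u, s) : VN c × VN c)) := differentiable_id.prodMk (differentiable_const s)
  exact Differentiable.comp (g := fun q : VN c × VN c => F q.1 q.2) (f := fun u : VN c => ((u, s) : VN c × VN c)) h1 h2

theorem compR (F : VN c → VN c → ℂ) (h1 : Differentiable ℂ (fun q : VN c × VN c => F q.1 q.2)) (u : VN c) :
    Differentiable ℂ (fun s : VN c => F u s) := by
  have h2 : Differentiable ℂ (fun s : VN c => ((u, s) : VN c × VN c)) := (differentiable_const u).prodMk differentiable_id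
  exact Differentiable.comp (g := fun q : VN c × VN c => F q.1 q.2) (f := fun s : VN c => ((u, s) : VN c × VN c)) h1 h2

end M7_

theorem hk_mode {D : Dat c} {Φ : VN c → VN c → ℂ} {C C' : (Fin (2 * c + 1) → ℤ) → ℂ} (hK : Ker D Φ C C') {μ : ℂ} (hμ : Mu D C μ) (κ : ℤ) (s : VN c) :
    Mode D C μ κ (fun u => hk D Φ μ κ u s) := by
  refine ⟨⟨?_, ?_, ?_⟩, ?_⟩
  · exact M7_.compL (hk D Φ μ κ) (hk_diff hK μ κ) s
  · intro a u
    show hk D Φ μ κ (u + lat D.d a) s = C a * ee (-(lat D.d a ⬝ᵥ (D.Lt *ᵥ u))) * hk D Φ μ κ u s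
    unfold hk
    refine M7_.pull _ _ _ _ _ _ ?_
    intro x
    rw [fm_lat hK]
    ring
  · intro k hk0 u
    show hk D Φ μ κ (u + k) s = hk D Φ μ κ u s
    unfold hk
    congr 1
    refine intervalIntegral.integral_congr ?_
    intro x _
    show fm D Φ μ (u + k) s x * ee (-(κ * x / D.d)) = fm D Φ μ u s x * ee (-(κ * x / D.d))
    rw [fm_ker hK μ u s k hk0]
  · intro ξ u
    show hk D Φ μ κ (u + ξ • D.gc) s = ee (-(D.nu * ξ ^ 2 / 2) - ξ * (D.v0 ⬝ᵥ u) - (μ - κ / D.d) * ξ) * hk D Φ μ κ u s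
    refine M7_.shift hK hμ κ u s ξ _ _ ?_
    intro x
    rw [fm_gu hK]

theorem hk_secs {D : Dat c} {Φ : VN c → VN c → ℂ} {C C' : (Fin (2 * c + 1) → ℤ) → ℂ} (hK : Ker D Φ C C') {μ : ℂ} (hμ : Mu D C μ) (κ : ℤ) (u : VN c) :
    Sec D.d D.L C' (hk D Φ μ κ u) := by
  refine ⟨?_, ?_, ?_⟩
  · exact M7_.compR (hk D Φ μ κ) (hk_diff hK μ κ) u
  · intro a s
    unfold hk
    refine M7_.pull _ _ _ _ _ _ ?_
    intro x
    rw [fm_lat' hK]
    ring
  · intro k hk0 s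
    unfold hk
    congr 1
    refine intervalIntegral.integral_congr ?_
    intro x _
    show fm D Φ μ u (s + k) x * ee (-(κ * x / D.d)) = fm D Φ μ u s x * ee (-(κ * x / D.d))
    rw [fm_ker' hK μ u s k hk0]

theorem hk_gs {D : Dat c} {Φ : VN c → VN c → ℂ} {C C' : (Fin (2 * c + 1) → ℤ) → ℂ} (hK : Ker D Φ C C') {μ : ℂ} (hμ : Mu D C μ) (κ : ℤ) (u s : VN c) (ξ : ℂ) :
    hk D Φ μ κ u (s + ξ • D.gc) = ee (-(D.nu * ξ ^ 2 / 2) - ξ * (D.v0 ⬝ᵥ s) - (μ - κ / D.d) * ξ) * hk D Φ μ κ u s := by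
  refine M7_.shift hK hμ κ u s ξ _ _ ?_
  intro x
  rw [fm_gs hK]

theorem hk_jump {D : Dat c} {Φ : VN c → VN c → ℂ} {p p' : VN c} {nn : Fin (2 * c + 1) → ℤ} {C5 : ℂ} {m : ℤ} (hJ : Jump D Φ p p' nn C5 m) (μ : ℂ)
    (κ : ℤ) (u s : VN c) :
    hk D Φ μ κ (u + p) (s + p') = C5 * ee (p ⬝ᵥ (D.L *ᵥ s) + u ⬝ᵥ (D.L *ᵥ p')) * hk D Φ μ (κ - m * D.d) u s := by
  unfold hk
  refine M7_.pull _ _ _ _ _ _ ?_
  intro x
  rw [fm_jump hJ]
  have hd : (D.d : ℂ) ≠ 0 := by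
    have h0 := D.hd
    exact_mod_cast h0.ne'
  have h1 : ee (-(((κ - m * D.d : ℤ) : ℂ) * x / D.d)) = ee (m * x) * ee (-(κ * x / D.d)) := by
    rw [← ee_add]
    congr 1
    push_cast
    field_simp
    ring
  rw [h1]
  ring

end Pool.Agent.LT
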