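import Pool.Agent.Lib.MP_f58a57_nt.LT.C.CDefs
import Pool.Agent.Lib.MP_f58a57_nt.LT.C.P
import Pool.Agent.Lib.MP_f58a57_nt.LT.C.M4
import Pool.Agent.Lib.MP_f58a57_nt.LT.C.M7
import Pool.Agent.Lib.MP_f58a57_nt.LT.C.G1
import Pool.Agent.Lib.MP_f58a57_nt.LT.C.D2b

/-!
# MP_f58a57_nt, large transcendence degree, part C (row lt-C-B6)

Third step of C.4: g_y is a section in s, INT for g_y / exp(A(1+j^2)), then extend_bound.
-/

open Complex Matrix MeasureTheory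

noncomputable section

namespace Pool.Agent.LT

variable {c : ℕ}

namespace B6_

theorem gy_scale (D : Dat c) (Φ : VN c → VN c → ℂ) (μ : ℂ) (κ m : ℤ) (p : VN c) {j : ℕ} (y : Fin j → ℂ) (t : ℂ) (s : VN c) :
    gy D Φ μ κ m p (fun i => t * y i) s = t * gy D Φ μ κ m p y s := by
  unfold gy
  rw [Finset.mul_sum]
  exact Finset.sum_congr rfl fun β _ => by ring

theorem nsq_nonneg {n : ℕ} (z : Fin n → ℂ) : 0 ≤ nsq z := Finset.sum_nonneg fun _ _ => by positivity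

theorem nsq_smul {n : ℕ} (a : ℂ) (z : Fin n → ℂ) : nsq (a • z) = ‖a‖ ^ 2 * nsq z := by
  unfold nsq
  rw [Finset.mul_sum]
  exact Finset.sum_congr rfl fun i _ => by rw [Pi.smul_apply, smul_eq_mul, norm_mul, mul_pow]

theorem nsq_pt_le {n : ℕ} (g : Fin n → ℤ) (d : ℕ) (b : Fin n → ℝ) (hb : ∀ j, 0 ≤ b j ∧ b j ≤ d) (y : ℝ) :
    nsq (pt g b y) ≤ (n * (d : ℝ) ^ 2) + (∑ j, (g j : ℝ) ^ 2) * y ^ 2 := by
  unfold nsq pt
  have h1 : ∀ j, ‖(b j : ℂ) + I * y * (g j : ℂ)‖ ^ 2 = b j ^ 2 + (g j : ℝ) ^ 2 * y ^ 2 := by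
    intro j
    have : (b j : ℂ) + I * y * (g j : ℂ) = ((b j : ℝ) : ℂ) + ((y * (g j : ℝ) : ℝ) : ℂ) * I := by
      push_cast
      ring
    rw [this, ← Complex.normSq_eq_norm_sq, Complex.normSq_add_mul_I]
    ring
  calc ∑ j, ‖(b j : ℂ) + I * y * (g j : ℂ)‖ ^ 2 = ∑ j, (b j ^ 2 + (g j : ℝ) ^ 2 * y ^ 2) :=
        Finset.sum_congr rfl fun j _ => h1 j
    _ = ∑ j, b j ^ 2 + (∑ j, (g j : ℝ) ^ 2) * y ^ 2 := by rw [Finset.sum_add_distrib, Finset.sum_mul]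
    _ ≤ (n * (d : ℝ) ^ 2) + (∑ j, (g j : ℝ) ^ 2) * y ^ 2 := by
        have : ∑ j, b j ^ 2 ≤ ∑ _j : Fin n, (d : ℝ) ^ 2 :=
          Finset.sum_le_sum fun j _ => pow_le_pow_left₀ (hb j).1 (hb j).2 2
        rw [Finset.sum_const, Finset.card_univ, Fintype.card_fin, nsmul_eq_mul] at this
        linarith

theorem gy_sec {D : Dat c} {Φ : VN c → VN c → ℂ} {C C' : (Fin (2 * c + 1) → ℤ) → ℂ} (hK : Ker D Φ C C') {μ : ℂ} (hμ : Mu D C μ) (κ m : ℤ)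
    (p : VN c) {j : ℕ} (y : Fin j → ℂ) : Sec D.d D.L C' (gy D Φ μ κ m p y) where
  diff := by
    unfold gy
    exact Differentiable.fun_sum fun i _ => (hk_secs hK hμ _ _).diff.const_mul (y i)
  per := fun a u => by
    unfold gy
    rw [Finset.mul_sum]
    refine Finset.sum_congr rfl fun i _ => ?_
    rw [(hk_secs hK hμ _ _).per]
    ring
  ker := fun k hk u => by
    unfold gy
    refine Finset.sum_congr rfl fun i _ => ?_
    rw [(hk_secs hK hμ _ _).ker k hk]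

theorem gy_bound {D : Dat c} {Φ : VN c → VN c → ℂ} {C C' : (Fin (2 * c + 1) → ℤ) → ℂ} (hK : Ker D Φ C C') {μ : ℂ} (hμ : Mu D C μ) (κ m : ℤ)
    (p : VN c) : ∃ A : ℝ, 0 ≤ A ∧ ∀ (j : ℕ) (y : Fin j → ℂ), (∀ i, ‖y i‖ ≤ 1) → ∀ s,
      ‖gy D Φ μ κ m p y s‖ ≤ Real.exp (A * (1 + (j : ℝ) ^ 2) + A * (1 + nsq s)) := by
  obtain ⟨A, c1, hA, hc1, h⟩ := hk_bound hK hμ
  have hP0 := nsq_nonneg p
  refine ⟨A * nsq p + A + 1, by positivity, fun j y hy s => ?_⟩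
  have hS0 := nsq_nonneg s
  have hj0 : (0 : ℝ) ≤ (j : ℝ) := Nat.cast_nonneg j
  have h1 : ∀ i : Fin j, ‖y i * hk D Φ μ (κ + (i : ℕ) * m * D.d) (((i : ℕ) : ℂ) • p) s‖ ≤ Real.exp (A * (1 + (j : ℝ) ^ 2 * nsq p + nsq s)) := by
    intro i
    rw [norm_mul]
    have h2 := h (κ + (i : ℕ) * m * D.d) (((i : ℕ) : ℂ) • p) s
    have h3 : nsq ((((i : ℕ) : ℂ)) • p) ≤ (j : ℝ) ^ 2 * nsq p := by
      rw [nsq_smul, Complex.norm_natCast]
      apply mul_le_mul_of_nonneg_right _ hP0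
      have h4 : ((i : ℕ) : ℝ) ≤ (j : ℝ) := by exact_mod_cast i.2.le
      exact pow_le_pow_left₀ (Nat.cast_nonneg _) h4 2
    calc ‖y i‖ * ‖hk D Φ μ (κ + (i : ℕ) * m * D.d) (((i : ℕ) : ℂ) • p) s‖
        ≤ 1 * ‖hk D Φ μ (κ + (i : ℕ) * m * D.d) (((i : ℕ) : ℂ) • p) s‖ := mul_le_mul_of_nonneg_right (hy i) (norm_nonneg _)
      _ = ‖hk D Φ μ (κ + (i : ℕ) * m * D.d) (((i : ℕ) : ℂ) • p) s‖ := one_mul _
      _ ≤ _ := h2
      _ ≤ Real.exp (A * (1 + (j : ℝ) ^ 2 * nsq p + nsq s)) := by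
          apply Real.exp_le_exp.2
          have h5 : 0 ≤ c1 * ((κ + (i : ℕ) * m * D.d : ℤ) : ℝ) ^ 2 := by positivity
          have h6 : A * (1 + nsq ((((i : ℕ) : ℂ)) • p) + nsq s) ≤ A * (1 + (j : ℝ) ^ 2 * nsq p + nsq s) :=
            mul_le_mul_of_nonneg_left (by linarith) hA
          linarith
  have h7 : ‖gy D Φ μ κ m p y s‖ ≤ (j : ℝ) * Real.exp (A * (1 + (j : ℝ) ^ 2 * nsq p + nsq s)) := by
    unfold gy
    refine (norm_sum_le _ _).trans ?_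
    refine (Finset.sum_le_sum fun i _ => h1 i).trans ?_
    rw [Finset.sum_const, Finset.card_univ, Fintype.card_fin, nsmul_eq_mul]
  refine h7.trans ?_
  have h8 : (j : ℝ) ≤ Real.exp (1 + (j : ℝ) ^ 2) := by
    have h9 := Real.add_one_le_exp (1 + (j : ℝ) ^ 2)
    nlinarith [sq_nonneg ((j : ℝ) - 1)]
  calc (j : ℝ) * Real.exp (A * (1 + (j : ℝ) ^ 2 * nsq p + nsq s))
      ≤ Real.exp (1 + (j : ℝ) ^ 2) * Real.exp (A * (1 + (j : ℝ) ^ 2 * nsq p + nsq s)) :=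
        mul_le_mul_of_nonneg_right h8 (Real.exp_pos _).le
    _ = Real.exp (1 + (j : ℝ) ^ 2 + A * (1 + (j : ℝ) ^ 2 * nsq p + nsq s)) := by rw [← Real.exp_add]
    _ ≤ _ := by
        apply Real.exp_le_exp.2
        have e1 : 0 ≤ A * nsq p := mul_nonneg hA hP0
        have e2 : 0 ≤ A * nsq s := mul_nonneg hA hS0
        have e3 : 0 ≤ A * (j : ℝ) ^ 2 := mul_nonneg hA (sq_nonneg _)
        have e4 : 0 ≤ A * nsq p * (j : ℝ) ^ 2 := mul_nonneg e1 (sq_nonneg _)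
        have e5 : 0 ≤ A * nsq p * nsq s := mul_nonneg e1 hS0
        nlinarith

end B6_

open B6_ in
theorem gy_small {D : Dat c} {Φ : VN c → VN c → ℂ} {C C' : (Fin (2 * c + 1) → ℤ) → ℂ} (hK : Ker D Φ C C') (hI : INT D.d D.g D.L C')
    {b : VN c →ₗ[ℝ] (Fin (2 * c + 1) → ℝ)} {Y : VN c →ₗ[ℝ] ℝ} (hd : Dec D D.L b Y) {μ : ℂ} (hμ : Mu D C μ) (κ m : ℤ) (p : VN c)
    {ε : ℝ} (hε : 0 < ε) (hε' : ε ≤ 1 / 20) :
    ∃ K T1 : ℝ, 1 ≤ K ∧ ∀ T : ℕ, T1 ≤ (T : ℝ) → ∀ k : ℝ, (T : ℝ) ^ (1 / 2 + ε) ≤ k → k ≤ (T : ℝ) ^ ((c : ℝ) + 1 - ε) →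
      ∀ (j : ℕ) (y : Fin j → ℂ), (∀ i, ‖y i‖ ≤ 1) →
        (∀ w : List (Fin (2 * c + 1)), w.length < T → ‖pdl w (gy D Φ μ κ m p y) 0‖ ≤ Real.exp (-((T : ℝ) ^ ε * k ^ 2))) →
          ∀ s, |Y s| ≤ k / K → ‖gy D Φ μ κ m p y s‖ ≤ Real.exp (K * (1 + nsq s) + K * (1 + (j : ℝ) ^ 2) - k ^ 2 / K) := by
  obtain ⟨A1, hA1, hF⟩ := gy_bound hK hμ κ m p
  obtain ⟨A2, hA2, hext⟩ := extend_bound D D.L hd hK.muls
  set G : ℝ := ∑ j, (D.g j : ℝ) ^ 2 with hG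
  have hG0 : 0 ≤ G := Finset.sum_nonneg fun _ _ => by positivity
  set N : ℝ := (((2 * c + 1 : ℕ) : ℝ) * (D.d : ℝ) ^ 2) with hN
  have hN0 : 0 ≤ N := by positivity
  obtain ⟨C0, T0, hC0, hint⟩ := hI ε (A1 * (1 + N + G)) hε hε' (by positivity)
  have hC0p : 0 < C0 := by linarith
  set K : ℝ := max C0 (max A1 A2) with hKdef
  have hKC : C0 ≤ K := le_max_left _ _
  have hK1 : 1 ≤ K := hC0.trans hKC
  have hKA1 : A1 ≤ K := le_trans (le_max_left _ _) (le_max_right _ _)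
  have hKA2 : A2 ≤ K := le_trans (le_max_right _ _) (le_max_right _ _)
  have hKp : 0 < K := by linarith
  refine ⟨K, max T0 1, hK1, ?_⟩
  intro T hT k hk1 hk2 j y hy hder0 s hs
  have hTT0 : T0 ≤ (T : ℝ) := le_trans (le_max_left _ _) hT
  have hTpos : (0 : ℝ) < (T : ℝ) := by linarith [le_trans (le_max_right T0 1) hT]
  have hk0 : 0 ≤ k := le_trans (Real.rpow_nonneg hTpos.le _) hk1
  have hj2 : 0 ≤ (j : ℝ) ^ 2 := sq_nonneg _
  set W : ℝ := 1 + (j : ℝ) ^ 2 with hW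
  have hW0 : 0 ≤ W := by positivity
  set t : ℝ := Real.exp (-(A1 * W)) with ht
  have ht0 : 0 < t := Real.exp_pos _
  have ht1 : t ≤ 1 := by
    rw [ht]
    exact Real.exp_le_one_iff.2 (by nlinarith)
  have htn : ‖(t : ℂ)‖ = t := by rw [Complex.norm_real, Real.norm_of_nonneg ht0.le]
  have hsec := gy_sec hK hμ κ m p (fun i => (t : ℂ) * y i)
  have hfun : gy D Φ μ κ m p (fun i => (t : ℂ) * y i) = fun s => (t : ℂ) * gy D Φ μ κ m p y s := by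
    funext s
    exact gy_scale D Φ μ κ m p y _ s
  have hgrow : ∀ (b' : Fin (2 * c + 1) → ℝ) (x : ℝ), (∀ j, 0 ≤ b' j ∧ b' j ≤ D.d) → |x| ≤ k →
      ‖gy D Φ μ κ m p (fun i => (t : ℂ) * y i) (pt D.g b' x)‖ ≤ Real.exp (A1 * (1 + N + G) * (1 + x ^ 2)) := by
    intro b' x hb' _
    rw [gy_scale, norm_mul, htn]
    have h1 := hF j y hy (pt D.g b' x)
    have h2 := nsq_pt_le D.g D.d b' hb' x
    calc t * ‖gy D Φ μ κ m p y (pt D.g b' x)‖ ≤ t * Real.exp (A1 * W + A1 * (1 + nsq (pt D.g b' x))) :=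
          mul_le_mul_of_nonneg_left h1 ht0.le
      _ = Real.exp (A1 * (1 + nsq (pt D.g b' x))) := by
          rw [ht, ← Real.exp_add]
          congr 1
          ring
      _ ≤ Real.exp (A1 * (1 + N + G) * (1 + x ^ 2)) := by
          apply Real.exp_le_exp.2
          rw [mul_assoc]
          apply mul_le_mul_of_nonneg_left _ hA1
          have h3 : nsq (pt D.g b' x) ≤ N + G * x ^ 2 := h2
          nlinarith [sq_nonneg x, mul_nonneg hN0 (sq_nonneg x)]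
  have hder : ∀ w : List (Fin (2 * c + 1)), w.length < T →
      ‖pdl w (gy D Φ μ κ m p (fun i => (t : ℂ) * y i)) 0‖ ≤ Real.exp (-((T : ℝ) ^ ε * k ^ 2)) := by
    intro w hw
    rw [hfun, pdl_smul (gy_sec hK hμ κ m p y).diff, norm_mul, htn]
    calc t * ‖pdl w (gy D Φ μ κ m p y) 0‖ ≤ 1 * ‖pdl w (gy D Φ μ κ m p y) 0‖ := mul_le_mul_of_nonneg_right ht1 (norm_nonneg _)
      _ = ‖pdl w (gy D Φ μ κ m p y) 0‖ := one_mul _
      _ ≤ _ := hder0 w hw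
  have hsmall := hint T hTT0 k hk1 hk2 _ hsec hgrow hder
  have hs' : ∀ (b' : Fin (2 * c + 1) → ℝ) (x : ℝ), (∀ j, 0 ≤ b' j ∧ b' j ≤ D.d) → |x| ≤ k / C0 →
      ‖gy D Φ μ κ m p y (pt D.g b' x)‖ ≤ Real.exp (A1 * W - k ^ 2 / C0) := by
    intro b' x hb' hx
    have h1 := hsmall b' x hb' hx
    rw [gy_scale, norm_mul, htn] at h1
    have h2 : ‖gy D Φ μ κ m p y (pt D.g b' x)‖ = Real.exp (A1 * W) * (t * ‖gy D Φ μ κ m p y (pt D.g b' x)‖) := by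
      rw [ht, ← mul_assoc, ← Real.exp_add]
      simp
    rw [h2]
    calc Real.exp (A1 * W) * (t * ‖gy D Φ μ κ m p y (pt D.g b' x)‖) ≤ Real.exp (A1 * W) * Real.exp (-(k ^ 2 / C0)) :=
          mul_le_mul_of_nonneg_left h1 (Real.exp_pos _).le
      _ = Real.exp (A1 * W - k ^ 2 / C0) := by rw [← Real.exp_add]; rfl
  have hfin := hext (gy D Φ μ κ m p y) (gy_sec hK hμ κ m p y) (Real.exp (A1 * W - k ^ 2 / C0)) (k / C0) (Real.exp_pos _).le hs' s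
    (le_trans hs (div_le_div_of_nonneg_left hk0 hC0p hKC))
  refine le_trans hfin ?_
  rw [← Real.exp_add]
  apply Real.exp_le_exp.2
  have h1 : k ^ 2 / K ≤ k ^ 2 / C0 := div_le_div_of_nonneg_left (sq_nonneg k) hC0p hKC
  have h2 : A2 * (1 + nsq s) ≤ K * (1 + nsq s) := mul_le_mul_of_nonneg_right hKA2 (by linarith [nsq_nonneg s])
  have h3 : A1 * W ≤ K * W := mul_le_mul_of_nonneg_right hKA1 hW0
  linarith

end Pool.Agent.LT
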