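import Pool.Agent.Lib.MP_f58a57_nt.LT.C.CDefs

/-!
# MP_f58a57_nt, large transcendence degree, part C (row lt-C-V3)

Fourier coefficients of a finite trigonometric sum.
-/

open Complex Matrix MeasureTheory

noncomputable section

namespace Pool.Agent.LT

variable {c : ℕ}

private lemma V3_aux {d : ℝ} (hd : 0 < d) (n : ℤ) (hn : n ≠ 0) :
    ∫ x in (0 : ℝ)..d, exp ((2 * Real.pi * I * n / d) * (x : ℂ)) = 0 := by
  have hd' : (d : ℂ) ≠ 0 := by exact_mod_cast hd.ne'
  have hn' : (n : ℂ) ≠ 0 := by exact_mod_cast hn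
  have h0 : (2 * Real.pi * I * n / d : ℂ) ≠ 0 := by
    have := Complex.two_pi_I_ne_zero
    exact div_ne_zero (mul_ne_zero this hn') hd'
  rw [integral_exp_mul_complex h0]
  have h1 : (2 * Real.pi * I * n / d : ℂ) * (d : ℂ) = n * (2 * Real.pi * I) := by
    field_simp
  rw [h1, Complex.exp_int_mul_two_pi_mul_I]
  simp

theorem fourier_fin {d : ℝ} (hd : 0 < d) {j : ℕ} (a : Fin j → ℂ) (κ : Fin j → ℤ) (hκ : Function.Injective κ) (i : Fin j) :
    (d : ℂ)⁻¹ * ∫ x in (0 : ℝ)..d, (∑ l, a l * ee (κ l * x / d)) * ee (-(κ i * x / d)) = a i := by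
  have hd' : (d : ℂ) ≠ 0 := by exact_mod_cast hd.ne'
  have h1 : ∀ x : ℝ, (∑ l, a l * ee (κ l * x / d)) * ee (-(κ i * x / d)) =
      ∑ l, a l * exp ((2 * Real.pi * I * ((κ l - κ i : ℤ) : ℂ) / d) * (x : ℂ)) := by
    intro x
    rw [Finset.sum_mul]
    refine Finset.sum_congr rfl fun l _ => ?_
    rw [ee, ee, mul_assoc, ← Complex.exp_add]
    congr 2
    push_cast
    ring
  simp_rw [h1]
  rw [intervalIntegral.integral_finsetSum]
  · rw [Finset.sum_eq_single i]
    · simp only [sub_self, Int.cast_zero, mul_zero, zero_div, zero_mul, Complex.exp_zero, mul_one,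
        intervalIntegral.integral_const, sub_zero, Complex.real_smul]
      field_simp
    · intro l _ hl
      rw [intervalIntegral.integral_const_mul, V3_aux hd _ (sub_ne_zero.mpr (fun h => hl (hκ h))), mul_zero]
    · intro h; exact absurd (Finset.mem_univ i) h
  · intro l _
    apply Continuous.intervalIntegrable
    fun_prop

end Pool.Agent.LT
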