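import Pool.Agent.Lib.MP_f58a57_nt.LT.C.CDefs
import Pool.Agent.Lib.MP_f58a57_nt.LT.C.M7
import Pool.Agent.Lib.MP_f58a57_nt.LT.C.V3

/-!
# MP_f58a57_nt, large transcendence degree, part C (row lt-C-B7)

Extraction of y_i: by hk_gs the integrand is a trigonometric sum in xi.
-/

open Complex Matrix MeasureTheory

noncomputable section

namespace Pool.Agent.LT

variable {c : ℕ}

theorem gy_extract {D : Dat c} {Φ : VN c → VN c → ℂ} {C C' : (Fin (2 * c + 1) → ℤ) → ℂ} (hK : Ker D Φ C C') {μ : ℂ} (hμ : Mu D C μ) (κ m : ℤ) (hm : 1 ≤ m)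
    (p s : VN c) {j : ℕ} (y : Fin j → ℂ) (i : Fin j) :
    y i * hk D Φ μ (κ + (i : ℕ) * m * D.d) (((i : ℕ) : ℂ) • p) s = (D.d : ℂ)⁻¹ * ∫ ξ in (0 : ℝ)..(D.d : ℝ),
      gy D Φ μ κ m p y (s + (ξ : ℂ) • D.gc) * ee (D.nu * ξ ^ 2 / 2 + ξ * (D.v0 ⬝ᵥ s) + μ * ξ) * ee (-(((κ + (i : ℕ) * m * D.d : ℤ) : ℂ) * ξ / D.d)) := by
  have hd : (0 : ℝ) < (D.d : ℝ) := by exact_mod_cast D.hd
  have hinj : Function.Injective (fun l : Fin j => κ + ((l : ℕ) : ℤ) * m * (D.d : ℤ)) := by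
    intro a b hab
    have h1 : ((a : ℕ) : ℤ) * (m * (D.d : ℤ)) = ((b : ℕ) : ℤ) * (m * (D.d : ℤ)) := by
      have : κ + ((a : ℕ) : ℤ) * m * (D.d : ℤ) = κ + ((b : ℕ) : ℤ) * m * (D.d : ℤ) := hab
      linarith
    have h2 : (m * (D.d : ℤ)) ≠ 0 := by
      have : (0 : ℤ) < D.d := by exact_mod_cast D.hd
      positivity
    have h3 := mul_right_cancel₀ h2 h1
    exact Fin.ext (by exact_mod_cast h3)
  have h := fourier_fin hd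
    (fun l : Fin j => y l * hk D Φ μ (κ + (l : ℕ) * m * D.d) (((l : ℕ) : ℂ) • p) s)
    (fun l : Fin j => κ + ((l : ℕ) : ℤ) * m * (D.d : ℤ)) hinj i
  rw [Complex.ofReal_natCast] at h
  rw [← h]
  congr 1
  refine intervalIntegral.integral_congr fun ξ _ => ?_
  congr 1
  unfold gy
  rw [Finset.sum_mul]
  refine Finset.sum_congr rfl fun l _ => ?_
  rw [hk_gs hK hμ]
  have he : ee (-(D.nu * (ξ : ℂ) ^ 2 / 2) - ξ * (D.v0 ⬝ᵥ s) -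
      (μ - ((κ + ((l : ℕ) : ℤ) * m * (D.d : ℤ) : ℤ) : ℂ) / D.d) * ξ) *
      ee (D.nu * ξ ^ 2 / 2 + ξ * (D.v0 ⬝ᵥ s) + μ * ξ) =
      ee (((κ + ((l : ℕ) : ℤ) * m * (D.d : ℤ) : ℤ) : ℂ) * ξ / D.d) := by
    rw [← ee_add]
    congr 1
    ring
  rw [← he]
  ring

end Pool.Agent.LT
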