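import Pool.Agent.Lib.MP_f58a57_nt.LT.C.CDefs

/-!
# MP_f58a57_nt, large transcendence degree, part C (row lt-C-V2)

One variable: Fourier series at 0 of a smooth function of period d (Mathlib: hasSum_fourier_series_apply_of_summable on AddCircle d).
-/

open Complex Matrix MeasureTheory

noncomputable section

namespace Pool.Agent.LT

variable {c : ℕ}

theorem fourier_zero {f : ℂ → ℂ} (hf : Differentiable ℂ f) {d : ℝ} (hd : 0 < d) (hp : ∀ x : ℂ, f (x + d) = f x)
    (hs : Summable (fun κ : ℤ => (d : ℂ)⁻¹ * ∫ x in (0 : ℝ)..d, f x * ee (-(κ * x / d)))) :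
    HasSum (fun κ : ℤ => (d : ℂ)⁻¹ * ∫ x in (0 : ℝ)..d, f x * ee (-(κ * x / d))) (f 0) := by
  have : Fact (0 < d) := ⟨hd⟩
  have hper : Function.Periodic (fun x : ℝ => f (x : ℂ)) d := by
    intro x
    change f ((x + d : ℝ) : ℂ) = f x
    rw [Complex.ofReal_add]
    exact hp x
  have hcont : Continuous (fun x : ℝ => f (x : ℂ)) := hf.continuous.comp Complex.continuous_ofReal
  let F : C(AddCircle d, ℂ) := ⟨hper.lift, continuous_coinduced_dom.mpr hcont⟩
  have hF : ∀ x : ℝ, F (x : AddCircle d) = f x := fun x => rfl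
  have hco : ∀ κ : ℤ, fourierCoeff F κ = (d : ℂ)⁻¹ * ∫ x in (0 : ℝ)..d, f x * ee (-(κ * x / d)) := by
    intro κ
    rw [fourierCoeff_eq_intervalIntegral _ κ 0, zero_add, Complex.real_smul]
    congr 1
    · push_cast
      rw [one_div]
    · apply intervalIntegral.integral_congr
      intro x _
      change (fourier (-κ) (x : AddCircle d)) • F (x : AddCircle d) = f x * ee (-(κ * x / d))
      rw [hF, fourier_coe_apply, smul_eq_mul, mul_comm]
      unfold ee
      congr 2
      push_cast
      ring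
  have hs' : Summable (fourierCoeff F) := by
    have : (fourierCoeff F : ℤ → ℂ) = fun κ : ℤ => (d : ℂ)⁻¹ * ∫ x in (0 : ℝ)..d, f x * ee (-(κ * x / d)) :=
      funext hco
    rw [this]
    exact hs
  have h := has_pointwise_sum_fourier_series_of_summable hs' ((0 : ℝ) : AddCircle d)
  rw [hF, Complex.ofReal_zero] at h
  have he : (fun κ : ℤ => fourierCoeff F κ • (fourier κ) ((0 : ℝ) : AddCircle d)) =
      fun κ : ℤ => (d : ℂ)⁻¹ * ∫ x in (0 : ℝ)..d, f x * ee (-(κ * x / d)) := by
    funext κ
    rw [hco, fourier_coe_apply, Complex.ofReal_zero, mul_zero, zero_div, Complex.exp_zero,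
      smul_eq_mul, mul_one]
  rw [he] at h
  exact h

end Pool.Agent.LT
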