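import Pool.Agent.Lib.MP_f58a57_nt.LT.C.CDefs
import Pool.Agent.Lib.MP_f58a57_nt.LT.C.M4
import Pool.Agent.Lib.MP_f58a57_nt.LT.C.V2

/-!
# MP_f58a57_nt, large transcendence degree, part C (row lt-C-M5)

(C2): Fourier series of x -> fm u s x at x = 0; fm u s 0 = Phi u s.
-/

open Complex Matrix MeasureTheory

noncomputable section

namespace Pool.Agent.LT

variable {c : ℕ}

namespace M5_

/-- a gaussian over the integers is summable -/
theorem summable_gauss (B : ℝ) {c1 : ℝ} (hc : 0 < c1) : Summable (fun κ : ℤ => Real.exp (B - c1 * (κ : ℝ) ^ 2)) := by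
  have h1 : Summable (fun n : ℕ => Real.exp (-c1 * (n : ℝ))) := by
    have : (fun n : ℕ => Real.exp (-c1 * (n : ℝ))) = fun n : ℕ => (Real.exp (-c1)) ^ n := by
      funext n
      rw [← Real.exp_nat_mul]
      ring_nf
    rw [this]
    exact summable_geometric_of_lt_one (Real.exp_pos _).le (by rw [Real.exp_lt_one_iff]; linarith)
  have h2 : Summable (fun n : ℕ => Real.exp (B - c1 * ((n : ℤ) : ℝ) ^ 2)) := by
    refine Summable.of_nonneg_of_le (fun _ => (Real.exp_pos _).le) (fun n => ?_) (h1.mul_left (Real.exp B))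
    rw [← Real.exp_add]
    apply Real.exp_le_exp.mpr
    have h3 : (n : ℝ) ≤ (n : ℝ) ^ 2 := by
      rcases Nat.eq_zero_or_pos n with h | h
      · subst h; simp
      · have : (1 : ℝ) ≤ n := by exact_mod_cast h
        nlinarith
    have h4 : (((n : ℤ) : ℝ)) = (n : ℝ) := by simp
    rw [h4]
    nlinarith
  refine Summable.of_nat_of_neg h2 ?_
  refine h2.congr (fun n => ?_)
  simp

end M5_

theorem hk_sum {D : Dat c} {Φ : VN c → VN c → ℂ} {C C' : (Fin (2 * c + 1) → ℤ) → ℂ} (hK : Ker D Φ C C') {μ : ℂ} (hμ : Mu D C μ) (u s : VN c) :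
    HasSum (fun κ : ℤ => hk D Φ μ κ u s) (Φ u s) := by
  obtain ⟨A, c1, _, hc1, hb⟩ := hk_bound hK hμ
  have hd : (0 : ℝ) < (D.d : ℝ) := by exact_mod_cast D.hd
  have hdiff : Differentiable ℂ (fm D Φ μ u s) := by
    have h1 := fm_diff hK μ
    have h2 : Differentiable ℂ (fun x : ℂ => ((x, u, s) : ℂ × VN c × VN c)) :=
      differentiable_id.prodMk (differentiable_const _)
    exact h1.comp h2
  have hcast : ∀ κ : ℤ, (((D.d : ℝ) : ℂ)⁻¹ * ∫ x in (0 : ℝ)..(D.d : ℝ), fm D Φ μ u s x * ee (-(κ * x / ((D.d : ℝ) : ℂ)))) = hk D Φ μ κ u s := by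
    intro κ
    simp only [hk, Complex.ofReal_natCast]
  have hsum : Summable (fun κ : ℤ => hk D Φ μ κ u s) :=
    Summable.of_norm_bounded (M5_.summable_gauss (A * (1 + nsq u + nsq s)) hc1) (fun κ => hb κ u s)
  have key := fourier_zero hdiff hd (fun x => fm_per hK hμ u s x) (by simpa only [hcast] using hsum)
  have h0 : fm D Φ μ u s 0 = Φ u s := by simp [fm, ee]
  rw [h0] at key
  simpa only [hcast] using key

end Pool.Agent.LT
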