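import Pool.Agent.Lib.MP_f58a57_nt.LT.C.CDefs
import Pool.Agent.Lib.MP_f58a57_nt.LT.C.M5
import Pool.Agent.Lib.MP_f58a57_nt.LT.C.M7

/-!
# MP_f58a57_nt, large transcendence degree, part C (row lt-C-M8)

(C6): some mode does not vanish at (0,0) because the sum is Phi(0,0) = 1; then iterate hk_jump i times: hk (kappa0 + i m d) (i p) (i p') = C5^i ee(i(i-1) p^T L p') hk kappa0 0 0.
-/

open Complex Matrix MeasureTheory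

noncomputable section

namespace Pool.Agent.LT

variable {c : ℕ}

namespace M8_

theorem norm_ee (x : ℂ) : ‖ee x‖ = Real.exp (-(2 * Real.pi * x.im)) := by
  unfold ee
  rw [Complex.norm_exp]
  congr 1
  simp

theorem ee_add (x y : ℂ) : ee (x + y) = ee x * ee y := by
  unfold ee
  rw [← Complex.exp_add]
  congr 1
  ring

theorem hk_iter {D : Dat c} {Φ : VN c → VN c → ℂ} {p p' : VN c} {nn : Fin (2 * c + 1) → ℤ} {C5 : ℂ} {m : ℤ}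
    (hJ : Jump D Φ p p' nn C5 m) (μ : ℂ) (κ : ℤ) (i : ℕ) :
    hk D Φ μ (κ + (i : ℕ) * m * D.d) ((i : ℂ) • p) ((i : ℂ) • p')
      = C5 ^ i * ee ((i : ℂ) * ((i : ℂ) - 1) * (p ⬝ᵥ (D.L *ᵥ p'))) * hk D Φ μ κ 0 0 := by
  induction i with
  | zero =>
    simp [ee]
  | succ i ih =>
    have h1 : (((i + 1 : ℕ) : ℂ)) • p = (i : ℂ) • p + p := by
      push_cast
      rw [add_smul, one_smul]
    have h2 : (((i + 1 : ℕ) : ℂ)) • p' = (i : ℂ) • p' + p' := by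
      push_cast
      rw [add_smul, one_smul]
    rw [h1, h2, hk_jump hJ]
    have h3 : κ + ((i + 1 : ℕ) : ℤ) * m * D.d - m * D.d = κ + (i : ℕ) * m * D.d := by
      push_cast
      ring
    rw [h3, ih, Matrix.mulVec_smul, dotProduct_smul, smul_dotProduct]
    have h4 : ee ((((i + 1 : ℕ) : ℂ)) * ((((i + 1 : ℕ) : ℂ)) - 1) * (p ⬝ᵥ (D.L *ᵥ p')))
        = ee ((i : ℂ) • (p ⬝ᵥ (D.L *ᵥ p')) + (i : ℂ) • (p ⬝ᵥ (D.L *ᵥ p')))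
          * ee ((i : ℂ) * ((i : ℂ) - 1) * (p ⬝ᵥ (D.L *ᵥ p'))) := by
      rw [← ee_add]
      congr 1
      push_cast
      simp only [smul_eq_mul]
      ring
    rw [h4, pow_succ]
    ring

end M8_

open M8_ in
theorem hk_low {D : Dat c} {Φ : VN c → VN c → ℂ} {C C' : (Fin (2 * c + 1) → ℤ) → ℂ} (hK : Ker D Φ C C') {μ : ℂ} (hμ : Mu D C μ)
    {p p' : VN c} {nn : Fin (2 * c + 1) → ℤ} {C5 : ℂ} {m : ℤ} (hJ : Jump D Φ p p' nn C5 m) :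
    ∃ (κ : ℤ) (A : ℝ), 0 ≤ A ∧ ∀ i : ℕ, Real.exp (-(A * (1 + (i : ℝ) ^ 2))) ≤ ‖hk D Φ μ (κ + (i : ℕ) * m * D.d) ((i : ℂ) • p) ((i : ℂ) • p')‖ := by
  have hsum := hk_sum hK hμ 0 0
  rw [hK.one] at hsum
  obtain ⟨κ, hκ⟩ : ∃ κ : ℤ, hk D Φ μ κ 0 0 ≠ 0 := by
    by_contra hcon
    push Not at hcon
    have h0 : (fun κ : ℤ => hk D Φ μ κ 0 0) = fun _ => 0 := by
      funext κ
      exact hcon κ
    rw [h0] at hsum
    exact one_ne_zero (hsum.unique hasSum_zero)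
  refine ⟨κ, |Real.log ‖C5‖| + 2 * Real.pi * |(p ⬝ᵥ (D.L *ᵥ p')).im| + |Real.log ‖hk D Φ μ κ 0 0‖|, by positivity, ?_⟩
  intro i
  rw [hk_iter hJ μ κ i, norm_mul, norm_mul, norm_pow, norm_ee]
  have hC5 : 0 < ‖C5‖ := norm_pos_iff.mpr hJ.ne
  have hh0 : 0 < ‖hk D Φ μ κ 0 0‖ := norm_pos_iff.mpr hκ
  have him : ((i : ℂ) * ((i : ℂ) - 1) * (p ⬝ᵥ (D.L *ᵥ p'))).im = (i : ℝ) * ((i : ℝ) - 1) * (p ⬝ᵥ (D.L *ᵥ p')).im := by
    have : (i : ℂ) * ((i : ℂ) - 1) = (((i : ℝ) * ((i : ℝ) - 1) : ℝ) : ℂ) := by push_cast; ring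
    rw [this, Complex.im_ofReal_mul]
  rw [him]
  have e1 : ‖C5‖ ^ i = Real.exp (i * Real.log ‖C5‖) := by
    rw [mul_comm, Real.exp_mul, Real.exp_log hC5, Real.rpow_natCast]
  have e2 : ‖hk D Φ μ κ 0 0‖ = Real.exp (Real.log ‖hk D Φ μ κ 0 0‖) := (Real.exp_log hh0).symm
  rw [e1]
  rw [show Real.exp (i * Real.log ‖C5‖) * Real.exp (-(2 * Real.pi * ((i : ℝ) * ((i : ℝ) - 1) * (p ⬝ᵥ (D.L *ᵥ p')).im))) * ‖hk D Φ μ κ 0 0‖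
    = Real.exp (i * Real.log ‖C5‖ + -(2 * Real.pi * ((i : ℝ) * ((i : ℝ) - 1) * (p ⬝ᵥ (D.L *ᵥ p')).im)) + Real.log ‖hk D Φ μ κ 0 0‖) by
      rw [Real.exp_add, Real.exp_add, ← e2]]
  apply Real.exp_le_exp.mpr
  have hi : (0 : ℝ) ≤ i := Nat.cast_nonneg i
  have b1 : -(|Real.log ‖C5‖| * (1 + (i : ℝ) ^ 2)) ≤ i * Real.log ‖C5‖ := by
    have h1 := neg_abs_le (Real.log ‖C5‖)
    have h2 : (i : ℝ) ≤ 1 + (i : ℝ) ^ 2 := by nlinarith [sq_nonneg ((i : ℝ) - 1)]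
    have h3 := abs_nonneg (Real.log ‖C5‖)
    nlinarith [mul_le_mul_of_nonneg_left h2 h3, mul_le_mul_of_nonneg_left h1 hi]
  have b2 : -(2 * Real.pi * |(p ⬝ᵥ (D.L *ᵥ p')).im| * (1 + (i : ℝ) ^ 2))
      ≤ -(2 * Real.pi * ((i : ℝ) * ((i : ℝ) - 1) * (p ⬝ᵥ (D.L *ᵥ p')).im)) := by
    have h1 : (i : ℝ) * ((i : ℝ) - 1) * (p ⬝ᵥ (D.L *ᵥ p')).im ≤ |(p ⬝ᵥ (D.L *ᵥ p')).im| * (1 + (i : ℝ) ^ 2) := by
      refine (le_abs_self _).trans ?_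
      rw [abs_mul, mul_comm]
      refine mul_le_mul_of_nonneg_left ?_ (abs_nonneg _)
      rw [abs_le]
      constructor
      · nlinarith [sq_nonneg ((i : ℝ) - 1)]
      · nlinarith
    have h2 := Real.pi_pos
    nlinarith [mul_le_mul_of_nonneg_left h1 (by positivity : (0 : ℝ) ≤ 2 * Real.pi)]
  have b3 : -(|Real.log ‖hk D Φ μ κ 0 0‖| * (1 + (i : ℝ) ^ 2)) ≤ Real.log ‖hk D Φ μ κ 0 0‖ := by
    have h1 := neg_abs_le (Real.log ‖hk D Φ μ κ 0 0‖)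
    have h3 := abs_nonneg (Real.log ‖hk D Φ μ κ 0 0‖)
    nlinarith [mul_nonneg h3 (sq_nonneg (i : ℝ))]
  linarith

end Pool.Agent.LT
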