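import Pool.Agent.Lib.MP_f58a57_nt.LT.C.CDefs
import Pool.Agent.Lib.MP_f58a57_nt.LT.C.B6
import Pool.Agent.Lib.MP_f58a57_nt.LT.C.B7
import Pool.Agent.Lib.MP_f58a57_nt.LT.C.M8

/-!
# MP_f58a57_nt, large transcendence degree, part C (row lt-C-B8)

Fourth step of C.4: y_i is small: gy_extract at s = i p' (Y(i p' + xi g) = i Y(p') <= k/K), gy_small and hk_low.
-/

open Complex Matrix MeasureTheory

noncomputable section

namespace Pool.Agent.LT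

variable {c : ℕ}

namespace B8_

theorem nsq_nonneg {n : ℕ} (z : Fin n → ℂ) : 0 ≤ nsq z := Finset.sum_nonneg fun i _ => sq_nonneg _

theorem nsq_add_le {n : ℕ} (z w : Fin n → ℂ) : nsq (z + w) ≤ 2 * nsq z + 2 * nsq w := by
  unfold nsq
  rw [Finset.mul_sum, Finset.mul_sum, ← Finset.sum_add_distrib]
  refine Finset.sum_le_sum fun i _ => ?_
  have h1 : ‖(z + w) i‖ ≤ ‖z i‖ + ‖w i‖ := norm_add_le _ _
  have h2 : ‖(z + w) i‖ ^ 2 ≤ (‖z i‖ + ‖w i‖) ^ 2 := pow_le_pow_left₀ (norm_nonneg _) h1 2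
  nlinarith [sq_nonneg (‖z i‖ - ‖w i‖)]

theorem nsq_smul {n : ℕ} (a : ℂ) (z : Fin n → ℂ) : nsq (a • z) = ‖a‖ ^ 2 * nsq z := by
  unfold nsq
  rw [Finset.mul_sum]
  refine Finset.sum_congr rfl fun i _ => ?_
  rw [Pi.smul_apply, smul_eq_mul, norm_mul, mul_pow]

theorem norm_ee' (x : ℂ) : ‖ee x‖ = Real.exp (-(2 * Real.pi * x.im)) := by
  unfold ee
  rw [Complex.norm_exp]
  congr 1
  simp

theorem norm_ee_le (x : ℂ) : ‖ee x‖ ≤ Real.exp (2 * Real.pi * ‖x‖) := by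
  rw [norm_ee']
  apply Real.exp_le_exp.mpr
  have h1 : |x.im| ≤ ‖x‖ := Complex.abs_im_le_norm x
  have h2 := neg_abs_le x.im
  have hp := Real.pi_pos
  nlinarith

theorem norm_ee_real (r : ℝ) : ‖ee (r : ℂ)‖ = 1 := by
  rw [norm_ee']; simp

end B8_

open B8_ in
theorem y_small {D : Dat c} {Φ : VN c → VN c → ℂ} {C C' : (Fin (2 * c + 1) → ℤ) → ℂ} (hK : Ker D Φ C C') (hI : INT D.d D.g D.L C')
    {μ : ℂ} (hμ : Mu D C μ) {p p' : VN c} {nn : Fin (2 * c + 1) → ℤ} {C5 : ℂ} {m : ℤ} (hJ : Jump D Φ p p' nn C5 m) {ε : ℝ} (hε : 0 < ε) (hε' : ε ≤ 1 / 20) :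
    ∃ (κ : ℤ) (K T1 : ℝ), 1 ≤ K ∧ ∀ T : ℕ, T1 ≤ (T : ℝ) → ∀ k : ℝ, (T : ℝ) ^ (1 / 2 + ε) ≤ k → k ≤ (T : ℝ) ^ ((c : ℝ) + 1 - ε) →
      ∀ (j : ℕ) (y : Fin j → ℂ), K * j ≤ k → (∀ i, ‖y i‖ ≤ 1) →
        (∀ w : List (Fin (2 * c + 1)), w.length < T → ‖pdl w (gy D Φ μ κ m p y) 0‖ ≤ Real.exp (-((T : ℝ) ^ ε * k ^ 2))) →
          ∀ i, ‖y i‖ ≤ Real.exp (K * (1 + (j : ℝ) ^ 2) - k ^ 2 / K) := by
  obtain ⟨κ, A, hA, hlow⟩ := hk_low hK hμ hJ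
  obtain ⟨b, Y, hd⟩ := exists_dec D D.L (Or.inr rfl)
  obtain ⟨K0, T10, hK0, hgy⟩ := gy_small hK hI hd hμ κ m p hε hε'
  set d : ℝ := (D.d : ℝ) with hdef
  have hdpos : 0 < d := by rw [hdef]; exact_mod_cast D.hd
  set B : ℝ := 2 * nsq p' + 2 * (d ^ 2 * nsq D.gc) with hBdef
  have hB : 0 ≤ B := by
    have h1 := nsq_nonneg p'
    have h2 := nsq_nonneg D.gc
    positivity
  set B2 : ℝ := 2 * Real.pi * (‖D.nu‖ * d ^ 2 / 2 + d * ‖D.v0 ⬝ᵥ p'‖ + ‖μ‖ * d) with hB2def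
  have hB2 : 0 ≤ B2 := by
    have hp := Real.pi_pos
    positivity
  set K : ℝ := K0 * (1 + |Y p'|) + K0 * (1 + B) + K0 + B2 * 2 + A with hKdef
  have hY0 : 0 ≤ |Y p'| := abs_nonneg _
  have hKK0 : K0 ≤ K := by
    have : 0 ≤ K0 * |Y p'| := by positivity
    have : 0 ≤ K0 * (1 + B) := by positivity
    rw [hKdef]; nlinarith
  have hK1 : 1 ≤ K := hK0.trans hKK0
  have hKY : K0 * |Y p'| ≤ K := by
    have : 0 ≤ K0 * (1 + B) := by positivity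
    rw [hKdef]; nlinarith
  refine ⟨κ, K, T10, hK1, fun T hT k hk1 hk2 j y hj hy hpd i => ?_⟩
  have hg := hgy T hT k hk1 hk2 j y hy hpd
  have hk0 : 0 ≤ k := le_trans (by positivity) hj
  have hij : ((i : ℕ) : ℝ) ≤ j := by exact_mod_cast i.isLt.le
  have hi0 : (0 : ℝ) ≤ ((i : ℕ) : ℝ) := Nat.cast_nonneg _
  have hj0 : (0 : ℝ) ≤ (j : ℝ) := Nat.cast_nonneg _
  have hi2 : ((i : ℕ) : ℝ) ^ 2 ≤ (j : ℝ) ^ 2 := pow_le_pow_left₀ hi0 hij 2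
  have hi1 : ((i : ℕ) : ℝ) ≤ 1 + (j : ℝ) ^ 2 := by nlinarith [sq_nonneg ((j : ℝ) - 1)]
  -- the extraction formula
  have hex := gy_extract hK hμ κ m hJ.pos p ((((i : ℕ) : ℂ)) • p') y i
  have hYs : ∀ ξ : ℝ, Y ((((i : ℕ) : ℂ)) • p' + (ξ : ℂ) • D.gc) = ((i : ℕ) : ℝ) * Y p' := by
    intro ξ
    rw [map_add, hd.Y_g, add_zero]
    have : (((i : ℕ) : ℂ)) • p' = (((i : ℕ) : ℝ)) • p' := by
      ext l; simp
    rw [this, map_smul, smul_eq_mul]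
  have hE : ∀ ξ ∈ Set.uIoc (0 : ℝ) (D.d : ℝ), ‖gy D Φ μ κ m p y ((((i : ℕ) : ℂ)) • p' + (ξ : ℂ) • D.gc) *
      ee (D.nu * ξ ^ 2 / 2 + ξ * (D.v0 ⬝ᵥ ((((i : ℕ) : ℂ)) • p')) + μ * ξ) * ee (-(((κ + (i : ℕ) * m * D.d : ℤ) : ℂ) * ξ / D.d))‖ ≤
      Real.exp (K0 * (1 + B * (1 + (j : ℝ) ^ 2)) + K0 * (1 + (j : ℝ) ^ 2) - k ^ 2 / K0) * Real.exp (B2 * (2 * (1 + (j : ℝ) ^ 2))) := by
    intro ξ hξ
    rw [Set.uIoc_of_le hdpos.le] at hξ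
    have hξ0 : 0 ≤ ξ := hξ.1.le
    have hξd : ξ ≤ d := hξ.2
    rw [norm_mul, norm_mul]
    have e3 : ‖ee (-(((κ + (i : ℕ) * m * D.d : ℤ) : ℂ) * ξ / D.d))‖ = 1 := by
      have : (-(((κ + (i : ℕ) * m * D.d : ℤ) : ℂ) * ξ / D.d)) = ((-(((κ + (i : ℕ) * m * D.d : ℤ) : ℝ) * ξ / D.d) : ℝ) : ℂ) := by
        push_cast; ring
      rw [this, norm_ee_real]
    rw [e3, mul_one]
    refine mul_le_mul ?_ ?_ (norm_nonneg _) (Real.exp_pos _).le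
    · refine (hg _ ?_).trans (Real.exp_le_exp.mpr ?_)
      · rw [hYs, abs_mul, abs_of_nonneg hi0, le_div_iff₀ (by linarith)]
        calc ((i : ℕ) : ℝ) * |Y p'| * K0 = ((i : ℕ) : ℝ) * (K0 * |Y p'|) := by ring
          _ ≤ (j : ℝ) * K := mul_le_mul hij hKY (by positivity) hj0
          _ = K * j := by ring
          _ ≤ k := hj
      · have h1 : nsq ((((i : ℕ) : ℂ)) • p' + (ξ : ℂ) • D.gc) ≤ B * (1 + (j : ℝ) ^ 2) := by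
          refine (nsq_add_le _ _).trans ?_
          rw [nsq_smul, nsq_smul]
          have e1 : ‖(((i : ℕ) : ℂ))‖ = ((i : ℕ) : ℝ) := by simp
          have e2 : ‖(ξ : ℂ)‖ = ξ := by rw [Complex.norm_real, Real.norm_of_nonneg hξ0]
          rw [e1, e2]
          have h2 : ξ ^ 2 ≤ d ^ 2 := pow_le_pow_left₀ hξ0 hξd 2
          have n1 := nsq_nonneg p'
          have n2 := nsq_nonneg D.gc
          have h3 : ξ ^ 2 * nsq D.gc ≤ d ^ 2 * nsq D.gc := mul_le_mul_of_nonneg_right h2 n2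
          have h4 : ((i : ℕ) : ℝ) ^ 2 * nsq p' ≤ (j : ℝ) ^ 2 * nsq p' := mul_le_mul_of_nonneg_right hi2 n1
          have h5 : 0 ≤ (j : ℝ) ^ 2 * (d ^ 2 * nsq D.gc) := by positivity
          rw [hBdef]
          nlinarith
        have hK00 : 0 ≤ K0 := by linarith
        have := mul_le_mul_of_nonneg_left h1 hK00
        linarith
    · refine (norm_ee_le _).trans (Real.exp_le_exp.mpr ?_)
      have hn : ‖D.nu * (ξ : ℂ) ^ 2 / 2 + ξ * (D.v0 ⬝ᵥ ((((i : ℕ) : ℂ)) • p')) + μ * ξ‖ ≤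
          ‖D.nu‖ * d ^ 2 / 2 + d * (((i : ℕ) : ℝ) * ‖D.v0 ⬝ᵥ p'‖) + ‖μ‖ * d := by
        refine (norm_add_le _ _).trans (add_le_add ((norm_add_le _ _).trans (add_le_add ?_ ?_)) ?_)
        · rw [norm_div, norm_mul, norm_pow, Complex.norm_real, Real.norm_of_nonneg hξ0]
          have h2 : ξ ^ 2 ≤ d ^ 2 := pow_le_pow_left₀ hξ0 hξd 2
          have : ‖(2 : ℂ)‖ = 2 := by simp
          rw [this]
          have := mul_le_mul_of_nonneg_left h2 (norm_nonneg D.nu)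
          linarith
        · rw [norm_mul, Complex.norm_real, Real.norm_of_nonneg hξ0, dotProduct_smul, smul_eq_mul, norm_mul]
          have : ‖(((i : ℕ) : ℂ))‖ = ((i : ℕ) : ℝ) := by simp
          rw [this]
          exact mul_le_mul_of_nonneg_right hξd (by positivity)
        · rw [norm_mul, Complex.norm_real, Real.norm_of_nonneg hξ0]
          exact mul_le_mul_of_nonneg_left hξd (norm_nonneg _)
      have hp := Real.pi_pos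
      refine (mul_le_mul_of_nonneg_left hn (by positivity)).trans ?_
      rw [hB2def]
      have a1 : 0 ≤ ‖D.nu‖ * d ^ 2 / 2 := by positivity
      have a2 : 0 ≤ d * ‖D.v0 ⬝ᵥ p'‖ := by positivity
      have a3 : 0 ≤ ‖μ‖ * d := by positivity
      have hj2 : 0 ≤ (j : ℝ) ^ 2 := by positivity
      have b2 : d * (((i : ℕ) : ℝ) * ‖D.v0 ⬝ᵥ p'‖) ≤ (d * ‖D.v0 ⬝ᵥ p'‖) * (2 * (1 + (j : ℝ) ^ 2)) := by
        have := mul_le_mul_of_nonneg_left hi1 a2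
        nlinarith [mul_nonneg a2 hj2]
      have b1 : ‖D.nu‖ * d ^ 2 / 2 ≤ (‖D.nu‖ * d ^ 2 / 2) * (2 * (1 + (j : ℝ) ^ 2)) := by nlinarith [mul_nonneg a1 hj2]
      have b3 : ‖μ‖ * d ≤ (‖μ‖ * d) * (2 * (1 + (j : ℝ) ^ 2)) := by nlinarith [mul_nonneg a3 hj2]
      calc 2 * Real.pi * (‖D.nu‖ * d ^ 2 / 2 + d * (((i : ℕ) : ℝ) * ‖D.v0 ⬝ᵥ p'‖) + ‖μ‖ * d)
          ≤ 2 * Real.pi * ((‖D.nu‖ * d ^ 2 / 2) * (2 * (1 + (j : ℝ) ^ 2)) + (d * ‖D.v0 ⬝ᵥ p'‖) * (2 * (1 + (j : ℝ) ^ 2)) +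
            (‖μ‖ * d) * (2 * (1 + (j : ℝ) ^ 2))) := mul_le_mul_of_nonneg_left (by linarith) (by positivity)
        _ = 2 * Real.pi * (‖D.nu‖ * d ^ 2 / 2 + d * ‖D.v0 ⬝ᵥ p'‖ + ‖μ‖ * d) * (2 * (1 + (j : ℝ) ^ 2)) := by ring
  have hint := intervalIntegral.norm_integral_le_of_norm_le_const hE
  have hnorm := congrArg norm hex
  rw [norm_mul, norm_mul, norm_inv] at hnorm
  have hdn : ‖(D.d : ℂ)‖ = d := by rw [hdef]; simp
  rw [hdn] at hnorm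
  rw [sub_zero, abs_of_nonneg hdpos.le] at hint
  set E : ℝ := K0 * (1 + B * (1 + (j : ℝ) ^ 2)) + K0 * (1 + (j : ℝ) ^ 2) - k ^ 2 / K0 + B2 * (2 * (1 + (j : ℝ) ^ 2)) with hEdef
  have h1 : ‖y i‖ * ‖hk D Φ μ (κ + (i : ℕ) * m * D.d) (((i : ℕ) : ℂ) • p) (((i : ℕ) : ℂ) • p')‖ ≤ Real.exp E := by
    rw [hnorm, hEdef, Real.exp_add, inv_mul_le_iff₀ hdpos]
    calc _ ≤ _ := hint
      _ = _ := by ring
  have h2 := hlow i
  have h3 : ‖y i‖ * Real.exp (-(A * (1 + ((i : ℕ) : ℝ) ^ 2))) ≤ Real.exp E :=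
    (mul_le_mul_of_nonneg_left h2 (norm_nonneg _)).trans h1
  have h4 : ‖y i‖ ≤ Real.exp (E + A * (1 + ((i : ℕ) : ℝ) ^ 2)) := by
    rw [Real.exp_add]
    have h5 : Real.exp (-(A * (1 + ((i : ℕ) : ℝ) ^ 2))) * Real.exp (A * (1 + ((i : ℕ) : ℝ) ^ 2)) = 1 := by
      rw [← Real.exp_add]; simp
    calc ‖y i‖ = ‖y i‖ * Real.exp (-(A * (1 + ((i : ℕ) : ℝ) ^ 2))) * Real.exp (A * (1 + ((i : ℕ) : ℝ) ^ 2)) := by
          rw [mul_assoc, h5, mul_one]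
      _ ≤ _ := mul_le_mul_of_nonneg_right h3 (Real.exp_pos _).le
  refine h4.trans (Real.exp_le_exp.mpr ?_)
  have hJ2 : 0 ≤ (j : ℝ) ^ 2 := by positivity
  have hk2' : k ^ 2 / K ≤ k ^ 2 / K0 := div_le_div_of_nonneg_left (by positivity) (by linarith) hKK0
  have hAi : A * (1 + ((i : ℕ) : ℝ) ^ 2) ≤ A * (1 + (j : ℝ) ^ 2) := mul_le_mul_of_nonneg_left (by linarith) hA
  have hK00 : 0 ≤ K0 := by linarith
  have c1 : K0 * (1 + B * (1 + (j : ℝ) ^ 2)) ≤ K0 * (1 + B) * (1 + (j : ℝ) ^ 2) := by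
    have : 0 ≤ K0 * (j : ℝ) ^ 2 := by positivity
    nlinarith
  have c2 : 0 ≤ K0 * (1 + |Y p'|) * (1 + (j : ℝ) ^ 2) := by positivity
  rw [hEdef, hKdef] at *
  nlinarith

end Pool.Agent.LT
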