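import Pool.Agent.Lib.MP_f58a57_nt.LT.C.CDefs

/-!
# MP_f58a57_nt, large transcendence degree, part C (row lt-C-B9)

Real analysis: the parameters of C.4.
-/

open Complex Matrix MeasureTheory

noncomputable section

namespace Pool.Agent.LT

variable {c : ℕ}

theorem params (c : ℕ) {ε K : ℝ} (hε : 0 < ε) (hε' : ε ≤ 1 / 20) (hK : 1 ≤ K) : ∃ T0 : ℕ, 2 ≤ T0 ∧ ∀ T : ℕ, T0 ≤ T → ∀ j : ℕ, 1 ≤ j →
    (j : ℝ) ≤ (T : ℝ) ^ ((c : ℝ) + 1 - 4 * ε) → ∀ k k' : ℝ, k' = max (2 * K * j) ((T : ℝ) ^ (1 / 2 + ε)) → k = (T : ℝ) ^ ε * k' →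
      ((T : ℝ) ^ (1 / 2 + ε) ≤ k' ∧ k' ≤ (T : ℝ) ^ ((c : ℝ) + 1 - ε)) ∧ ((T : ℝ) ^ (1 / 2 + ε) ≤ k ∧ k ≤ (T : ℝ) ^ ((c : ℝ) + 1 - ε)) ∧
        K * j ≤ k ∧ K * j ≤ k' ∧ Real.exp (-(k ^ 2 / K)) ≤ Real.exp (-((T : ℝ) ^ ε * k' ^ 2)) ∧
          Real.exp (K * (1 + (j : ℝ) ^ 2) - k' ^ 2 / K) < 1 ∧ 0 ≤ (T : ℝ) ^ (6 * ε) * ((j : ℝ) ^ 2 + T) ∧
            (Real.exp (-((T : ℝ) ^ ε * k ^ 2)))⁻¹ ≤ Real.exp ((T : ℝ) ^ (6 * ε) * ((j : ℝ) ^ 2 + T)) := by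
  have hten : Filter.Tendsto (fun n : ℕ => ((n : ℝ)) ^ ε) Filter.atTop Filter.atTop :=
    (tendsto_rpow_atTop hε).comp tendsto_natCast_atTop_atTop
  obtain ⟨N, hN⟩ := Filter.eventually_atTop.1 (hten.eventually_ge_atTop (4 * K ^ 2))
  refine ⟨max N 2, le_max_right _ _, fun T hT j hj hjT k k' hk' hk => ?_⟩
  have hTN : N ≤ T := le_trans (le_max_left _ _) hT
  have hT2 : 2 ≤ T := le_trans (le_max_right _ _) hT
  have hP : 4 * K ^ 2 ≤ (T : ℝ) ^ ε := hN T hTN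
  have ht1 : (1 : ℝ) ≤ T := by exact_mod_cast (by omega : 1 ≤ T)
  have ht0 : (0 : ℝ) < T := by linarith
  set t : ℝ := (T : ℝ) with ht
  have hK0 : 0 < K := by linarith
  have hK2 : K ≤ K ^ 2 := by nlinarith
  have hj1 : (1 : ℝ) ≤ j := by exact_mod_cast hj
  set P : ℝ := t ^ ε with hPdef
  have hP1 : 1 ≤ P := by nlinarith
  have hP0 : 0 < P := by linarith
  have hPK : K ≤ P := by nlinarith
  have hP2K : 2 * K ≤ P := by nlinarith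
  have hc0 : (0 : ℝ) ≤ c := Nat.cast_nonneg c
  -- powers of `P`
  have hP2 : t ^ (2 * ε) = P ^ 2 := by
    rw [hPdef, ← Real.rpow_natCast, ← Real.rpow_mul ht0.le]; congr 1; push_cast; ring
  have hP3 : t ^ (3 * ε) = P ^ 3 := by
    rw [hPdef, ← Real.rpow_natCast, ← Real.rpow_mul ht0.le]; congr 1; push_cast; ring
  have hP6 : t ^ (6 * ε) = P ^ 6 := by
    rw [hPdef, ← Real.rpow_natCast, ← Real.rpow_mul ht0.le]; congr 1; push_cast; ring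
  have hPP2 : P ≤ P ^ 2 := by nlinarith
  have hPP3 : P ^ 2 ≤ P ^ 3 := by
    have := mul_le_mul_of_nonneg_right hP1 (sq_nonneg P)
    nlinarith
  set S : ℝ := t ^ (1 / 2 + ε) with hS
  have hS0 : 0 < S := Real.rpow_pos_of_pos ht0 _
  set Q : ℝ := t ^ ((c : ℝ) + 1 - 4 * ε) with hQ
  have hQ0 : 0 < Q := Real.rpow_pos_of_pos ht0 _
  have hR : t ^ ((c : ℝ) + 1 - ε) = Q * P ^ 3 := by
    rw [hQ, ← hP3, ← Real.rpow_add ht0]; congr 1; ring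
  have hk'0 : 0 < k' := by rw [hk']; exact lt_of_lt_of_le hS0 (le_max_right _ _)
  have hSk' : S ≤ k' := by rw [hk']; exact le_max_right _ _
  have hjk' : 2 * K * j ≤ k' := by rw [hk']; exact le_max_left _ _
  -- upper bound for `k`
  have hPS : P * S ≤ t ^ ((c : ℝ) + 1 - ε) := by
    rw [hPdef, hS, ← Real.rpow_add ht0]
    apply Real.rpow_le_rpow_of_exponent_le ht1
    linarith
  have hkR : k ≤ t ^ ((c : ℝ) + 1 - ε) := by
    rw [hk, hk']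
    rcases le_total (2 * K * (j : ℝ)) S with h | h
    · rw [max_eq_right h]; exact hPS
    · rw [max_eq_left h, hR]
      have h1 : 2 * K * (j : ℝ) ≤ P * Q := mul_le_mul hP2K hjT (by linarith) hP0.le
      have h2 : P * (2 * K * (j : ℝ)) ≤ P * (P * Q) := mul_le_mul_of_nonneg_left h1 hP0.le
      have h3 : P ^ 2 * Q ≤ P ^ 3 * Q := mul_le_mul_of_nonneg_right hPP3 hQ0.le
      nlinarith
  have hk'k : k' ≤ k := by rw [hk]; nlinarith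
  have hKj : K * j ≤ k' := by nlinarith
  refine ⟨⟨hSk', hk'k.trans hkR⟩, ⟨hSk'.trans hk'k, hkR⟩, hKj.trans hk'k, hKj, ?_, ?_, ?_, ?_⟩
  · rw [Real.exp_le_exp, neg_le_neg_iff, hk, le_div_iff₀ hK0]
    have h1 : (P * k' ^ 2) * K ≤ (P * k' ^ 2) * P := mul_le_mul_of_nonneg_left hPK (by positivity)
    nlinarith
  · rw [Real.exp_lt_one_iff, sub_neg, lt_div_iff₀ hK0]
    have h1 : (2 * K * (j : ℝ)) ^ 2 ≤ k' ^ 2 := pow_le_pow_left₀ (by positivity) hjk' 2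
    have h2 : (1 : ℝ) ≤ (j : ℝ) ^ 2 := by nlinarith
    have h3 : 0 < K ^ 2 * (j : ℝ) ^ 2 := by positivity
    have h4 : K ^ 2 * 1 ≤ K ^ 2 * (j : ℝ) ^ 2 := mul_le_mul_of_nonneg_left h2 (by positivity)
    nlinarith
  · positivity
  · rw [← Real.exp_neg, neg_neg, Real.exp_le_exp, hP6, hk]
    have hS2 : S ^ 2 = P ^ 2 * t := by
      rw [hS, ← hP2, ← Real.rpow_natCast, ← Real.rpow_mul ht0.le]
      conv_rhs => rw [show t ^ (2 * ε) * t = t ^ (2 * ε) * t ^ (1 : ℝ) by rw [Real.rpow_one]]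
      rw [← Real.rpow_add ht0]; congr 1; push_cast; ring
    have hk'2 : k' ^ 2 ≤ P ^ 3 * ((j : ℝ) ^ 2 + t) := by
      rw [hk']
      rcases le_total (2 * K * (j : ℝ)) S with h | h
      · rw [max_eq_right h, hS2]
        have h1 : P ^ 2 * t ≤ P ^ 3 * t := mul_le_mul_of_nonneg_right hPP3 ht0.le
        have h2 : 0 ≤ P ^ 3 * (j : ℝ) ^ 2 := by positivity
        nlinarith
      · rw [max_eq_left h]
        have h1 : 4 * K ^ 2 ≤ P ^ 3 := hP.trans (hPP2.trans hPP3)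
        have h2 : 4 * K ^ 2 * (j : ℝ) ^ 2 ≤ P ^ 3 * (j : ℝ) ^ 2 := mul_le_mul_of_nonneg_right h1 (sq_nonneg _)
        have h3 : 0 ≤ P ^ 3 * t := by positivity
        nlinarith
    have h5 : P ^ 3 * k' ^ 2 ≤ P ^ 3 * (P ^ 3 * ((j : ℝ) ^ 2 + t)) := mul_le_mul_of_nonneg_left hk'2 (by positivity)
    nlinarith

end Pool.Agent.LT
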