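import Pool.Agent.Lib.MP_f58a57_nt.LT.C.CDefs

/-!
# MP_f58a57_nt, large transcendence degree, part C (row lt-C-La2)

Linear algebra: at least j eigenvalues of B* B are > s^2 (otherwise X := span of the eigenvectors with eigenvalue <= s^2 has codimension < j and norm(B q) <= s norm(q) on X); V := j orthonormal eigenvectors with eigenvalue lam_i > s^2, U := diag(1/lam) V* B*; the entries of U are at most lam_i^(-1) norm(B v_i) = lam_i^(-1/2).
-/

open Complex Matrix MeasureTheory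

noncomputable section

namespace Pool.Agent.LT

variable {c : ℕ}

namespace La2_

theorem star_dot_self {ι : Type} [Fintype ι] (w : ι → ℂ) :
    star w ⬝ᵥ w = ((∑ a, ‖w a‖ ^ 2 : ℝ) : ℂ) := by
  rw [dotProduct, Complex.ofReal_sum]
  refine Finset.sum_congr rfl fun a _ => ?_
  rw [Pi.star_apply, Complex.star_def, Complex.conj_mul', Complex.ofReal_pow]

theorem star_dot_mulVec {ι κ : Type} [Fintype ι] [Fintype κ] (B : Matrix ι κ ℂ) (x y : κ → ℂ) :
    star (B *ᵥ x) ⬝ᵥ (B *ᵥ y) = star x ⬝ᵥ ((Bᴴ * B) *ᵥ y) := by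
  rw [star_mulVec, ← dotProduct_mulVec, mulVec_mulVec]

/-- spectral data -/
theorem spec {ι κ : Type} [Fintype ι] [Fintype κ] [DecidableEq κ] (B : Matrix ι κ ℂ) :
    ∃ (lam : κ → ℝ) (v : κ → κ → ℂ), LinearIndependent ℂ v ∧
      (∀ k l, star (v k) ⬝ᵥ v l = if k = l then 1 else 0) ∧
      ∀ k, (Bᴴ * B) *ᵥ v k = (lam k : ℂ) • v k := by
  have hA : (Bᴴ * B).IsHermitian := isHermitian_conjTranspose_mul_self B
  refine ⟨hA.eigenvalues, fun k => WithLp.ofLp (hA.eigenvectorBasis k), ?_, ?_, ?_⟩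
  · have h1 := hA.eigenvectorBasis.toBasis.linearIndependent
    have h2 := h1.map' (WithLp.linearEquiv 2 ℂ (κ → ℂ)).toLinearMap
      (LinearEquiv.ker _)
    have h3 : (fun k => WithLp.ofLp (hA.eigenvectorBasis k)) =
        ((WithLp.linearEquiv 2 ℂ (κ → ℂ)).toLinearMap ∘ ⇑hA.eigenvectorBasis.toBasis) := by
      funext k
      simp
    rw [h3]
    exact h2
  · intro k l
    have h1 := orthonormal_iff_ite.mp hA.eigenvectorBasis.orthonormal k l
    rw [EuclideanSpace.inner_eq_star_dotProduct] at h1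
    rw [dotProduct_comm]
    exact h1
  · intro k
    exact hA.mulVec_eigenvectorBasis k

end La2_

open La2_ in
theorem exists_UV {ι κ : Type} [Fintype ι] [Fintype κ] (B : Matrix ι κ ℂ) {s : ℝ} (hs : 0 < s) (j : ℕ)
    (h : ∀ X : Submodule ℂ (κ → ℂ), Fintype.card κ < Module.finrank ℂ X + j →
      ∃ q ∈ X, s * Real.sqrt (∑ b, ‖q b‖ ^ 2) < Real.sqrt (∑ a, ‖(B *ᵥ q) a‖ ^ 2)) :
    ∃ (U : Matrix (Fin j) ι ℂ) (V : Matrix κ (Fin j) ℂ), (∀ i a, ‖U i a‖ ≤ s⁻¹) ∧ (∀ b i, ‖V b i‖ ≤ 1) ∧ U * B * V = 1 := by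
  classical
  obtain ⟨lam, v, hli, hon, heig⟩ := spec B
  let I : Finset κ := Finset.univ.filter fun k => s ^ 2 < lam k
  have hcard : j ≤ I.card := by
    by_contra hlt
    rw [not_le] at hlt
    let w : {k : κ // k ∉ I} → κ → ℂ := fun k => v k.1
    have hw : LinearIndependent ℂ w := hli.comp _ Subtype.val_injective
    have hfr : Module.finrank ℂ (Submodule.span ℂ (Set.range w)) = Fintype.card κ - I.card := by
      rw [finrank_span_eq_card hw, Fintype.card_subtype_compl]
      simp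
    have hle : I.card ≤ Fintype.card κ := Finset.card_le_univ I
    obtain ⟨q, hq, hlt2⟩ := h (Submodule.span ℂ (Set.range w)) (by rw [hfr]; omega)
    obtain ⟨c, rfl⟩ := (Submodule.mem_span_range_iff_exists_fun ℂ).mp hq
    have e1 : star (∑ k, c k • w k) ⬝ᵥ (∑ k, c k • w k) = ((∑ k, ‖c k‖ ^ 2 : ℝ) : ℂ) := by
      rw [star_sum, sum_dotProduct, Complex.ofReal_sum]
      refine Finset.sum_congr rfl fun k _ => ?_
      rw [dotProduct_sum, Finset.sum_eq_single k]
      · rw [star_smul, smul_dotProduct, dotProduct_smul, hon, if_pos rfl, smul_eq_mul, smul_eq_mul,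
          mul_one, Complex.star_def, Complex.conj_mul', Complex.ofReal_pow]
      · intro l _ hl
        rw [star_smul, smul_dotProduct, dotProduct_smul, hon, if_neg (fun h => hl (Subtype.ext h).symm),
          smul_zero, smul_zero]
      · intro h
        exact absurd (Finset.mem_univ _) h
    have e2 : star (B *ᵥ ∑ k, c k • w k) ⬝ᵥ (B *ᵥ ∑ k, c k • w k) =
        ((∑ k, lam k.1 * ‖c k‖ ^ 2 : ℝ) : ℂ) := by
      have e3 : (Bᴴ * B) *ᵥ (∑ k, c k • w k) = ∑ k, (c k * lam k.1) • w k := by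
        rw [mulVec_sum]
        refine Finset.sum_congr rfl fun k _ => ?_
        rw [mulVec_smul, heig k.1, smul_smul]
      rw [star_dot_mulVec, e3, star_sum, sum_dotProduct, Complex.ofReal_sum]
      refine Finset.sum_congr rfl fun k _ => ?_
      rw [dotProduct_sum, Finset.sum_eq_single k]
      · rw [star_smul, smul_dotProduct, dotProduct_smul, hon, if_pos rfl, smul_eq_mul, smul_eq_mul,
          mul_one, Complex.star_def, ← mul_assoc, Complex.conj_mul', Complex.ofReal_mul,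
          Complex.ofReal_pow, mul_comm]
      · intro l _ hl
        rw [star_smul, smul_dotProduct, dotProduct_smul, hon, if_neg (fun h => hl (Subtype.ext h).symm),
          smul_zero, smul_zero]
      · intro h
        exact absurd (Finset.mem_univ _) h
    rw [star_dot_self] at e1 e2
    have f1 := Complex.ofReal_injective e1
    have f2 := Complex.ofReal_injective e2
    rw [f1, f2] at hlt2
    have hle3 : ∑ k, lam k.1 * ‖c k‖ ^ 2 ≤ s ^ 2 * ∑ k, ‖c k‖ ^ 2 := by
      rw [Finset.mul_sum]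
      refine Finset.sum_le_sum fun k _ => ?_
      have hk : ¬ s ^ 2 < lam k.1 := fun hc => k.2 (Finset.mem_filter.mpr ⟨Finset.mem_univ _, hc⟩)
      exact mul_le_mul_of_nonneg_right (not_lt.mp hk) (sq_nonneg _)
    have h4 : Real.sqrt (∑ k, lam k.1 * ‖c k‖ ^ 2) ≤ s * Real.sqrt (∑ k, ‖c k‖ ^ 2) := by
      refine (Real.sqrt_le_sqrt hle3).trans (le_of_eq ?_)
      rw [Real.sqrt_mul (sq_nonneg s), Real.sqrt_sq hs.le]
    exact absurd hlt2 (not_lt.mpr h4)
  obtain ⟨e⟩ : Nonempty (Fin j ↪ I) := by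
    rw [Function.Embedding.nonempty_iff_card_le, Fintype.card_fin, Fintype.card_coe]
    exact hcard
  have hlam : ∀ i, s ^ 2 < lam (e i).1 := fun i => (Finset.mem_filter.mp (e i).2).2
  have hpos : ∀ i, 0 < lam (e i).1 := fun i => lt_of_le_of_lt (sq_nonneg s) (hlam i)
  have hBv : ∀ i, ∑ a, ‖(B *ᵥ v (e i).1) a‖ ^ 2 = lam (e i).1 := by
    intro i
    have h1 := star_dot_mulVec B (v (e i).1) (v (e i).1)
    rw [heig, dotProduct_smul, hon, if_pos rfl, star_dot_self, smul_eq_mul, mul_one] at h1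
    exact Complex.ofReal_injective h1
  have hv1 : ∀ k, ∑ b, ‖v k b‖ ^ 2 = 1 := by
    intro k
    have h1 := hon k k
    rw [if_pos rfl, star_dot_self] at h1
    exact_mod_cast h1
  refine ⟨Matrix.of fun i a => ((lam (e i).1 : ℂ))⁻¹ * star ((B *ᵥ v (e i).1) a),
    Matrix.of fun b i => v (e i).1 b, ?_, ?_, ?_⟩
  · intro i a
    rw [Matrix.of_apply, norm_mul, norm_inv, Complex.norm_real, Real.norm_of_nonneg (hpos i).le,
      norm_star]
    have h1 : ‖(B *ᵥ v (e i).1) a‖ ^ 2 ≤ lam (e i).1 := by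
      rw [← hBv i]
      exact Finset.single_le_sum (f := fun a => ‖(B *ᵥ v (e i).1) a‖ ^ 2)
        (fun a _ => sq_nonneg _) (Finset.mem_univ a)
    have h2 : ‖(B *ᵥ v (e i).1) a‖ ≤ Real.sqrt (lam (e i).1) := Real.le_sqrt_of_sq_le h1
    have h3 : s ≤ Real.sqrt (lam (e i).1) := Real.le_sqrt_of_sq_le (hlam i).le
    have h4 : 0 < Real.sqrt (lam (e i).1) := Real.sqrt_pos.mpr (hpos i)
    calc (lam (e i).1)⁻¹ * ‖(B *ᵥ v (e i).1) a‖
        ≤ (lam (e i).1)⁻¹ * Real.sqrt (lam (e i).1) :=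
          mul_le_mul_of_nonneg_left h2 (inv_nonneg.mpr (hpos i).le)
      _ = (Real.sqrt (lam (e i).1))⁻¹ := by
          have h5 : lam (e i).1 = Real.sqrt (lam (e i).1) * Real.sqrt (lam (e i).1) :=
            (Real.mul_self_sqrt (hpos i).le).symm
          rw [eq_comm, inv_eq_iff_eq_inv, mul_inv, inv_inv]
          field_simp
          rw [sq]
          exact h5.symm
      _ ≤ s⁻¹ := inv_anti₀ hs h3
  · intro b i
    rw [Matrix.of_apply]
    have h1 : ‖v (e i).1 b‖ ^ 2 ≤ 1 := by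
      rw [← hv1 (e i).1]
      exact Finset.single_le_sum (f := fun b => ‖v (e i).1 b‖ ^ 2)
        (fun a _ => sq_nonneg _) (Finset.mem_univ b)
    nlinarith [norm_nonneg (v (e i).1 b)]
  · ext i i'
    have h1 : ((Matrix.of fun i a => ((lam (e i).1 : ℂ))⁻¹ * star ((B *ᵥ v (e i).1) a)) * B *
        (Matrix.of fun b i => v (e i).1 b)) i i' =
        ((lam (e i).1 : ℂ))⁻¹ * (star (B *ᵥ v (e i).1) ⬝ᵥ (B *ᵥ v (e i').1)) := by
      rw [Matrix.mul_assoc, Matrix.mul_apply, dotProduct, Finset.mul_sum]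
      refine Finset.sum_congr rfl fun a _ => ?_
      rw [Matrix.of_apply, Pi.star_apply, mul_assoc]
      rfl
    rw [h1, star_dot_mulVec, heig, dotProduct_smul, hon, Matrix.one_apply]
    by_cases hii : i = i'
    · subst hii
      rw [if_pos rfl, if_pos rfl, smul_eq_mul, mul_one]
      exact inv_mul_cancel₀ (Complex.ofReal_ne_zero.mpr (hpos i).ne')
    · rw [if_neg hii, if_neg, smul_zero, mul_zero]
      intro hc
      exact hii (e.injective (Subtype.ext hc))

end Pool.Agent.LT
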