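import Pool.Agent.Lib.MP_f58a57_nt.LT.C.CDefs
import Pool.Agent.Lib.MP_f58a57_nt.LT.C.B5
import Pool.Agent.Lib.MP_f58a57_nt.LT.C.B8
import Pool.Agent.Lib.MP_f58a57_nt.LT.C.B9
import Pool.Agent.Lib.MP_f58a57_nt.LT.C.La2
import Pool.Agent.Lib.MP_f58a57_nt.LT.C.La3

/-!
# MP_f58a57_nt, large transcendence degree, part C (row lt-C-B10)

THE LOWER BOUND (C.4): assembly.
-/

open Complex Matrix MeasureTheory

noncomputable section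

namespace Pool.Agent.LT

variable {c : ℕ}

theorem lb_main {D : Dat c} {Φ : VN c → VN c → ℂ} {C C' : (Fin (2 * c + 1) → ℤ) → ℂ} (hK : Ker D Φ C C') (hI : INT D.d D.g D.Lt C)
    (hI' : INT D.d D.g D.L C') : LB c Φ := by
  intro ε hε hε'
  obtain ⟨μ, hμ⟩ := exists_mu hK.mulu
  obtain ⟨p, p', nn, C5, m, hJ⟩ := hK.exists_jump
  obtain ⟨κ, K8, T8, hK8, h8⟩ := y_small hK hI' hμ hJ hε hε'
  obtain ⟨K5, T5, hK5, h5⟩ := pair_small hK hI μ κ m p hε hε'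
  have hKa : K5 ≤ max K5 K8 := le_max_left _ _
  have hKb : K8 ≤ max K5 K8 := le_max_right _ _
  have hK1 : 1 ≤ max K5 K8 := hK5.trans hKa
  generalize max K5 K8 = K at hKa hKb hK1
  obtain ⟨T9, hT9, h9⟩ := params c hε hε' hK1
  refine ⟨max T9 ⌈max T5 T8⌉₊, fun T hT j hj hjT => ?_⟩
  have hTa : T9 ≤ T := (le_max_left _ _).trans hT
  have hTb : max T5 T8 ≤ (T : ℝ) := (Nat.le_ceil _).trans (by exact_mod_cast (le_max_right _ _).trans hT)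
  have hTc : T5 ≤ (T : ℝ) := (le_max_left _ _).trans hTb
  have hTd : T8 ≤ (T : ℝ) := (le_max_right _ _).trans hTb
  obtain ⟨k', hk'⟩ : ∃ k' : ℝ, k' = max (2 * K * j) ((T : ℝ) ^ (1 / 2 + ε)) := ⟨_, rfl⟩
  obtain ⟨k, hk⟩ : ∃ k : ℝ, k = (T : ℝ) ^ ε * k' := ⟨_, rfl⟩
  obtain ⟨⟨a1, a2⟩, ⟨b1, b2⟩, hkj, hkj', hex, hlt, h0, hinv⟩ := h9 T hTa j hj hjT k k' hk' hk
  have hj0 : (0 : ℝ) ≤ (j : ℝ) := Nat.cast_nonneg j
  obtain ⟨U, V, hU, hV, hUV⟩ := exists_UV (BM Φ T) (s := Real.exp (-((T : ℝ) ^ ε * k ^ 2))) (Real.exp_pos _) j (by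
    intro X hX
    by_contra hcon
    push Not at hcon
    obtain ⟨L, hL⟩ := gy_lin hK μ κ m p j T
    obtain ⟨y, hy1, ⟨i0, hi0⟩, hy⟩ := exists_y j L X hX
    have h1 : ∀ β, ‖L y β‖ ≤ Real.exp (-(k ^ 2 / K5)) := by
      apply hy
      intro q hq hq1
      have hq2 : ∀ β, ‖q β‖ ≤ 1 := fun β => by
        have h2 : ‖q β‖ ^ 2 ≤ ∑ b, ‖q b‖ ^ 2 := Finset.single_le_sum (f := fun b => ‖q b‖ ^ 2) (fun b _ => by positivity) (Finset.mem_univ β)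
        have h3 : ‖q β‖ ^ 2 ≤ 1 := h2.trans hq1
        nlinarith [norm_nonneg (q β)]
      have hBq : ∀ α, ‖(BM Φ T *ᵥ q) α‖ ≤ Real.exp (-((T : ℝ) ^ ε * k ^ 2)) := fun α => by
        have h2 : ‖(BM Φ T *ᵥ q) α‖ ^ 2 ≤ ∑ a, ‖(BM Φ T *ᵥ q) a‖ ^ 2 :=
          Finset.single_le_sum (f := fun a => ‖(BM Φ T *ᵥ q) a‖ ^ 2) (fun b _ => by positivity) (Finset.mem_univ α)
        have h3 : ‖(BM Φ T *ᵥ q) α‖ ≤ Real.sqrt (∑ a, ‖(BM Φ T *ᵥ q) a‖ ^ 2) := Real.le_sqrt_of_sq_le h2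
        have h4 : Real.sqrt (∑ b, ‖q b‖ ^ 2) ≤ 1 := Real.sqrt_le_one.2 hq1
        calc ‖(BM Φ T *ᵥ q) α‖ ≤ Real.sqrt (∑ a, ‖(BM Φ T *ᵥ q) a‖ ^ 2) := h3
          _ ≤ Real.exp (-((T : ℝ) ^ ε * k ^ 2)) * Real.sqrt (∑ b, ‖q b‖ ^ 2) := hcon q hq
          _ ≤ Real.exp (-((T : ℝ) ^ ε * k ^ 2)) * 1 := mul_le_mul_of_nonneg_left h4 (Real.exp_pos _).le
          _ = _ := mul_one _
      have h6 := h5 T hTc k b1 b2 j ((mul_le_mul_of_nonneg_right hKa hj0).trans hkj) q hq2 hBq y hy1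
      simpa only [hL] using h6
    have h2 : ∀ w : List (Fin (2 * c + 1)), w.length < T → ‖pdl w (gy D Φ μ κ m p y) 0‖ ≤ Real.exp (-((T : ℝ) ^ ε * k' ^ 2)) := by
      intro w hw
      obtain ⟨β, rfl⟩ := exists_wd w hw
      rw [← hL]
      refine (h1 β).trans (le_trans ?_ hex)
      apply Real.exp_le_exp.2
      have h3 : k ^ 2 / K ≤ k ^ 2 / K5 := div_le_div_of_nonneg_left (sq_nonneg k) (by linarith) hKa
      linarith
    have h3 := h8 T hTd k' a1 a2 j y ((mul_le_mul_of_nonneg_right hKb hj0).trans hkj') hy1 h2 i0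
    rw [hi0] at h3
    have h4 : Real.exp (K8 * (1 + (j : ℝ) ^ 2) - k' ^ 2 / K8) ≤ Real.exp (K * (1 + (j : ℝ) ^ 2) - k' ^ 2 / K) := by
      apply Real.exp_le_exp.2
      have h5 : k' ^ 2 / K ≤ k' ^ 2 / K8 := div_le_div_of_nonneg_left (sq_nonneg k') (by linarith) hKb
      have h6 : K8 * (1 + (j : ℝ) ^ 2) ≤ K * (1 + (j : ℝ) ^ 2) := mul_le_mul_of_nonneg_right hKb (by positivity)
      linarith
    linarith)
  exact ⟨U, V, fun i a => (hU i a).trans hinv, fun b i => (hV b i).trans (Real.one_le_exp h0), hUV⟩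

end Pool.Agent.LT
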