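import Pool.Agent.Lib.MP_f58a57_nt.LT.Defs

/-!
# MP_f58a57_nt, large transcendence degree, part C: definitions
-/

open Complex Matrix MeasureTheory

noncomputable section

namespace Pool.Agent.LT

/-- `ℂ^(2c+1)` -/
abbrev VN (c : ℕ) : Type := Fin (2 * c + 1) → ℂ

variable {c : ℕ}

/-- the coordinates `u = pt g (b u) (Y u) + k`, `P k = 0` -/
structure Dec (D : Dat c) (P : Matrix (Fin (2 * c + 1)) (Fin (2 * c + 1)) ℂ) (b : VN c →ₗ[ℝ] (Fin (2 * c + 1) → ℝ))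
    (Y : VN c →ₗ[ℝ] ℝ) : Prop where
  dec : ∀ u, P *ᵥ (u - pt D.g (b u) (Y u)) = 0
  uniq : ∀ (b' : Fin (2 * c + 1) → ℝ) (y : ℝ), P *ᵥ (pt D.g b' y) = 0 → b' = 0 ∧ y = 0

/-- the function on the line in the direction of `g` -/
def fm (D : Dat c) (Φ : VN c → VN c → ℂ) (μ : ℂ) (u s : VN c) (x : ℂ) : ℂ :=
  Φ (u + x • D.gc) s * ee (D.nu * x ^ 2 / 2 + x * (D.v0 ⬝ᵥ u) + μ * x)

/-- the modes -/
def hk (D : Dat c) (Φ : VN c → VN c → ℂ) (μ : ℂ) (κ : ℤ) (u s : VN c) : ℂ :=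
  (D.d : ℂ)⁻¹ * ∫ x in (0 : ℝ)..(D.d : ℝ), fm D Φ μ u s x * ee (-(κ * x / D.d))

/-- the choice of `μ` -/
def Mu (D : Dat c) (C : (Fin (2 * c + 1) → ℤ) → ℂ) (μ : ℂ) : Prop := C D.g * ee (D.nu * (D.d : ℂ) ^ 2 / 2 + μ * D.d) = 1

/-- the functions of `u` with the transformation properties of the mode `κ` -/
structure Mode (D : Dat c) (C : (Fin (2 * c + 1) → ℤ) → ℂ) (μ : ℂ) (κ : ℤ) (h : VN c → ℂ) : Prop where
  sec : Sec D.d D.Lt C h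
  g : ∀ (ξ : ℂ) (u : VN c), h (u + ξ • D.gc) = ee (-(D.nu * ξ ^ 2 / 2) - ξ * (D.v0 ⬝ᵥ u) - (μ - κ / D.d) * ξ) * h u

/-- the space of the functions of `u` with the transformation properties of the mode `κ` -/
def QQ (D : Dat c) (C : (Fin (2 * c + 1) → ℤ) → ℂ) (μ : ℂ) (κ : ℤ) : Submodule ℂ (VN c → ℂ) where
  carrier := {h | Mode D C μ κ h}
  add_mem' := by
    intro a b ha hb
    refine ⟨⟨ha.sec.diff.add hb.sec.diff, fun l u => ?_, fun k hk u => ?_⟩, fun ξ u => ?_⟩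
    · simp only [Pi.add_apply, ha.sec.per, hb.sec.per]; ring
    · simp only [Pi.add_apply, ha.sec.ker k hk, hb.sec.ker k hk]
    · simp only [Pi.add_apply, ha.g, hb.g]; ring
  zero_mem' := by
    refine ⟨⟨differentiable_const 0, fun l u => ?_, fun k hk u => ?_⟩, fun ξ u => ?_⟩ <;> simp
  smul_mem' := by
    intro t a ha
    refine ⟨⟨ha.sec.diff.const_smul t, fun l u => ?_, fun k hk u => ?_⟩, fun ξ u => ?_⟩
    · simp only [Pi.smul_apply, smul_eq_mul, ha.sec.per]; ring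
    · simp only [Pi.smul_apply, ha.sec.ker k hk]
    · simp only [Pi.smul_apply, smul_eq_mul, ha.g]; ring

theorem mem_QQ {D : Dat c} {C : (Fin (2 * c + 1) → ℤ) → ℂ} {μ : ℂ} {κ : ℤ} {h : VN c → ℂ} : h ∈ QQ D C μ κ ↔ Mode D C μ κ h := Iff.rfl

/-- the data of a jump (property (P5)) -/
structure Jump (D : Dat c) (Φ : VN c → VN c → ℂ) (p p' : VN c) (nn : Fin (2 * c + 1) → ℤ) (C5 : ℂ) (m : ℤ) : Prop where
  ne : C5 ≠ 0
  eq : D.L *ᵥ p' + D.Lt *ᵥ p = (fun j => (nn j : ℂ))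
  hm : m = ∑ j, D.g j * nn j
  pos : 1 ≤ m
  jmp : ∀ u s, Φ (u + p) (s + p') = C5 * ee (p ⬝ᵥ (D.L *ᵥ s) + u ⬝ᵥ (D.L *ᵥ p')) * Φ u s

theorem Ker.exists_jump {D : Dat c} {Φ : VN c → VN c → ℂ} {C C' : (Fin (2 * c + 1) → ℤ) → ℂ} (hK : Ker D Φ C C') :
    ∃ (p p' : VN c) (nn : Fin (2 * c + 1) → ℤ) (C5 : ℂ) (m : ℤ), Jump D Φ p p' nn C5 m := by
  obtain ⟨p, p', nn, C5, h1, h2, h3, h4⟩ := hK.jump
  exact ⟨p, p', nn, C5, _, h1, h2, rfl, h3, h4⟩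

/-- the function `F_q` -/
def Fq {T : ℕ} (Φ : VN c → VN c → ℂ) (q : Wd (2 * c + 1) T → ℂ) (u : VN c) : ℂ := ∑ β, q β * pdl β.l (Φ u) 0

/-- the function `g_y` -/
def gy (D : Dat c) (Φ : VN c → VN c → ℂ) (μ : ℂ) (κ m : ℤ) (p : VN c) {j : ℕ} (y : Fin j → ℂ) (s : VN c) : ℂ :=
  ∑ i : Fin j, y i * hk D Φ μ (κ + (i : ℕ) * m * D.d) (((i : ℕ) : ℂ) • p) s

end Pool.Agent.LT
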