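import Pool.Agent.Lib.MP_f58a57_nt.LT.C.CDefs

/-!
# MP_f58a57_nt, large transcendence degree, part C (row lt-C-La1)

Linear algebra: choose the columns e_(j-1), e_(j-2), ..., e_0 successively, e_l in S l of norm 1 orthogonal to the previous ones.
-/

open Complex Matrix MeasureTheory

noncomputable section

namespace Pool.Agent.LT

variable {c : ℕ}

namespace La1_

/-- `star v ⬝ᵥ v` is the real number `nsq v` -/
theorem star_dot_self {j : ℕ} (v : Fin j → ℂ) : star v ⬝ᵥ v = ((∑ i, ‖v i‖ ^ 2 : ℝ) : ℂ) := by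
  simp only [dotProduct, Pi.star_apply, RCLike.star_def, Complex.conj_mul', Complex.ofReal_sum, Complex.ofReal_pow]

/-- one step: a vector of norm one in `S`, orthogonal to the given family -/
theorem step {j t : ℕ} (S : Submodule ℂ (Fin j → ℂ)) (h : t < Module.finrank ℂ S) (e : Fin t → (Fin j → ℂ)) :
    ∃ v ∈ S, star v ⬝ᵥ v = 1 ∧ ∀ a, star (e a) ⬝ᵥ v = 0 := by
  let f : S →ₗ[ℂ] (Fin t → ℂ) :=
    { toFun := fun v a => star (e a) ⬝ᵥ (v : Fin j → ℂ)
      map_add' := by
        intro x y
        funext a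
        simp [dotProduct_add]
      map_smul' := by
        intro r x
        funext a
        simp [dotProduct_smul] }
  have hf : LinearMap.ker f ≠ ⊥ := by
    apply LinearMap.ker_ne_bot_of_finrank_lt
    rw [Module.finrank_fin_fun]
    exact h
  obtain ⟨v, hv, hv0⟩ := (Submodule.ne_bot_iff _).1 hf
  have hfv : ∀ a, star (e a) ⬝ᵥ (v : Fin j → ℂ) = 0 := fun a => congrFun (LinearMap.mem_ker.1 hv) a
  have hvne : (v : Fin j → ℂ) ≠ 0 := fun h0 => hv0 (Subtype.ext h0)
  obtain ⟨i0, hi0⟩ := Function.ne_iff.1 hvne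
  have hpos : 0 < ∑ i, ‖(v : Fin j → ℂ) i‖ ^ 2 := by
    apply Finset.sum_pos'
    · intro i _
      positivity
    · exact ⟨i0, Finset.mem_univ _, by
        have : 0 < ‖(v : Fin j → ℂ) i0‖ := norm_pos_iff.2 (by simpa using hi0)
        positivity⟩
  set r : ℝ := ∑ i, ‖(v : Fin j → ℂ) i‖ ^ 2 with hr
  refine ⟨(((Real.sqrt r)⁻¹ : ℝ) : ℂ) • (v : Fin j → ℂ), S.smul_mem _ v.2, ?_, ?_⟩
  · have e1 : star ((((Real.sqrt r)⁻¹ : ℝ) : ℂ) • (v : Fin j → ℂ)) = (((Real.sqrt r)⁻¹ : ℝ) : ℂ) • star (v : Fin j → ℂ) := by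
      rw [star_smul]
      congr 1
      exact Complex.conj_ofReal _
    rw [e1, smul_dotProduct, dotProduct_smul, star_dot_self, ← hr, smul_eq_mul, smul_eq_mul, ← Complex.ofReal_mul, ← Complex.ofReal_mul]
    have : (Real.sqrt r)⁻¹ * ((Real.sqrt r)⁻¹ * r) = 1 := by
      have hs : Real.sqrt r * Real.sqrt r = r := Real.mul_self_sqrt hpos.le
      have hs0 : Real.sqrt r ≠ 0 := (Real.sqrt_pos.2 hpos).ne'
      rw [← mul_assoc, ← mul_inv, hs, inv_mul_cancel₀ hpos.ne']
    rw [this, Complex.ofReal_one]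
  · intro a
    rw [dotProduct_smul, hfv a, smul_zero]

/-- the induction -/
theorem ind {j : ℕ} (S : Fin j → Submodule ℂ (Fin j → ℂ)) (h : ∀ l : Fin j, j ≤ Module.finrank ℂ (S l) + l) (t : ℕ) (ht : t ≤ j) :
    ∃ e : Fin j → (Fin j → ℂ), (∀ l : Fin j, j ≤ l + t → e l ∈ S l) ∧
      ∀ l l' : Fin j, j ≤ l + t → j ≤ l' + t → star (e l) ⬝ᵥ e l' = if l = l' then 1 else 0 := by
  induction t with
  | zero =>
    refine ⟨0, fun l hl => ?_, fun l _ hl => ?_⟩
    · exact absurd hl (by have := l.2; omega)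
    · exact absurd hl (by have := l.2; omega)
  | succ t ih =>
    obtain ⟨e, he1, he2⟩ := ih (by omega)
    set l0 : Fin j := ⟨j - (t + 1), by omega⟩ with hl0
    have hfin : t < Module.finrank ℂ (S l0) := by
      have := h l0
      simp only [hl0] at this ⊢
      omega
    obtain ⟨v, hvS, hv1, hv2⟩ := step (S l0) hfin (fun a : Fin t => e ⟨j - t + a, by have := a.2; omega⟩)
    have hv3 : ∀ l : Fin j, j ≤ l + t → star (e l) ⬝ᵥ v = 0 := by
      intro l hl
      have hl2 := l.2
      have h3 := hv2 ⟨(l : ℕ) - (j - t), by omega⟩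
      have h4 : (⟨j - t + ((l : ℕ) - (j - t)), by omega⟩ : Fin j) = l := by
        apply Fin.ext
        show j - t + ((l : ℕ) - (j - t)) = l
        omega
      simp only [h4] at h3
      exact h3
    have hv4 : ∀ l : Fin j, j ≤ l + t → star v ⬝ᵥ e l = 0 := by
      intro l hl
      have h5 : star (star (e l) ⬝ᵥ v) = star v ⬝ᵥ e l := by
        rw [Matrix.star_dotProduct, star_star]
      rw [← h5, hv3 l hl, star_zero]
    have hne : ∀ l : Fin j, j ≤ l + t → l ≠ l0 := by
      intro l hl hll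
      rw [hll] at hl
      simp only [hl0] at hl
      omega
    have hcase : ∀ l : Fin j, j ≤ l + (t + 1) → l = l0 ∨ j ≤ l + t := by
      intro l hl
      by_cases h1 : j ≤ l + t
      · exact Or.inr h1
      · left
        apply Fin.ext
        simp only [hl0]
        omega
    refine ⟨Function.update e l0 v, fun l hl => ?_, fun l l' hl hl' => ?_⟩
    · rcases hcase l hl with rfl | h1
      · rw [Function.update_self]
        exact hvS
      · rw [Function.update_of_ne (hne l h1)]
        exact he1 l h1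
    · rcases hcase l hl with h1 | h1
      · rcases hcase l' hl' with h2 | h2
        · rw [h1, h2, Function.update_self, if_pos rfl]
          exact hv1
        · rw [h1, Function.update_self, Function.update_of_ne (hne l' h2), if_neg (hne l' h2).symm]
          exact hv4 l' h2
      · rcases hcase l' hl' with h2 | h2
        · rw [h2, Function.update_self, Function.update_of_ne (hne l h1), if_neg (hne l h1)]
          exact hv3 l h1
        · rw [Function.update_of_ne (hne l h1), Function.update_of_ne (hne l' h2)]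
          exact he2 l l' h1 h2

end La1_

theorem exists_unitary_cols {j : ℕ} (S : Fin j → Submodule ℂ (Fin j → ℂ)) (h : ∀ l : Fin j, j ≤ Module.finrank ℂ (S l) + l) :
    ∃ E : Matrix (Fin j) (Fin j) ℂ, E ∈ Matrix.unitaryGroup (Fin j) ℂ ∧ ∀ l, (fun i => E i l) ∈ S l := by
  obtain ⟨e, he1, he2⟩ := La1_.ind S h j le_rfl
  refine ⟨Matrix.of (fun i l => e l i), ?_, fun l => ?_⟩
  · rw [Matrix.mem_unitaryGroup_iff']
    ext l l'
    have h1 := he2 l l' (by omega) (by omega)
    rw [Matrix.mul_apply, Matrix.one_apply, ← h1]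
    simp only [dotProduct, Matrix.star_apply, Matrix.of_apply, Pi.star_apply]
  · exact he1 l (by omega)

end Pool.Agent.LT
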