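import Pool.Agent.Lib.MP_f58a57_nt.LT.C.CDefs
import Pool.Agent.Lib.MP_f58a57_nt.LT.C.M0

/-!
# MP_f58a57_nt, large transcendence degree, part C (row lt-C-Q1)

C.2: the shift Q_kappa -> Q_(kappa - i m d). k^T L p' = (Lt k)^T p' = 0 for Lt k = 0; a^T(Lt p + L p') = a^T nn integral.
-/

open Complex Matrix MeasureTheory

noncomputable section

namespace Pool.Agent.LT

variable {c : ℕ}

theorem QQ_shift {D : Dat c} {Φ : VN c → VN c → ℂ} {p p' : VN c} {nn : Fin (2 * c + 1) → ℤ} {C5 : ℂ} {m : ℤ} (hJ : Jump D Φ p p' nn C5 m)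
    {C : (Fin (2 * c + 1) → ℤ) → ℂ} {μ : ℂ} (κ i : ℤ) {h : VN c → ℂ} (hh : h ∈ QQ D C μ κ) :
    (fun u => h (u + (i : ℂ) • p) * ee (-(i * (u ⬝ᵥ (D.L *ᵥ p'))))) ∈ QQ D C μ (κ - i * m * D.d) := by
  have hm : Mode D C μ κ h := hh
  have hd0 : (D.d : ℂ) ≠ 0 := by exact_mod_cast D.hd.ne'
  refine ⟨⟨?_, ?_, ?_⟩, ?_⟩
  · -- differentiability
    have h1 : Differentiable ℂ (fun u : VN c => h (u + (i : ℂ) • p)) :=
      hm.sec.diff.comp (differentiable_id.add (differentiable_const _))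
    have h2 : Differentiable ℂ (fun u : VN c => (u ⬝ᵥ (D.L *ᵥ p'))) := by
      unfold dotProduct
      fun_prop
    have h3 : Differentiable ℂ (fun u : VN c => ee (-(i * (u ⬝ᵥ (D.L *ᵥ p'))))) := by
      unfold ee
      fun_prop
    exact h1.mul h3
  · intro a u
    have e1 : u + lat D.d a + (i : ℂ) • p = (u + (i : ℂ) • p) + lat D.d a := by
      rw [add_right_comm]
    have e2 : lat D.d a ⬝ᵥ (D.Lt *ᵥ p) + lat D.d a ⬝ᵥ (D.L *ᵥ p') = ((∑ j, (D.d : ℤ) * a j * nn j : ℤ) : ℂ) := by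
      rw [← dotProduct_add, add_comm (D.Lt *ᵥ p), hJ.eq]
      simp [dotProduct, lat]
    show h (u + lat D.d a + (i : ℂ) • p) * ee (-(i * ((u + lat D.d a) ⬝ᵥ (D.L *ᵥ p')))) =
      C a * ee (-(lat D.d a ⬝ᵥ (D.Lt *ᵥ u))) * (h (u + (i : ℂ) • p) * ee (-(i * (u ⬝ᵥ (D.L *ᵥ p')))))
    rw [e1, hm.sec.per a]
    have e3 : ee (-(lat D.d a ⬝ᵥ (D.Lt *ᵥ (u + (i : ℂ) • p)))) * ee (-(i * ((u + lat D.d a) ⬝ᵥ (D.L *ᵥ p')))) =
        ee (-(lat D.d a ⬝ᵥ (D.Lt *ᵥ u))) * ee (-(i * (u ⬝ᵥ (D.L *ᵥ p')))) := by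
      have e4 : -(lat D.d a ⬝ᵥ (D.Lt *ᵥ (u + (i : ℂ) • p))) + -(i * ((u + lat D.d a) ⬝ᵥ (D.L *ᵥ p'))) =
          -(lat D.d a ⬝ᵥ (D.Lt *ᵥ u)) + -(i * (u ⬝ᵥ (D.L *ᵥ p'))) + ((-(i * ∑ j, (D.d : ℤ) * a j * nn j) : ℤ) : ℂ) := by
        have e5 : ((-(i * ∑ j, (D.d : ℤ) * a j * nn j) : ℤ) : ℂ) =
            -(i * (lat D.d a ⬝ᵥ (D.Lt *ᵥ p) + lat D.d a ⬝ᵥ (D.L *ᵥ p'))) := by
          rw [e2, Int.cast_neg, Int.cast_mul]
        rw [e5, Matrix.mulVec_add, Matrix.mulVec_smul, dotProduct_add, dotProduct_smul, add_dotProduct, smul_eq_mul]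
        ring
      rw [← ee_add, e4, ee_add, ee_int, mul_one, ee_add]
    linear_combination (C a * h (u + (i : ℂ) • p)) * e3
  · intro k hk u
    have e1 : u + k + (i : ℂ) • p = (u + (i : ℂ) • p) + k := by
      rw [add_right_comm]
    show h (u + k + (i : ℂ) • p) * ee (-(i * ((u + k) ⬝ᵥ (D.L *ᵥ p')))) = h (u + (i : ℂ) • p) * ee (-(i * (u ⬝ᵥ (D.L *ᵥ p'))))
    rw [e1, hm.sec.ker k hk, add_dotProduct, dot_L D k p', hk, dotProduct_zero, add_zero]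
  · intro ξ u
    have e1 : u + ξ • D.gc + (i : ℂ) • p = (u + (i : ℂ) • p) + ξ • D.gc := by
      rw [add_right_comm]
    have e2 : D.gc ⬝ᵥ (D.Lt *ᵥ p) + D.gc ⬝ᵥ (D.L *ᵥ p') = (m : ℂ) := by
      rw [← dotProduct_add, add_comm (D.Lt *ᵥ p), hJ.eq, hJ.hm]
      simp [dotProduct, Dat.gc]
    rw [gc_dot_Lt] at e2
    show h (u + ξ • D.gc + (i : ℂ) • p) * ee (-(i * ((u + ξ • D.gc) ⬝ᵥ (D.L *ᵥ p')))) =
      ee (-(D.nu * ξ ^ 2 / 2) - ξ * (D.v0 ⬝ᵥ u) - (μ - ((κ - i * m * D.d : ℤ) : ℂ) / D.d) * ξ) *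
        (h (u + (i : ℂ) • p) * ee (-(i * (u ⬝ᵥ (D.L *ᵥ p')))))
    rw [e1, hm.g ξ]
    have e3 : ee (-(D.nu * ξ ^ 2 / 2) - ξ * (D.v0 ⬝ᵥ (u + (i : ℂ) • p)) - (μ - κ / D.d) * ξ) *
        ee (-(i * ((u + ξ • D.gc) ⬝ᵥ (D.L *ᵥ p')))) =
        ee (-(D.nu * ξ ^ 2 / 2) - ξ * (D.v0 ⬝ᵥ u) - (μ - ((κ - i * m * D.d : ℤ) : ℂ) / D.d) * ξ) *
          ee (-(i * (u ⬝ᵥ (D.L *ᵥ p')))) := by
      rw [← ee_add, ← ee_add]
      congr 1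
      have e6 : ((κ - i * m * D.d : ℤ) : ℂ) / D.d = κ / D.d - i * m := by
        push_cast
        field_simp
      rw [e6, dotProduct_add, dotProduct_smul, add_dotProduct, smul_dotProduct, smul_eq_mul, smul_eq_mul, ← e2]
      ring
    linear_combination (h (u + (i : ℂ) • p)) * e3

end Pool.Agent.LT
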