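import Pool.Agent.Lib.MP_f58a57_nt.LT.C.CDefs
import Pool.Agent.Lib.MP_f58a57_nt.LT.C.P
import Pool.Agent.Lib.MP_f58a57_nt.LT.C.D2b
import Pool.Agent.Lib.MP_f58a57_nt.LT.C.M0

/-!
# MP_f58a57_nt, large transcendence degree, part C (row lt-C-Q2)

C.2: for fixed kappa a function of Q_kappa which vanishes to high order at 0 is 0: S := max of |h| on the cube [0,d]^N of R^N; |h(u)| <= S exp(A(1+|u|^2)) (u = pt g b y + k; use Mode.g with xi = iy, then Sec.per); pdl_schwarz on t -> h(t b): S <= 2^(-T) exp(A(1+4 d^2 N)) S.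
-/

open Complex Matrix MeasureTheory

noncomputable section

namespace Pool.Agent.LT

variable {c : ℕ}

namespace Q2_

theorem nsq_nonneg {n : ℕ} (u : Fin n → ℂ) : 0 ≤ nsq u := Finset.sum_nonneg fun _ _ => by positivity

theorem norm_sq_le {n : ℕ} (u : Fin n → ℂ) : ‖u‖ ^ 2 ≤ nsq u := by
  have h : ‖u‖ ≤ Real.sqrt (nsq u) := by
    refine (pi_norm_le_iff_of_nonneg (Real.sqrt_nonneg _)).2 fun j => ?_
    refine Real.le_sqrt_of_sq_le ?_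
    exact Finset.single_le_sum (f := fun i => ‖u i‖ ^ 2) (fun i _ => by positivity) (Finset.mem_univ j)
  calc ‖u‖ ^ 2 ≤ Real.sqrt (nsq u) ^ 2 := pow_le_pow_left₀ (norm_nonneg _) h 2
    _ = nsq u := Real.sq_sqrt (nsq_nonneg u)

theorem norm_ee_le (z : ℂ) : ‖ee z‖ ≤ Real.exp (2 * Real.pi * ‖z‖) := by
  unfold ee
  rw [Complex.norm_exp]
  apply Real.exp_le_exp.2
  have h : (2 * Real.pi * I * z).re = -(2 * Real.pi * z.im) := by
    simp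
  rw [h]
  have h2 := Complex.abs_im_le_norm z
  have h3 := neg_abs_le z.im
  have hp := Real.pi_pos
  nlinarith

theorem dot_le {n : ℕ} (v w : Fin n → ℂ) {B : ℝ} (hw : ∀ j, ‖w j‖ ≤ B) : ‖v ⬝ᵥ w‖ ≤ (∑ j, ‖v j‖) * B := by
  unfold dotProduct
  refine (norm_sum_le _ _).trans ?_
  rw [Finset.sum_mul]
  refine Finset.sum_le_sum fun j _ => ?_
  rw [norm_mul]
  exact mul_le_mul_of_nonneg_left (hw j) (norm_nonneg _)

/-- the real vector as a complex vector -/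
def rc {n : ℕ} (b : Fin n → ℝ) : Fin n → ℂ := fun j => (b j : ℂ)

/-- the translation in the direction of `i g` -/
theorem step1 {D : Dat c} {C : (Fin (2 * c + 1) → ℤ) → ℂ} (μ : ℂ) (κ : ℤ) : ∃ A : ℝ, 0 ≤ A ∧ ∀ h, Mode D C μ κ h →
    ∀ (b : Fin (2 * c + 1) → ℝ) (y : ℝ), ‖h (pt D.g b y)‖ ≤ Real.exp (A * (1 + y ^ 2 + ‖b‖ ^ 2)) * ‖h (rc b)‖ := by
  have hp := Real.pi_pos
  set V : ℝ := ∑ j, ‖D.v0 j‖ with hV
  have hV0 : 0 ≤ V := Finset.sum_nonneg fun _ _ => norm_nonneg _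
  set W : ℝ := ‖μ - κ / D.d‖ with hW
  have hW0 : 0 ≤ W := norm_nonneg _
  refine ⟨2 * Real.pi * (‖D.nu‖ + V + W), by positivity, fun h hh b y => ?_⟩
  have e : pt D.g b y = rc b + (I * y) • D.gc := by
    funext j; simp [pt, rc, Dat.gc]
  rw [e, hh.g, norm_mul]
  refine mul_le_mul_of_nonneg_right ((norm_ee_le _).trans (Real.exp_le_exp.2 ?_)) (norm_nonneg _)
  have hdot : ‖D.v0 ⬝ᵥ rc b‖ ≤ V * ‖b‖ := dot_le _ _ fun j => by
    simp only [rc, Complex.norm_real]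
    exact norm_le_pi_norm b j
  have hIy : ‖I * (y : ℂ)‖ = |y| := by simp
  have h1 : ‖-(D.nu * (I * y) ^ 2 / 2) - I * y * (D.v0 ⬝ᵥ rc b) - (μ - κ / D.d) * (I * y)‖ ≤
      ‖D.nu‖ * y ^ 2 / 2 + |y| * (V * ‖b‖) + W * |y| := by
    refine (norm_sub_le _ _).trans (add_le_add ((norm_sub_le _ _).trans (add_le_add ?_ ?_)) ?_)
    · rw [norm_neg, norm_div, norm_mul, norm_pow, hIy, sq_abs]
      simp
    · rw [norm_mul, hIy]
      exact mul_le_mul_of_nonneg_left hdot (abs_nonneg _)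
    · rw [norm_mul, hIy]
  have hb := norm_nonneg b
  have hy := abs_nonneg y
  have hn := norm_nonneg D.nu
  have h2 : |y| * ‖b‖ ≤ 1 + y ^ 2 + ‖b‖ ^ 2 := by
    have := sq_nonneg (|y| - ‖b‖)
    have h3 := sq_abs y
    nlinarith
  have h3 : |y| ≤ 1 + y ^ 2 + ‖b‖ ^ 2 := by
    have := sq_nonneg (|y| - 1)
    have h4 := sq_abs y
    nlinarith [sq_nonneg ‖b‖]
  have h4 : y ^ 2 / 2 ≤ 1 + y ^ 2 + ‖b‖ ^ 2 := by nlinarith [sq_nonneg ‖b‖, sq_nonneg y]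
  have h5 : ‖D.nu‖ * y ^ 2 / 2 + |y| * (V * ‖b‖) + W * |y| ≤ (‖D.nu‖ + V + W) * (1 + y ^ 2 + ‖b‖ ^ 2) := by
    have e1 := mul_le_mul_of_nonneg_left h4 hn
    have e2 := mul_le_mul_of_nonneg_left h2 hV0
    have e3 := mul_le_mul_of_nonneg_left h3 hW0
    calc ‖D.nu‖ * y ^ 2 / 2 + |y| * (V * ‖b‖) + W * |y| = ‖D.nu‖ * (y ^ 2 / 2) + V * (|y| * ‖b‖) + W * |y| := by ring
      _ ≤ ‖D.nu‖ * (1 + y ^ 2 + ‖b‖ ^ 2) + V * (1 + y ^ 2 + ‖b‖ ^ 2) + W * (1 + y ^ 2 + ‖b‖ ^ 2) := by linarith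
      _ = _ := by ring
  calc 2 * Real.pi * _ ≤ 2 * Real.pi * ((‖D.nu‖ + V + W) * (1 + y ^ 2 + ‖b‖ ^ 2)) :=
        mul_le_mul_of_nonneg_left (h1.trans h5) (by positivity)
    _ = _ := by ring

/-- reduction to the cube -/
theorem step2 {D : Dat c} {C : (Fin (2 * c + 1) → ℤ) → ℂ} (hC : MulOK D.d D.z C) : ∃ A : ℝ, 0 ≤ A ∧ ∀ h, Sec D.d D.Lt C h →
    ∀ b : Fin (2 * c + 1) → ℝ, ∃ b' : Fin (2 * c + 1) → ℝ, (∀ j, 0 ≤ b' j ∧ b' j ≤ D.d) ∧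
      ‖h (rc b)‖ ≤ Real.exp (A * (1 + ‖b‖ ^ 2)) * ‖h (rc b')‖ := by
  have hp := Real.pi_pos
  have hdp : (0 : ℝ) < D.d := by exact_mod_cast D.hd
  obtain ⟨l, hl⟩ := hC
  set A2 : ℝ := ∑ j, (Real.pi * (D.z j).im + |l j|) with hA2
  have hz : ∀ j, 0 ≤ (D.z j).im := fun j => (D.im j).le
  have hA20 : 0 ≤ A2 := Finset.sum_nonneg fun j _ => by have := hz j; positivity
  set Ls : ℝ := ∑ i, ∑ j, ‖D.Lt i j‖ with hLs
  have hLs0 : 0 ≤ Ls := Finset.sum_nonneg fun _ _ => Finset.sum_nonneg fun _ _ => norm_nonneg _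
  refine ⟨(A2 + 2 * Real.pi * (D.d * Ls)) * (2 + 2 * (D.d : ℝ) ^ 2), by positivity, fun h hh b => ?_⟩
  set a : Fin (2 * c + 1) → ℤ := fun j => ⌊b j / D.d⌋ with ha
  set b' : Fin (2 * c + 1) → ℝ := fun j => b j - D.d * a j with hb'
  have hb1 : ∀ j, 0 ≤ b' j ∧ b' j ≤ D.d := by
    intro j
    have h1 : (a j : ℝ) ≤ b j / D.d := Int.floor_le _
    have h2 : b j / D.d < a j + 1 := Int.lt_floor_add_one _
    rw [le_div_iff₀ hdp] at h1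
    rw [div_lt_iff₀ hdp] at h2
    constructor
    · simp only [hb']; linarith
    · simp only [hb']; linarith
  refine ⟨b', hb1, ?_⟩
  have e : rc b = rc b' + lat D.d a := by
    funext j; simp [rc, lat, hb']
  rw [e, hh.per, norm_mul, norm_mul, hl]
  have hbn := norm_nonneg b
  set B : ℝ := ‖b‖ + D.d with hB
  have hB0 : 0 ≤ B := by positivity
  have hda : ∀ j, |(D.d : ℝ) * (a j : ℝ)| ≤ B := by
    intro j
    have h1 := hb1 j
    have h2 : (D.d : ℝ) * (a j : ℝ) = b j - b' j := by simp [hb']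
    rw [h2]
    have h3 : |b j| ≤ ‖b‖ := norm_le_pi_norm b j
    have h4 := abs_le.1 h3
    exact abs_le.2 ⟨by linarith, by linarith⟩
  have hBB : B ^ 2 ≤ 2 * ‖b‖ ^ 2 + 2 * (D.d : ℝ) ^ 2 := by
    have := sq_nonneg (‖b‖ - D.d)
    rw [hB]; nlinarith
  have hB1 : B ≤ 1 + 2 * ‖b‖ ^ 2 + 2 * (D.d : ℝ) ^ 2 := by
    have := sq_nonneg (B - 1)
    nlinarith [sq_nonneg B]
  have hX : 1 + 2 * ‖b‖ ^ 2 + 2 * (D.d : ℝ) ^ 2 ≤ (2 + 2 * (D.d : ℝ) ^ 2) * (1 + ‖b‖ ^ 2) := by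
    have : 0 ≤ (D.d : ℝ) ^ 2 * ‖b‖ ^ 2 := by positivity
    nlinarith
  set X : ℝ := 1 + 2 * ‖b‖ ^ 2 + 2 * (D.d : ℝ) ^ 2 with hXd
  -- the multiplier
  have m1 : Real.pi * ∑ j, (D.z j).im * ((D.d : ℝ) * (a j : ℝ)) ^ 2 + ∑ j, l j * ((D.d : ℝ) * (a j : ℝ)) ≤ A2 * X := by
    rw [Finset.mul_sum, ← Finset.sum_add_distrib, hA2, Finset.sum_mul]
    refine Finset.sum_le_sum fun j _ => ?_
    have t1 : ((D.d : ℝ) * (a j : ℝ)) ^ 2 ≤ X := by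
      have h1 : ((D.d : ℝ) * (a j : ℝ)) ^ 2 ≤ B ^ 2 := by
        rw [← sq_abs ((D.d : ℝ) * (a j : ℝ))]; exact pow_le_pow_left₀ (abs_nonneg _) (hda j) 2
      rw [hXd]; linarith
    have t2 : l j * ((D.d : ℝ) * (a j : ℝ)) ≤ |l j| * X := by
      refine (le_abs_self _).trans ?_
      rw [abs_mul]
      exact mul_le_mul_of_nonneg_left ((hda j).trans hB1) (abs_nonneg _)
    have t3 : Real.pi * ((D.z j).im * ((D.d : ℝ) * (a j : ℝ)) ^ 2) ≤ Real.pi * (D.z j).im * X := by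
      rw [← mul_assoc]; exact mul_le_mul_of_nonneg_left t1 (mul_nonneg hp.le (hz j))
    rw [add_mul]; exact add_le_add t3 t2
  have m2 : ‖ee (-(lat D.d a ⬝ᵥ (D.Lt *ᵥ rc b')))‖ ≤ Real.exp (2 * Real.pi * (D.d * Ls) * X) := by
    refine (norm_ee_le _).trans (Real.exp_le_exp.2 ?_)
    rw [norm_neg]
    have h1 : ‖lat D.d a ⬝ᵥ (D.Lt *ᵥ rc b')‖ ≤ (D.d * Ls) * X := by
      unfold dotProduct
      refine (norm_sum_le _ _).trans ?_
      have h2 : ∀ i ∈ Finset.univ, ‖lat D.d a i * (D.Lt *ᵥ rc b') i‖ ≤ X * (D.d * ∑ j, ‖D.Lt i j‖) := by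
        intro i _
        rw [norm_mul]
        refine mul_le_mul ?_ ?_ (norm_nonneg _) (by rw [hXd]; positivity)
        · have : ‖lat D.d a i‖ = |(D.d : ℝ) * (a i : ℝ)| := by
            have : lat D.d a i = (((D.d : ℝ) * (a i : ℝ) : ℝ) : ℂ) := by simp [lat]
            rw [this, Complex.norm_real, Real.norm_eq_abs]
          rw [this]; exact (hda i).trans hB1
        · have h3 : ‖D.Lt i ⬝ᵥ rc b'‖ ≤ (∑ j, ‖D.Lt i j‖) * D.d := dot_le _ _ fun j => by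
            simp only [rc, Complex.norm_real, Real.norm_eq_abs, abs_of_nonneg (hb1 j).1]
            exact (hb1 j).2
          exact h3.trans (le_of_eq (mul_comm _ _))
      refine (Finset.sum_le_sum h2).trans (le_of_eq ?_)
      rw [← Finset.mul_sum, ← Finset.mul_sum, hLs]; ring
    calc 2 * Real.pi * _ ≤ 2 * Real.pi * ((D.d * Ls) * X) := mul_le_mul_of_nonneg_left h1 (by positivity)
      _ = _ := by ring
  refine mul_le_mul_of_nonneg_right ?_ (norm_nonneg _)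
  refine (mul_le_mul (Real.exp_le_exp.2 m1) m2 (norm_nonneg _) (Real.exp_pos _).le).trans ?_
  rw [← Real.exp_add]
  apply Real.exp_le_exp.2
  calc A2 * X + 2 * Real.pi * (D.d * Ls) * X = (A2 + 2 * Real.pi * (D.d * Ls)) * X := by ring
    _ ≤ (A2 + 2 * Real.pi * (D.d * Ls)) * ((2 + 2 * (D.d : ℝ) ^ 2) * (1 + ‖b‖ ^ 2)) :=
        mul_le_mul_of_nonneg_left hX (by positivity)
    _ = _ := by ring

/-- the growth in terms of the maximum on the cube -/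
theorem step3 {D : Dat c} {C : (Fin (2 * c + 1) → ℤ) → ℂ} (hC : MulOK D.d D.z C) (μ : ℂ) (κ : ℤ) : ∃ A : ℝ, 0 ≤ A ∧ ∀ h, Mode D C μ κ h →
    ∀ S : ℝ, (∀ b : Fin (2 * c + 1) → ℝ, (∀ j, 0 ≤ b j ∧ b j ≤ D.d) → ‖h (rc b)‖ ≤ S) →
      ∀ u, ‖h u‖ ≤ Real.exp (A * (1 + nsq u)) * S := by
  obtain ⟨b, Y, hd⟩ := exists_dec D D.Lt (Or.inl rfl)
  obtain ⟨A1, hA1, h1⟩ := step1 (D := D) (C := C) μ κ
  obtain ⟨A2, hA2, h2⟩ := step2 hC
  obtain ⟨Cb, hCb0, hCb⟩ := (LinearMap.toContinuousLinearMap b).isBoundedLinearMap.bound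
  obtain ⟨CY, hCY0, hCY⟩ := (LinearMap.toContinuousLinearMap Y).isBoundedLinearMap.bound
  refine ⟨(A1 + A2) * (1 + Cb ^ 2 + CY ^ 2), by positivity, fun h hh S hS u => ?_⟩
  have e1 : h u = h (pt D.g (b u) (Y u)) := by
    have := hh.sec.ker (u - pt D.g (b u) (Y u)) (hd.dec u) (pt D.g (b u) (Y u))
    rw [add_sub_cancel] at this
    exact this
  obtain ⟨b', hb', h3⟩ := h2 h hh.sec (b u)
  have hb2 : ‖b u‖ ^ 2 ≤ Cb ^ 2 * nsq u := by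
    have h4 : ‖b u‖ ≤ Cb * ‖u‖ := hCb u
    calc ‖b u‖ ^ 2 ≤ (Cb * ‖u‖) ^ 2 := pow_le_pow_left₀ (norm_nonneg _) h4 2
      _ = Cb ^ 2 * ‖u‖ ^ 2 := by ring
      _ ≤ Cb ^ 2 * nsq u := mul_le_mul_of_nonneg_left (norm_sq_le u) (by positivity)
  have hY2 : (Y u) ^ 2 ≤ CY ^ 2 * nsq u := by
    have h4 : ‖Y u‖ ≤ CY * ‖u‖ := hCY u
    calc (Y u) ^ 2 = ‖Y u‖ ^ 2 := by rw [Real.norm_eq_abs, sq_abs]
      _ ≤ (CY * ‖u‖) ^ 2 := pow_le_pow_left₀ (norm_nonneg _) h4 2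
      _ = CY ^ 2 * ‖u‖ ^ 2 := by ring
      _ ≤ CY ^ 2 * nsq u := mul_le_mul_of_nonneg_left (norm_sq_le u) (by positivity)
  have hn := nsq_nonneg u
  have hS0 : 0 ≤ S := (norm_nonneg _).trans (hS b' hb')
  rw [e1]
  refine (h1 h hh (b u) (Y u)).trans ?_
  refine (mul_le_mul_of_nonneg_left (h3.trans (mul_le_mul_of_nonneg_left (hS b' hb') (Real.exp_pos _).le)) (Real.exp_pos _).le).trans ?_
  rw [← mul_assoc, ← Real.exp_add]
  refine mul_le_mul_of_nonneg_right (Real.exp_le_exp.2 ?_) hS0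
  have q1 : 1 + (Y u) ^ 2 + ‖b u‖ ^ 2 ≤ (1 + Cb ^ 2 + CY ^ 2) * (1 + nsq u) := by
    have : 0 ≤ Cb ^ 2 := sq_nonneg _
    have : 0 ≤ CY ^ 2 := sq_nonneg _
    nlinarith
  have q2 : 1 + ‖b u‖ ^ 2 ≤ (1 + Cb ^ 2 + CY ^ 2) * (1 + nsq u) := by
    have := sq_nonneg (Y u)
    linarith
  calc A1 * (1 + (Y u) ^ 2 + ‖b u‖ ^ 2) + A2 * (1 + ‖b u‖ ^ 2) ≤
        A1 * ((1 + Cb ^ 2 + CY ^ 2) * (1 + nsq u)) + A2 * ((1 + Cb ^ 2 + CY ^ 2) * (1 + nsq u)) :=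
      add_le_add (mul_le_mul_of_nonneg_left q1 hA1) (mul_le_mul_of_nonneg_left q2 hA2)
    _ = _ := by ring

end Q2_

open Q2_

theorem QQ_van {D : Dat c} {C : (Fin (2 * c + 1) → ℤ) → ℂ} (hC : MulOK D.d D.z C) (μ : ℂ) (κ : ℤ) :
    ∃ T0 : ℕ, ∀ h ∈ QQ D C μ κ, (∀ w : List (Fin (2 * c + 1)), w.length < T0 → pdl w h 0 = 0) → h = 0 := by
  obtain ⟨A, hA, h3⟩ := step3 hC μ κ
  have hdp : (0 : ℝ) < D.d := by exact_mod_cast D.hd
  set E : ℝ := Real.exp (A * (1 + 4 * ((2 * c + 1 : ℕ) * (D.d : ℝ) ^ 2))) with hE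
  obtain ⟨T0, hT0⟩ := pow_unbounded_of_one_lt (2 * E) (one_lt_two : (1 : ℝ) < 2)
  refine ⟨T0, fun h hh hw => ?_⟩
  have hm : Mode D C μ κ h := mem_QQ.1 hh
  -- the maximum on the cube
  have hcomp : IsCompact (Set.Icc (0 : Fin (2 * c + 1) → ℝ) (fun _ => (D.d : ℝ))) := isCompact_Icc
  have hne : (Set.Icc (0 : Fin (2 * c + 1) → ℝ) (fun _ => (D.d : ℝ))).Nonempty := ⟨0, le_refl _, fun _ => hdp.le⟩
  have hcont : Continuous fun b : Fin (2 * c + 1) → ℝ => ‖h (rc b)‖ := by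
    refine (hm.sec.diff.continuous.comp ?_).norm
    exact continuous_pi fun j => Complex.continuous_ofReal.comp (continuous_apply j)
  obtain ⟨b0, hb0, hmax⟩ := hcomp.exists_isMaxOn hne hcont.continuousOn
  set S : ℝ := ‖h (rc b0)‖ with hS
  have hS0 : 0 ≤ S := norm_nonneg _
  have hcube : ∀ b : Fin (2 * c + 1) → ℝ, (∀ j, 0 ≤ b j ∧ b j ≤ D.d) → ‖h (rc b)‖ ≤ S := by
    intro b hb
    exact hmax ⟨fun j => (hb j).1, fun j => (hb j).2⟩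
  have hgrow := h3 h hm S hcube
  have hSle : S ≤ E * S / 2 ^ T0 := by
    refine pdl_schwarz hm.sec.diff T0 hw (rc b0) fun t ht => ?_
    refine (hgrow _).trans (mul_le_mul_of_nonneg_right (Real.exp_le_exp.2 ?_) hS0)
    refine mul_le_mul_of_nonneg_left ?_ hA
    have : nsq (t • rc b0) ≤ 4 * ((2 * c + 1 : ℕ) * (D.d : ℝ) ^ 2) := by
      unfold nsq
      have h4 : ∀ j ∈ Finset.univ, ‖(t • rc b0) j‖ ^ 2 ≤ 4 * (D.d : ℝ) ^ 2 := by
        intro j _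
        rw [Pi.smul_apply, norm_smul, mul_pow]
        have h5 : ‖rc b0 j‖ ≤ D.d := by
          simp only [rc, Complex.norm_real, Real.norm_eq_abs]
          rw [abs_of_nonneg (hb0.1 j)]
          exact hb0.2 j
        have h6 : ‖t‖ ^ 2 ≤ 4 := by nlinarith [norm_nonneg t]
        exact mul_le_mul h6 (pow_le_pow_left₀ (norm_nonneg _) h5 2) (by positivity) (by norm_num)
      refine (Finset.sum_le_card_nsmul _ _ _ h4).trans (le_of_eq ?_)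
      rw [Finset.card_univ, Fintype.card_fin, nsmul_eq_mul]; ring
    linarith
  have hSz : S = 0 := by
    by_contra hne0
    have hSp : 0 < S := lt_of_le_of_ne hS0 (Ne.symm hne0)
    have h2T : (0 : ℝ) < 2 ^ T0 := by positivity
    rw [le_div_iff₀ h2T] at hSle
    have h7 : S * (2 * E) < S * 2 ^ T0 := mul_lt_mul_of_pos_left hT0 hSp
    have hEp : 0 < E := Real.exp_pos _
    have h8 : 0 < S * E := mul_pos hSp hEp
    nlinarith
  funext u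
  have := hgrow u
  rw [hSz, mul_zero] at this
  simpa using this

end Pool.Agent.LT
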