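import Pool.Agent.Lib.MP_f58a57_nt.LT.C.CDefs
import Pool.Agent.Lib.MP_f58a57_nt.LT.C.Q1
import Pool.Agent.Lib.MP_f58a57_nt.LT.C.Q2
import Pool.Agent.Lib.MP_f58a57_nt.LT.C.P

/-!
# MP_f58a57_nt, large transcendence degree, part C (row lt-C-Q3)

C.2: finite dimension, uniformly in kappa.
-/

open Complex Matrix MeasureTheory

noncomputable section

namespace Pool.Agent.LT

variable {c : ℕ}

namespace Q3_

theorem ee_ne_zero (x : ℂ) : ee x ≠ 0 := Complex.exp_ne_zero _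

/-- the jets of order `< T` -/
def jet (D : Dat c) (C : (Fin (2 * c + 1) → ℤ) → ℂ) (μ : ℂ) (κ : ℤ) (T : ℕ) : QQ D C μ κ →ₗ[ℂ] (Wd (2 * c + 1) T → ℂ) where
  toFun h w := pdl w.l (h : VN c → ℂ) 0
  map_add' a b := by
    funext w
    have ha : Differentiable ℂ (a : VN c → ℂ) := (mem_QQ.1 a.2).sec.diff
    have hb : Differentiable ℂ (b : VN c → ℂ) := (mem_QQ.1 b.2).sec.diff
    exact pdl_add ha hb w.l 0
  map_smul' t a := by
    funext w
    have ha : Differentiable ℂ (a : VN c → ℂ) := (mem_QQ.1 a.2).sec.diff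
    exact pdl_smul ha t w.l 0

/-- the shift -/
def sh {D : Dat c} {Φ : VN c → VN c → ℂ} {p p' : VN c} {nn : Fin (2 * c + 1) → ℤ} {C5 : ℂ} {m : ℤ} (hJ : Jump D Φ p p' nn C5 m)
    (C : (Fin (2 * c + 1) → ℤ) → ℂ) (μ : ℂ) (κ i : ℤ) : QQ D C μ κ →ₗ[ℂ] QQ D C μ (κ - i * m * D.d) where
  toFun h := ⟨_, QQ_shift hJ κ i h.2⟩
  map_add' a b := by
    apply Subtype.ext
    funext u
    show ((a : VN c → ℂ) + (b : VN c → ℂ)) _ * _ = _
    simp only [Pi.add_apply, add_mul, Submodule.coe_add]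
  map_smul' t a := by
    apply Subtype.ext
    funext u
    show (t • (a : VN c → ℂ)) _ * _ = _
    simp only [Pi.smul_apply, smul_eq_mul, RingHom.id_apply, SetLike.val_smul, mul_assoc]

theorem sh_inj {D : Dat c} {Φ : VN c → VN c → ℂ} {p p' : VN c} {nn : Fin (2 * c + 1) → ℤ} {C5 : ℂ} {m : ℤ} (hJ : Jump D Φ p p' nn C5 m)
    (C : (Fin (2 * c + 1) → ℤ) → ℂ) (μ : ℂ) (κ i : ℤ) : Function.Injective (sh hJ C μ κ i) := by
  rw [injective_iff_map_eq_zero]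
  intro a ha
  apply Subtype.ext
  funext u
  have h1 : ((sh hJ C μ κ i a : QQ D C μ (κ - i * m * D.d)) : VN c → ℂ) (u - (i : ℂ) • p) = 0 := by
    rw [ha]
    rfl
  have h2 : (a : VN c → ℂ) (u - (i : ℂ) • p + (i : ℂ) • p) * ee (-(i * ((u - (i : ℂ) • p) ⬝ᵥ (D.L *ᵥ p')))) = 0 := h1
  rw [sub_add_cancel] at h2
  exact (mul_eq_zero.1 h2).resolve_right (ee_ne_zero _)

theorem wd_of_list {n T : ℕ} (w : List (Fin n)) (hw : w.length < T) : ∃ α : Wd n T, α.l = w :=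
  ⟨⟨⟨w.length, hw⟩, fun i => w.get i⟩, by simp [Wd.l]⟩

end Q3_

open Q3_ in
theorem QQ_fin {D : Dat c} {Φ : VN c → VN c → ℂ} {p p' : VN c} {nn : Fin (2 * c + 1) → ℤ} {C5 : ℂ} {m : ℤ} (hJ : Jump D Φ p p' nn C5 m)
    {C : (Fin (2 * c + 1) → ℤ) → ℂ} (hC : MulOK D.d D.z C) (μ : ℂ) :
    ∃ d1 : ℕ, ∀ κ : ℤ, Module.Finite ℂ (QQ D C μ κ) ∧ Module.finrank ℂ (QQ D C μ κ) ≤ d1 := by
  classical
  choose T0 hT0 using fun κ : ℤ => QQ_van hC μ κ
  have hmd : 0 < m * (D.d : ℤ) := mul_pos (by linarith [hJ.pos]) (by exact_mod_cast D.hd)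
  set T1 : ℕ := (Finset.Ico (0 : ℤ) (m * D.d)).sup T0 with hT1
  refine ⟨Fintype.card (Wd (2 * c + 1) T1), fun κ => ?_⟩
  set i : ℤ := κ / (m * D.d) with hi
  have hκ : κ - i * m * D.d = κ % (m * D.d) := by
    rw [Int.emod_def, hi]
    ring
  have hmem : κ - i * m * D.d ∈ Finset.Ico (0 : ℤ) (m * D.d) := by
    rw [hκ, Finset.mem_Ico]
    exact ⟨Int.emod_nonneg _ hmd.ne', Int.emod_lt_of_pos _ hmd⟩
  have hle : T0 (κ - i * m * D.d) ≤ T1 := Finset.le_sup (f := T0) hmem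
  let J : QQ D C μ κ →ₗ[ℂ] (Wd (2 * c + 1) T1 → ℂ) := (jet D C μ (κ - i * m * D.d) T1).comp (sh hJ C μ κ i)
  have hJi : Function.Injective J := by
    have hj : Function.Injective (jet D C μ (κ - i * m * D.d) T1) := by
      rw [injective_iff_map_eq_zero]
      intro a ha
      apply Subtype.ext
      apply hT0 (κ - i * m * D.d) _ a.2
      intro w hw
      obtain ⟨α, rfl⟩ := wd_of_list w (hw.trans_le hle)
      exact congrFun ha α
    exact hj.comp (sh_inj hJ C μ κ i)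
  have : Module.Finite ℂ (QQ D C μ κ) := Module.Finite.of_injective J hJi
  refine ⟨this, ?_⟩
  have h1 := LinearMap.finrank_le_finrank_of_injective hJi
  rwa [Module.finrank_fintype_fun_eq_card] at h1

end Pool.Agent.LT
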