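import Pool.Agent.Lib.MP_f58a57_nt.LT.C.CDefs
import Pool.Agent.Lib.MP_f58a57_nt.LT.C.M7
import Pool.Agent.Lib.MP_f58a57_nt.LT.C.P

/-!
# MP_f58a57_nt, large transcendence degree, part C (row lt-C-U1)

The functions u -> d_s^w hk(kappa)(u, 0) belong to Q_kappa (differentiate the identities of hk_mode in s; the factors do not depend on s).
-/

open Complex Matrix MeasureTheory

noncomputable section

namespace Pool.Agent.LT

variable {c : ℕ}

/-- constants come out of the derivatives -/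
private theorem U1_pdl_const_mul {n : ℕ} (K : ℂ) {F : (Fin n → ℂ) → ℂ} (hF : Differentiable ℂ F) (w : List (Fin n)) (u : Fin n → ℂ) :
    pdl w (fun s => K * F s) u = K * pdl w F u := by
  have h := pdlC_sum (n := n) ({()} : Finset Unit) (fun _ => K) (fun _ => F) (fun _ _ => hF) w u
  simpa only [Finset.sum_singleton] using h

private theorem U1_comp {n : ℕ} (H : (Fin n → ℂ) → (Fin n → ℂ) → ℂ) {w : List (Fin n)}
    (h : Differentiable ℂ (fun q : (Fin n → ℂ) × (Fin n → ℂ) => pdl w (H q.1) q.2)) :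
    Differentiable ℂ (fun u : Fin n → ℂ => pdl w (H u) 0) := by
  generalize hG : (fun q : (Fin n → ℂ) × (Fin n → ℂ) => pdl w (H q.1) q.2) = G at h
  have h2 : Differentiable ℂ (fun u : Fin n → ℂ => ((u, (0 : Fin n → ℂ)) : (Fin n → ℂ) × (Fin n → ℂ))) :=
    differentiable_id.prodMk (differentiable_const _)
  have h3 : (fun u : Fin n → ℂ => pdl w (H u) 0) = G ∘ (fun u : Fin n → ℂ => (u, (0 : Fin n → ℂ))) := by
    rw [← hG]; rfl
  rw [h3]
  exact h.comp h2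

theorem hk_mem_QQ {D : Dat c} {Φ : VN c → VN c → ℂ} {C C' : (Fin (2 * c + 1) → ℤ) → ℂ} (hK : Ker D Φ C C') {μ : ℂ} (hμ : Mu D C μ) (κ : ℤ)
    (w : List (Fin (2 * c + 1))) : (fun u => pdl w (hk D Φ μ κ u) 0) ∈ QQ D C μ κ := by
  have hd : ∀ u, Differentiable ℂ (hk D Φ μ κ u) := fun u => (hk_secs hK hμ κ u).diff
  rw [mem_QQ]
  refine ⟨⟨?_, fun a u => ?_, fun k hk0 u => ?_⟩, fun ξ u => ?_⟩
  · exact U1_comp (hk D Φ μ κ) (pdl_param (hk D Φ μ κ) (hk_diff hK μ κ) w)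
  · have h1 : hk D Φ μ κ (u + lat D.d a) = fun s => (C a * ee (-(lat D.d a ⬝ᵥ (D.Lt *ᵥ u)))) * hk D Φ μ κ u s := by
      funext s
      exact (hk_mode hK hμ κ s).sec.per a u
    show pdl w (hk D Φ μ κ (u + lat D.d a)) 0 = _ * pdl w (hk D Φ μ κ u) 0
    rw [h1, U1_pdl_const_mul _ (hd u)]
  · have h1 : hk D Φ μ κ (u + k) = hk D Φ μ κ u := by
      funext s
      exact (hk_mode hK hμ κ s).sec.ker k hk0 u
    show pdl w (hk D Φ μ κ (u + k)) 0 = pdl w (hk D Φ μ κ u) 0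
    rw [h1]
  · have h1 : hk D Φ μ κ (u + ξ • D.gc) =
        fun s => (ee (-(D.nu * ξ ^ 2 / 2) - ξ * (D.v0 ⬝ᵥ u) - (μ - κ / D.d) * ξ)) * hk D Φ μ κ u s := by
      funext s
      exact (hk_mode hK hμ κ s).g ξ u
    show pdl w (hk D Φ μ κ (u + ξ • D.gc)) 0 = _ * pdl w (hk D Φ μ κ u) 0
    rw [h1, U1_pdl_const_mul _ (hd u)]

end Pool.Agent.LT
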