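import Pool.Agent.Lib.MP_f58a57_nt.LT.C.CDefs
import Pool.Agent.Lib.MP_f58a57_nt.LT.C.U1
import Pool.Agent.Lib.MP_f58a57_nt.LT.C.Q3

/-!
# MP_f58a57_nt, large transcendence degree, part C (row lt-C-U2)

The subspace W_kappa of the relations has codimension <= d1 (kernel of the linear map q -> sum q_l d_s^(s l) hk(kappa)(. ,0) with values in Q_kappa).
-/

open Complex Matrix MeasureTheory

noncomputable section

namespace Pool.Agent.LT

variable {c : ℕ}

/-- the relations between the functions `u ↦ ∂_s^(s l) h_κ (u, 0)` -/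
def WW (D : Dat c) (Φ : VN c → VN c → ℂ) (μ : ℂ) (κ : ℤ) {j : ℕ} (s : Fin j → List (Fin (2 * c + 1))) : Submodule ℂ (Fin j → ℂ) where
  carrier := {q | ∀ u, ∑ l, q l * pdl (s l) (hk D Φ μ κ u) 0 = 0}
  add_mem' := by
    intro a b ha hb u
    simp only [Pi.add_apply, add_mul, Finset.sum_add_distrib, ha u, hb u, add_zero]
  zero_mem' := by intro u; simp
  smul_mem' := by
    intro t a ha u
    simp only [Pi.smul_apply, smul_eq_mul, mul_assoc, ← Finset.mul_sum, ha u, mul_zero]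

theorem WW_rank {D : Dat c} {Φ : VN c → VN c → ℂ} {C C' : (Fin (2 * c + 1) → ℤ) → ℂ} (hK : Ker D Φ C C') {μ : ℂ} (hμ : Mu D C μ) :
    ∃ d1 : ℕ, 1 ≤ d1 ∧ ∀ (κ : ℤ) (j : ℕ) (s : Fin j → List (Fin (2 * c + 1))), j ≤ Module.finrank ℂ (WW D Φ μ κ s) + d1 := by
  obtain ⟨p, p', nn, C5, m, hJ⟩ := hK.exists_jump
  obtain ⟨d1, hd1⟩ := QQ_fin hJ hK.mulu μ
  refine ⟨d1 + 1, by omega, fun κ j s => ?_⟩
  obtain ⟨hfin, hle⟩ := hd1 κ
  -- the linear map with kernel `WW`
  let e : Fin j → QQ D C μ κ := fun l => ⟨fun u => pdl (s l) (hk D Φ μ κ u) 0, hk_mem_QQ hK hμ κ (s l)⟩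
  let L : (Fin j → ℂ) →ₗ[ℂ] QQ D C μ κ := Fintype.linearCombination ℂ e
  have hker : LinearMap.ker L = WW D Φ μ κ s := by
    ext q
    rw [LinearMap.mem_ker]
    have h1 : L q = 0 ↔ ((L q : QQ D C μ κ) : VN c → ℂ) = 0 := by
      constructor
      · intro h; rw [h]; rfl
      · intro h; exact Subtype.ext h
    have h2 : ((L q : QQ D C μ κ) : VN c → ℂ) = fun u => ∑ l, q l * pdl (s l) (hk D Φ μ κ u) 0 := by
      have h3 : L q = ∑ l, q l • e l := Fintype.linearCombination_apply ℂ e q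
      rw [h3]
      funext u
      have h4 : ((∑ l, q l • e l : QQ D C μ κ) : VN c → ℂ) = ∑ l, q l • ((e l : QQ D C μ κ) : VN c → ℂ) := by
        push_cast
        rfl
      rw [h4, Finset.sum_apply]
      rfl
    rw [h1, h2]
    constructor
    · intro h u
      exact congrFun h u
    · intro h
      funext u
      exact h u
  have hrn := LinearMap.finrank_range_add_finrank_ker L
  have hdim : Module.finrank ℂ (Fin j → ℂ) = j := by simp
  have hr : Module.finrank ℂ (LinearMap.range L) ≤ Module.finrank ℂ (QQ D C μ κ) := Submodule.finrank_le _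
  rw [hker] at hrn
  omega

/-- intersections over `|κ| < i` -/
theorem WW_inf_rank {D : Dat c} {Φ : VN c → VN c → ℂ} {μ : ℂ} {d1 : ℕ}
    (h : ∀ (κ : ℤ) (j : ℕ) (s : Fin j → List (Fin (2 * c + 1))), j ≤ Module.finrank ℂ (WW D Φ μ κ s) + d1)
    (i j : ℕ) (s : Fin j → List (Fin (2 * c + 1))) :
    j ≤ Module.finrank ℂ (⨅ κ ∈ Finset.Ioo (-(i : ℤ)) i, WW D Φ μ κ s : Submodule ℂ (Fin j → ℂ)) + 2 * i * d1 := by
  have key : ∀ S : Finset ℤ,
      j ≤ Module.finrank ℂ (⨅ κ ∈ S, WW D Φ μ κ s : Submodule ℂ (Fin j → ℂ)) + S.card * d1 := by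
    intro S
    induction S using Finset.induction_on with
    | empty =>
      have h0 : (⨅ κ ∈ (∅ : Finset ℤ), WW D Φ μ κ s : Submodule ℂ (Fin j → ℂ)) = ⊤ := by simp
      rw [h0, finrank_top]
      simp
    | insert a S ha ih =>
      rw [Finset.iInf_insert, Finset.card_insert_of_notMem ha]
      have h1 := Submodule.finrank_sup_add_finrank_inf_eq (WW D Φ μ a s) (⨅ κ ∈ S, WW D Φ μ κ s)
      have h2 : Module.finrank ℂ ((WW D Φ μ a s) ⊔ (⨅ κ ∈ S, WW D Φ μ κ s) : Submodule ℂ (Fin j → ℂ)) ≤ j := by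
        have := Submodule.finrank_le ((WW D Φ μ a s) ⊔ (⨅ κ ∈ S, WW D Φ μ κ s) : Submodule ℂ (Fin j → ℂ))
        simpa using this
      have h3 := h a j s
      have h4 : (S.card + 1) * d1 = S.card * d1 + d1 := by ring
      omega
  refine (key (Finset.Ioo (-(i : ℤ)) i)).trans ?_
  have hc : (Finset.Ioo (-(i : ℤ)) i).card ≤ 2 * i := by
    rw [Int.card_Ioo]
    omega
  exact Nat.add_le_add_left (Nat.mul_le_mul_right d1 hc) _

end Pool.Agent.LT
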