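import Pool.Agent.Lib.MP_f58a57_nt.LT.C.CDefs
import Pool.Agent.Lib.MP_f58a57_nt.LT.C.M4
import Pool.Agent.Lib.MP_f58a57_nt.LT.C.M5
import Pool.Agent.Lib.MP_f58a57_nt.LT.C.M6
import Pool.Agent.Lib.MP_f58a57_nt.LT.C.P

/-!
# MP_f58a57_nt, large transcendence degree, part C (row lt-C-U3)

Mixed derivatives of the modes: Cauchy estimate (twice pdlC_bound, with |hk kappa| <= exp(A - c1 kappa^2) on the unit polydiscs) and the sum over kappa (e.g. the difference Phi - sum over |kappa| < K of hk kappa is small on the unit polydiscs, so are its mixed derivatives; or uniform convergence).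
-/

open Complex Matrix MeasureTheory

noncomputable section

namespace Pool.Agent.LT

variable {c : ℕ}

namespace U3_

/-- iterated derivatives of a difference with a finite sum -/
theorem pdl_sub_sum {n : ℕ} {ι : Type} (s : Finset ι) (F0 : (Fin n → ℂ) → ℂ) (F : ι → (Fin n → ℂ) → ℂ)
    (h0 : Differentiable ℂ F0) (hF : ∀ i ∈ s, Differentiable ℂ (F i)) (w : List (Fin n)) :
    pdl w (fun u => F0 u - ∑ i ∈ s, F i u) = fun u => pdl w F0 u - ∑ i ∈ s, pdl w (F i) u := by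
  induction w with
  | nil => rfl
  | cons j w ih =>
    funext u
    change pd j (pdl w (fun u => F0 u - ∑ i ∈ s, F i u)) u = pd j (pdl w F0) u - ∑ i ∈ s, pd j (pdl w (F i)) u
    rw [ih]
    unfold pd
    have h1 : DifferentiableAt ℂ (pdl w F0) u := pdl_diff h0 w u
    have h2 : ∀ i ∈ s, DifferentiableAt ℂ (pdl w (F i)) u := fun i hi => pdl_diff (hF i hi) w u
    have h3 : HasFDerivAt (fun u => pdl w F0 u - ∑ i ∈ s, pdl w (F i) u)
        (fderiv ℂ (pdl w F0) u - ∑ i ∈ s, fderiv ℂ (pdl w (F i)) u) u := by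
      refine h1.hasFDerivAt.sub ?_
      exact HasFDerivAt.fun_sum fun i hi => (h2 i hi).hasFDerivAt
    rw [h3.fderiv]
    simp

variable {n : ℕ}

/-- the second variable -/
theorem diff_snd {Ψ : (Fin n → ℂ) → (Fin n → ℂ) → ℂ}
    (h : Differentiable ℂ (fun q : (Fin n → ℂ) × (Fin n → ℂ) => Ψ q.1 q.2)) (u : Fin n → ℂ) : Differentiable ℂ (Ψ u) := by
  have h1 : Differentiable ℂ (fun s : Fin n → ℂ => (u, s)) := (differentiable_const u).prodMk differentiable_id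
  exact h.comp h1

/-- the first variable of the derivative in the second variable -/
theorem diff_fst {Ψ : (Fin n → ℂ) → (Fin n → ℂ) → ℂ}
    (h : Differentiable ℂ (fun q : (Fin n → ℂ) × (Fin n → ℂ) => Ψ q.1 q.2)) (w : List (Fin n)) :
    Differentiable ℂ (fun u => pdl w (Ψ u) 0) := by
  have h1 : Differentiable ℂ (fun u : Fin n → ℂ => (u, (0 : Fin n → ℂ))) :=
    differentiable_id.prodMk (differentiable_const 0)
  exact (pdl_param Ψ h w).comp h1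

/-- the Cauchy estimate for mixed derivatives -/
theorem mix_le {Ψ : (Fin n → ℂ) → (Fin n → ℂ) → ℂ}
    (h : Differentiable ℂ (fun q : (Fin n → ℂ) × (Fin n → ℂ) => Ψ q.1 q.2)) {M : ℝ}
    (hM : ∀ u s : Fin n → ℂ, (∀ i, ‖u i‖ ≤ 1) → (∀ i, ‖s i‖ ≤ 1) → ‖Ψ u s‖ ≤ M) (w w' : List (Fin n)) :
    ‖mix Ψ w w'‖ ≤ (w.length : ℝ) ^ w.length * ((w'.length : ℝ) ^ w'.length * M) := by
  unfold mix
  refine pdlC_bound (diff_fst h w') ?_ w
  intro u hu
  exact pdlC_bound (diff_snd h u) (fun s hs => hM u s hu hs) w'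

/-- mixed derivatives of a difference with a finite sum -/
theorem mix_sub_sum {ι : Type} (t : Finset ι) {Ψ0 : (Fin n → ℂ) → (Fin n → ℂ) → ℂ} {Ψ : ι → (Fin n → ℂ) → (Fin n → ℂ) → ℂ}
    (h0 : Differentiable ℂ (fun q : (Fin n → ℂ) × (Fin n → ℂ) => Ψ0 q.1 q.2))
    (h : ∀ i, Differentiable ℂ (fun q : (Fin n → ℂ) × (Fin n → ℂ) => Ψ i q.1 q.2)) (w w' : List (Fin n)) :
    mix (fun u s => Ψ0 u s - ∑ i ∈ t, Ψ i u s) w w' = mix Ψ0 w w' - ∑ i ∈ t, mix (Ψ i) w w' := by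
  unfold mix
  have h1 : (fun u => pdl w' ((fun u s => Ψ0 u s - ∑ i ∈ t, Ψ i u s) u) 0)
      = fun u => pdl w' (Ψ0 u) 0 - ∑ i ∈ t, pdl w' (Ψ i u) 0 := by
    funext u
    exact congrFun (pdl_sub_sum t (Ψ0 u) (fun i => Ψ i u) (diff_snd h0 u) (fun i _ => diff_snd (h i) u) w') 0
  rw [h1]
  exact congrFun (pdl_sub_sum t (fun u => pdl w' (Ψ0 u) 0) (fun i u => pdl w' (Ψ i u) 0) (diff_fst h0 w')
    (fun i _ => diff_fst (h i) w') w) 0

/-- Gaussian sums over the integers -/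
theorem summable_gauss (A c1 : ℝ) (hc1 : 0 < c1) : Summable (fun κ : ℤ => Real.exp (A - c1 * (κ : ℝ) ^ 2)) := by
  have h0 : Summable (fun k : ℕ => Real.exp A * Real.exp (k * (-c1))) :=
    ((Real.summable_exp_nat_mul_iff (a := -c1)).2 (by linarith)).mul_left _
  have h1 : ∀ k : ℕ, Real.exp (A - c1 * (k : ℝ) ^ 2) ≤ Real.exp A * Real.exp (k * (-c1)) := by
    intro k
    rw [← Real.exp_add]
    refine Real.exp_le_exp.2 ?_
    have h2 : (k : ℝ) ≤ (k : ℝ) ^ 2 := by exact_mod_cast Nat.le_self_pow (by norm_num) k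
    nlinarith
  have h3 : Summable (fun k : ℕ => Real.exp (A - c1 * (k : ℝ) ^ 2)) :=
    h0.of_nonneg_of_le (fun _ => (Real.exp_pos _).le) h1
  refine Summable.of_nat_of_neg ?_ ?_
  · simpa using h3
  · simpa using h3

theorem nsq_le (u : VN c) (hu : ∀ i, ‖u i‖ ≤ 1) : nsq u ≤ 2 * c + 1 := by
  unfold nsq
  calc ∑ i, ‖u i‖ ^ 2 ≤ ∑ _i : Fin (2 * c + 1), (1 : ℝ) := by
        refine Finset.sum_le_sum fun i _ => ?_
        have := hu i
        have h0 := norm_nonneg (u i)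
        nlinarith
    _ = 2 * c + 1 := by simp

/-- the bound on the unit polydiscs -/
theorem poly_bound {D : Dat c} {Φ : VN c → VN c → ℂ} {C C' : (Fin (2 * c + 1) → ℤ) → ℂ} (hK : Ker D Φ C C') {μ : ℂ} (hμ : Mu D C μ) :
    ∃ A c1 : ℝ, 0 ≤ A ∧ 0 < c1 ∧ ∀ (κ : ℤ) (u s : VN c), (∀ i, ‖u i‖ ≤ 1) → (∀ i, ‖s i‖ ≤ 1) →
      ‖hk D Φ μ κ u s‖ ≤ Real.exp (A - c1 * (κ : ℝ) ^ 2) := by
  obtain ⟨A, c1, hA, hc1, h⟩ := hk_bound hK hμ
  refine ⟨A * (1 + (2 * c + 1) + (2 * c + 1)), c1, by positivity, hc1, ?_⟩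
  intro κ u s hu hs
  refine (h κ u s).trans (Real.exp_le_exp.2 ?_)
  have h1 := nsq_le u hu
  have h2 := nsq_le s hs
  have h3 : A * (1 + nsq u + nsq s) ≤ A * (1 + (2 * c + 1) + (2 * c + 1)) :=
    mul_le_mul_of_nonneg_left (by linarith) hA
  linarith

theorem pow_self_le {a T : ℕ} (h : a < T) : (a : ℝ) ^ a ≤ (T : ℝ) ^ T := by
  have hT : (1 : ℝ) ≤ T := by exact_mod_cast (by omega : 1 ≤ T)
  calc (a : ℝ) ^ a ≤ (T : ℝ) ^ a := pow_le_pow_left₀ (by positivity) (by exact_mod_cast h.le) a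
    _ ≤ (T : ℝ) ^ T := pow_le_pow_right₀ hT h.le

end U3_

theorem mix_bound {D : Dat c} {Φ : VN c → VN c → ℂ} {C C' : (Fin (2 * c + 1) → ℤ) → ℂ} (hK : Ker D Φ C C') {μ : ℂ} (hμ : Mu D C μ) :
    ∃ A c1 : ℝ, 0 ≤ A ∧ 0 < c1 ∧ ∀ (κ : ℤ) (T : ℕ) (w w' : List (Fin (2 * c + 1))), w.length < T → w'.length < T →
      ‖mix (hk D Φ μ κ) w w'‖ ≤ (T : ℝ) ^ (2 * T) * Real.exp (A - c1 * (κ : ℝ) ^ 2) := by
  obtain ⟨A, c1, hA, hc1, h⟩ := U3_.poly_bound hK hμ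
  refine ⟨A, c1, hA, hc1, ?_⟩
  intro κ T w w' hw hw'
  refine (U3_.mix_le (hk_diff hK μ κ) (h κ) w w').trans ?_
  rw [← mul_assoc]
  refine mul_le_mul_of_nonneg_right ?_ (Real.exp_pos _).le
  have h2T : (T : ℝ) ^ (2 * T) = (T : ℝ) ^ T * (T : ℝ) ^ T := by ring
  rw [h2T]
  exact mul_le_mul (U3_.pow_self_le hw) (U3_.pow_self_le hw') (by positivity) (by positivity)

theorem mix_hasSum {D : Dat c} {Φ : VN c → VN c → ℂ} {C C' : (Fin (2 * c + 1) → ℤ) → ℂ} (hK : Ker D Φ C C') {μ : ℂ} (hμ : Mu D C μ)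
    (w w' : List (Fin (2 * c + 1))) : HasSum (fun κ : ℤ => mix (hk D Φ μ κ) w w') (mix Φ w w') := by
  obtain ⟨A, c1, hA, hc1, h⟩ := U3_.poly_bound hK hμ
  have hg := U3_.summable_gauss A c1 hc1
  set K : ℝ := (w.length : ℝ) ^ w.length * (w'.length : ℝ) ^ w'.length with hKdef
  have htail : ∀ t : Finset ℤ, ‖mix Φ w w' - ∑ κ ∈ t, mix (hk D Φ μ κ) w w'‖
      ≤ K * ∑' κ : {x // x ∉ t}, Real.exp (A - c1 * ((κ : ℤ) : ℝ) ^ 2) := by
    intro t
    rw [← U3_.mix_sub_sum t hK.diff (fun κ => hk_diff hK μ κ) w w']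
    have hd : Differentiable ℂ (fun q : VN c × VN c => Φ q.1 q.2 - ∑ κ ∈ t, hk D Φ μ κ q.1 q.2) :=
      hK.diff.sub (Differentiable.fun_sum fun κ _ => hk_diff hK μ κ)
    refine (U3_.mix_le hd (M := ∑' κ : {x // x ∉ t}, Real.exp (A - c1 * ((κ : ℤ) : ℝ) ^ 2)) ?_ w w').trans
      (le_of_eq (by rw [hKdef]; ring))
    intro u s hu hs
    have hs1 := hk_sum hK hμ u s
    have h1 := hs1.summable.sum_add_tsum_subtype_compl t
    rw [hs1.tsum_eq] at h1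
    have h2 : Φ u s - ∑ κ ∈ t, hk D Φ μ κ u s = ∑' κ : {x // x ∉ t}, hk D Φ μ κ u s := by
      rw [← h1]; ring
    rw [h2]
    have h3 : Summable (fun κ : {x // x ∉ t} => Real.exp (A - c1 * ((κ : ℤ) : ℝ) ^ 2)) := hg.subtype _
    exact tsum_of_norm_bounded h3.hasSum (fun κ => h κ u s hu hs)
  have ht0 := tendsto_tsum_compl_atTop_zero (fun κ : ℤ => Real.exp (A - c1 * (κ : ℝ) ^ 2))
  have ht1 := ht0.const_mul K
  rw [mul_zero] at ht1
  unfold HasSum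
  rw [SummationFilter.unconditional_filter]
  rw [tendsto_iff_norm_sub_tendsto_zero]
  refine squeeze_zero (fun t => norm_nonneg _) (fun t => ?_) ht1
  rw [norm_sub_rev]
  exact htail t

end Pool.Agent.LT
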