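import Pool.Agent.Lib.MP_f58a57_nt.LT.C.CDefs

/-!
# MP_f58a57_nt, large transcendence degree, part C (row lt-C-U4)

Real analysis: the Gaussian tail.
-/

open Complex Matrix MeasureTheory

noncomputable section

namespace Pool.Agent.LT

variable {c : ℕ}

namespace U4_

lemma summable_gauss {a : ℝ} (ha : 0 < a) : Summable (fun κ : ℤ => Real.exp (-(a * (κ : ℝ) ^ 2))) := by
  have hnat : Summable (fun n : ℕ => Real.exp (-(a * (n : ℝ)))) := by
    have h1 : Summable (fun n : ℕ => (Real.exp (-a)) ^ n) :=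
      summable_geometric_of_lt_one (Real.exp_pos _).le (by
        rw [Real.exp_lt_one_iff]; linarith)
    refine h1.congr (fun n => ?_)
    rw [← Real.exp_nat_mul]
    congr 1
    ring
  have hsq : ∀ n : ℕ, (n : ℝ) ≤ (n : ℝ) ^ 2 := by
    intro n
    have : n ≤ n ^ 2 := by
      rcases Nat.eq_zero_or_pos n with h | h
      · simp [h]
      · nlinarith
    exact_mod_cast this
  have hnat2 : Summable (fun n : ℕ => Real.exp (-(a * (n : ℝ) ^ 2))) := by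
    refine Summable.of_nonneg_of_le (fun n => (Real.exp_pos _).le) (fun n => ?_) hnat
    apply Real.exp_le_exp.mpr
    have := mul_le_mul_of_nonneg_left (hsq n) ha.le
    linarith
  refine Summable.of_nat_of_neg ?_ ?_
  · simpa using hnat2
  · simpa using hnat2

end U4_

theorem gauss_tail {c1 : ℝ} (hc : 0 < c1) : ∃ A : ℝ, ∀ i : ℕ, Summable (fun κ : ℤ => if |κ| < i then (0 : ℝ) else Real.exp (-(c1 * (κ : ℝ) ^ 2))) ∧
    ∑' κ : ℤ, (if |κ| < i then (0 : ℝ) else Real.exp (-(c1 * (κ : ℝ) ^ 2))) ≤ Real.exp (A - c1 * (i : ℝ) ^ 2 / 2) := by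
  have hS := U4_.summable_gauss (half_pos hc)
  have hpos : 0 < ∑' κ : ℤ, Real.exp (-(c1 / 2 * (κ : ℝ) ^ 2)) :=
    hS.tsum_pos (fun κ => (Real.exp_pos _).le) 0 (Real.exp_pos _)
  refine ⟨Real.log (∑' κ : ℤ, Real.exp (-(c1 / 2 * (κ : ℝ) ^ 2))), fun i => ?_⟩
  have hle : ∀ κ : ℤ, (if |κ| < i then (0 : ℝ) else Real.exp (-(c1 * (κ : ℝ) ^ 2))) ≤
      Real.exp (-(c1 * (i : ℝ) ^ 2 / 2)) * Real.exp (-(c1 / 2 * (κ : ℝ) ^ 2)) := by
    intro κ
    split_ifs with h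
    · exact mul_nonneg (Real.exp_pos _).le (Real.exp_pos _).le
    · rw [← Real.exp_add]
      apply Real.exp_le_exp.mpr
      have h1 : (i : ℤ) ≤ |κ| := not_lt.mp h
      have h2 : (i : ℝ) ≤ |(κ : ℝ)| := by exact_mod_cast h1
      have h3 : (i : ℝ) ^ 2 ≤ (κ : ℝ) ^ 2 := by
        rw [← sq_abs (κ : ℝ)]
        exact pow_le_pow_left₀ (Nat.cast_nonneg _) h2 2
      nlinarith
  have hnn : ∀ κ : ℤ, 0 ≤ (if |κ| < i then (0 : ℝ) else Real.exp (-(c1 * (κ : ℝ) ^ 2))) := by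
    intro κ
    split_ifs
    · exact le_refl _
    · exact (Real.exp_pos _).le
  have hsum : Summable (fun κ : ℤ => if |κ| < i then (0 : ℝ) else Real.exp (-(c1 * (κ : ℝ) ^ 2))) :=
    Summable.of_nonneg_of_le hnn hle (hS.mul_left _)
  refine ⟨hsum, ?_⟩
  calc ∑' κ : ℤ, (if |κ| < i then (0 : ℝ) else Real.exp (-(c1 * (κ : ℝ) ^ 2)))
      ≤ ∑' κ : ℤ, Real.exp (-(c1 * (i : ℝ) ^ 2 / 2)) * Real.exp (-(c1 / 2 * (κ : ℝ) ^ 2)) :=
        hsum.tsum_le_tsum hle (hS.mul_left _)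
    _ = Real.exp (-(c1 * (i : ℝ) ^ 2 / 2)) * ∑' κ : ℤ, Real.exp (-(c1 / 2 * (κ : ℝ) ^ 2)) := tsum_mul_left
    _ = Real.exp (Real.log (∑' κ : ℤ, Real.exp (-(c1 / 2 * (κ : ℝ) ^ 2))) - c1 * (i : ℝ) ^ 2 / 2) := by
        rw [sub_eq_add_neg, Real.exp_add, Real.exp_log hpos, mul_comm]

end Pool.Agent.LT
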