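import Pool.Agent.Lib.MP_f58a57_nt.LT.C.CDefs
import Pool.Agent.Lib.MP_f58a57_nt.LT.C.La1
import Pool.Agent.Lib.MP_f58a57_nt.LT.C.U2
import Pool.Agent.Lib.MP_f58a57_nt.LT.C.U3
import Pool.Agent.Lib.MP_f58a57_nt.LT.C.U4

/-!
# MP_f58a57_nt, large transcendence degree, part C (row lt-C-U5)

THE UPPER BOUND (C.3). i(l) := l / (2 d1) (natural division, l : Fin j counted from 0), S l := inf over |kappa| < i(l) of WW kappa s, E from exists_unitary_cols; for q in S l: (B_(r,s) q)_a = sum over |kappa| >= i(l); bound j T^(2T) exp(A) gauss_tail; i(l) >= (l+1)/(2 d1) - 1, so i^2 >= (l+1)^2/(8 d1^2) - 1; constants are absorbed by C T log T (T >= 2).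
-/

open Complex Matrix MeasureTheory

noncomputable section

namespace Pool.Agent.LT

variable {c : ℕ}

namespace U5_

private theorem pdl_zero {n : ℕ} (w : List (Fin n)) (u : Fin n → ℂ) : pdl w (fun _ : Fin n → ℂ => (0 : ℂ)) u = 0 := by
  have h := pdlC_sum (n := n) (∅ : Finset ℕ) (fun _ => (0 : ℂ)) (fun _ _ => (0 : ℂ)) (fun i hi => by simp at hi) w u
  simpa using h

theorem slice_diff {n : ℕ} (H : (Fin n → ℂ) → (Fin n → ℂ) → ℂ)
    (h : Differentiable ℂ (fun q : (Fin n → ℂ) × (Fin n → ℂ) => H q.1 q.2)) (w : List (Fin n)) :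
    Differentiable ℂ (fun u : Fin n → ℂ => pdl w (H u) 0) := by
  have h1 := pdl_param H h w
  have h2 : Differentiable ℂ (fun u : Fin n → ℂ => ((u, 0) : (Fin n → ℂ) × (Fin n → ℂ))) :=
    differentiable_id.prodMk (differentiable_const _)
  generalize hG : (fun q : (Fin n → ℂ) × (Fin n → ℂ) => pdl w (H q.1) q.2) = G at h1
  have h3 : (fun u : Fin n → ℂ => pdl w (H u) 0) = fun u => G (u, 0) := by
    rw [← hG]
  rw [h3]
  exact Differentiable.comp (g := G) h1 h2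

/-- the modes with `|κ| < i` do not contribute -/
private theorem mode_zero {D : Dat c} {Φ : VN c → VN c → ℂ} {C C' : (Fin (2 * c + 1) → ℤ) → ℂ} (hK : Ker D Φ C C') (μ : ℂ) (κ : ℤ)
    {j : ℕ} (s : Fin j → List (Fin (2 * c + 1))) (q : Fin j → ℂ) (hq : q ∈ WW D Φ μ κ s) (w : List (Fin (2 * c + 1))) :
    ∑ m, mix (hk D Φ μ κ) w (s m) * q m = 0 := by
  have hd : ∀ m ∈ (Finset.univ : Finset (Fin j)), Differentiable ℂ (fun u : VN c => pdl (s m) (hk D Φ μ κ u) 0) := by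
    intro m _
    exact slice_diff (hk D Φ μ κ) (hk_diff hK μ κ) (s m)
  have h := pdlC_sum (Finset.univ : Finset (Fin j)) q (fun m u => pdl (s m) (hk D Φ μ κ u) 0) hd w 0
  have h0 : (fun u : VN c => ∑ m, q m * pdl (s m) (hk D Φ μ κ u) 0) = fun _ => 0 := by
    funext u
    exact hq u
  rw [h0, pdl_zero] at h
  rw [h]
  refine Finset.sum_congr rfl fun m _ => ?_
  rw [mix]
  ring

private theorem main_est {D : Dat c} {Φ : VN c → VN c → ℂ} {C C' : (Fin (2 * c + 1) → ℤ) → ℂ} (hK : Ker D Φ C C') {μ : ℂ} (hμ : Mu D C μ)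
    {A c1 A' : ℝ} (hmb : ∀ (κ : ℤ) (T : ℕ) (w w' : List (Fin (2 * c + 1))), w.length < T → w'.length < T →
      ‖mix (hk D Φ μ κ) w w'‖ ≤ (T : ℝ) ^ (2 * T) * Real.exp (A - c1 * (κ : ℝ) ^ 2))
    (htail : ∀ i : ℕ, Summable (fun κ : ℤ => if |κ| < i then (0 : ℝ) else Real.exp (-(c1 * (κ : ℝ) ^ 2))) ∧
      ∑' κ : ℤ, (if |κ| < i then (0 : ℝ) else Real.exp (-(c1 * (κ : ℝ) ^ 2))) ≤ Real.exp (A' - c1 * (i : ℝ) ^ 2 / 2))
    {T j : ℕ} (w : List (Fin (2 * c + 1))) (hw : w.length < T) (s : Fin j → List (Fin (2 * c + 1))) (hs : ∀ m, (s m).length < T)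
    (q : Fin j → ℂ) (hq1 : ∀ m, ‖q m‖ ≤ 1) (i : ℕ) (hq : ∀ κ : ℤ, |κ| < i → q ∈ WW D Φ μ κ s) :
    ‖∑ m, mix Φ w (s m) * q m‖ ≤ j * ((T : ℝ) ^ (2 * T) * Real.exp A * Real.exp (A' - c1 * (i : ℝ) ^ 2 / 2)) := by
  have hsum : HasSum (fun κ : ℤ => ∑ m, mix (hk D Φ μ κ) w (s m) * q m) (∑ m, mix Φ w (s m) * q m) :=
    hasSum_sum fun m _ => (mix_hasSum hK hμ w (s m)).mul_right (q m)
  obtain ⟨hS, hT⟩ := htail i
  set K : ℝ := j * ((T : ℝ) ^ (2 * T) * Real.exp A) with hKdef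
  have hK0 : 0 ≤ K := by positivity
  have hterm : ∀ κ : ℤ, ‖∑ m, mix (hk D Φ μ κ) w (s m) * q m‖ ≤ K * (if |κ| < i then (0 : ℝ) else Real.exp (-(c1 * (κ : ℝ) ^ 2))) := by
    intro κ
    by_cases hκ : |κ| < i
    · rw [mode_zero hK μ κ s q (hq κ hκ) w]
      simp [hκ]
    · rw [if_neg hκ]
      calc ‖∑ m, mix (hk D Φ μ κ) w (s m) * q m‖ ≤ ∑ m : Fin j, ‖mix (hk D Φ μ κ) w (s m) * q m‖ := norm_sum_le _ _
        _ ≤ ∑ m : Fin j, (T : ℝ) ^ (2 * T) * Real.exp (A - c1 * (κ : ℝ) ^ 2) := by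
            refine Finset.sum_le_sum fun m _ => ?_
            rw [norm_mul]
            calc ‖mix (hk D Φ μ κ) w (s m)‖ * ‖q m‖ ≤ ((T : ℝ) ^ (2 * T) * Real.exp (A - c1 * (κ : ℝ) ^ 2)) * 1 :=
                  mul_le_mul (hmb κ T w (s m) hw (hs m)) (hq1 m) (norm_nonneg _) (by positivity)
              _ = _ := by ring
        _ = K * Real.exp (-(c1 * (κ : ℝ) ^ 2)) := by
            rw [Finset.sum_const, Finset.card_univ, Fintype.card_fin, nsmul_eq_mul, hKdef,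
              show A - c1 * (κ : ℝ) ^ 2 = A + -(c1 * (κ : ℝ) ^ 2) by ring, Real.exp_add]
            ring
  have hSK : Summable (fun κ : ℤ => K * (if |κ| < i then (0 : ℝ) else Real.exp (-(c1 * (κ : ℝ) ^ 2)))) := hS.mul_left K
  have hnorm : Summable (fun κ : ℤ => ‖∑ m, mix (hk D Φ μ κ) w (s m) * q m‖) :=
    Summable.of_nonneg_of_le (fun _ => norm_nonneg _) hterm hSK
  calc ‖∑ m, mix Φ w (s m) * q m‖ = ‖∑' κ : ℤ, ∑ m, mix (hk D Φ μ κ) w (s m) * q m‖ := by rw [hsum.tsum_eq]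
    _ ≤ ∑' κ : ℤ, ‖∑ m, mix (hk D Φ μ κ) w (s m) * q m‖ := norm_tsum_le_tsum_norm hnorm
    _ ≤ ∑' κ : ℤ, K * (if |κ| < i then (0 : ℝ) else Real.exp (-(c1 * (κ : ℝ) ^ 2))) := hnorm.tsum_le_tsum hterm hSK
    _ = K * ∑' κ : ℤ, (if |κ| < i then (0 : ℝ) else Real.exp (-(c1 * (κ : ℝ) ^ 2))) := tsum_mul_left
    _ ≤ K * Real.exp (A' - c1 * (i : ℝ) ^ 2 / 2) := mul_le_mul_of_nonneg_left hT hK0
    _ = _ := by rw [hKdef]; ring

private theorem num_est {A A' c1 : ℝ} (hc1 : 0 < c1) {d1 : ℕ} (hd1 : 1 ≤ d1) {T : ℕ} (hT : 2 ≤ T) (l : ℕ) :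
    (T : ℝ) ^ (2 * T) * Real.exp A * Real.exp (A' - c1 * ((l / (2 * d1) : ℕ) : ℝ) ^ 2 / 2) ≤
      Real.exp (-(c1 / (16 * (d1 : ℝ) ^ 2)) * ((l : ℕ) + 1 : ℝ) ^ 2 + (2 + |A + A' + c1 / 2|) * T * Real.log T) := by
  have hd : (1 : ℝ) ≤ d1 := by exact_mod_cast hd1
  have hd0 : (0 : ℝ) < d1 := by linarith
  have hT2 : (2 : ℝ) ≤ T := by exact_mod_cast hT
  have hT0 : (0 : ℝ) < T := by linarith
  set i : ℕ := l / (2 * d1) with hi
  have h1 : l < 2 * d1 * (i + 1) := by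
    have := Nat.lt_mul_div_succ l (show 0 < 2 * d1 by omega)
    simpa [hi] using this
  have h2 : ((l : ℝ) + 1) ≤ 2 * d1 * ((i : ℝ) + 1) := by exact_mod_cast h1
  have h3 : ((l : ℝ) + 1) ^ 2 ≤ 4 * (d1 : ℝ) ^ 2 * (2 * (i : ℝ) ^ 2 + 2) := by
    have hl0 : (0 : ℝ) ≤ (l : ℝ) + 1 := by positivity
    calc ((l : ℝ) + 1) ^ 2 ≤ (2 * d1 * ((i : ℝ) + 1)) ^ 2 := pow_le_pow_left₀ hl0 h2 2
      _ = 4 * (d1 : ℝ) ^ 2 * ((i : ℝ) + 1) ^ 2 := by ring
      _ ≤ 4 * (d1 : ℝ) ^ 2 * (2 * (i : ℝ) ^ 2 + 2) := by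
          apply mul_le_mul_of_nonneg_left _ (by positivity)
          nlinarith [sq_nonneg ((i : ℝ) - 1)]
  have h4 : c1 / (16 * (d1 : ℝ) ^ 2) * ((l : ℝ) + 1) ^ 2 ≤ c1 * (i : ℝ) ^ 2 / 2 + c1 / 2 := by
    calc c1 / (16 * (d1 : ℝ) ^ 2) * ((l : ℝ) + 1) ^ 2 ≤ c1 / (16 * (d1 : ℝ) ^ 2) * (4 * (d1 : ℝ) ^ 2 * (2 * (i : ℝ) ^ 2 + 2)) :=
          mul_le_mul_of_nonneg_left h3 (by positivity)
      _ = c1 * (i : ℝ) ^ 2 / 2 + c1 / 2 := by
          field_simp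
          ring
  have hlog : 0 < Real.log T := Real.log_pos (by linarith)
  have hTl : (1 : ℝ) ≤ T * Real.log T := by
    have h5 : Real.log 2 ≤ Real.log T := Real.log_le_log (by norm_num) hT2
    have h6 := Real.log_two_gt_d9
    nlinarith
  have h7 : A + A' + c1 / 2 ≤ |A + A' + c1 / 2| * (T * Real.log T) := by
    calc A + A' + c1 / 2 ≤ |A + A' + c1 / 2| := le_abs_self _
      _ = |A + A' + c1 / 2| * 1 := by ring
      _ ≤ _ := mul_le_mul_of_nonneg_left hTl (abs_nonneg _)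
  have h8 : (T : ℝ) ^ (2 * T) = Real.exp (2 * T * Real.log T) := by
    rw [← Real.rpow_natCast, Real.rpow_def_of_pos hT0]
    congr 1
    push_cast
    ring
  rw [h8, ← Real.exp_add, ← Real.exp_add]
  apply Real.exp_le_exp.mpr
  have h9 : (2 + |A + A' + c1 / 2|) * T * Real.log T = 2 * T * Real.log T + |A + A' + c1 / 2| * (T * Real.log T) := by ring
  rw [h9]
  have h10 : -(c1 / (16 * (d1 : ℝ) ^ 2)) * ((l : ℝ) + 1) ^ 2 = -(c1 / (16 * (d1 : ℝ) ^ 2) * ((l : ℝ) + 1) ^ 2) := by ring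
  rw [h10]
  linarith

end U5_

theorem ub_main {D : Dat c} {Φ : VN c → VN c → ℂ} {C C' : (Fin (2 * c + 1) → ℤ) → ℂ} (hK : Ker D Φ C C') : UB Φ := by
  obtain ⟨μ, hμ⟩ := exists_mu hK.mulu
  obtain ⟨A, c1, hA, hc1, hmb⟩ := mix_bound hK hμ
  obtain ⟨d1, hd1, hW⟩ := WW_rank hK hμ
  obtain ⟨A', htail⟩ := gauss_tail hc1
  have hd : (1 : ℝ) ≤ d1 := by exact_mod_cast hd1
  refine ⟨c1 / (16 * (d1 : ℝ) ^ 2), 2 + |A + A' + c1 / 2|, by positivity, ?_⟩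
  intro T j hT r s
  have hlen : ∀ w : Wd (2 * c + 1) T, w.l.length < T := by
    intro w
    rw [Wd.l, List.length_ofFn]
    exact w.1.2
  let s' : Fin j → List (Fin (2 * c + 1)) := fun m => (s m).l
  obtain ⟨E, hE, hcol⟩ := exists_unitary_cols
    (fun l : Fin j => (⨅ κ ∈ Finset.Ioo (-((l.val / (2 * d1) : ℕ) : ℤ)) ((l.val / (2 * d1) : ℕ) : ℤ), WW D Φ μ κ s' : Submodule ℂ (Fin j → ℂ))) (by
      intro l
      refine (WW_inf_rank hW (l.val / (2 * d1)) j s').trans ?_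
      have h1 : 2 * (l.val / (2 * d1)) * d1 ≤ l.val := by
        have := Nat.div_mul_le_self l.val (2 * d1)
        nlinarith
      omega)
  refine ⟨E, ?_, fun i l => entry_norm_bound_of_unitary hE i l, fun i l => ?_⟩
  · have hdet := Matrix.det_of_mem_unitary hE
    rw [CStarRing.norm_of_mem_unitary hdet]
  · have hq : ∀ κ : ℤ, |κ| < ((l.val / (2 * d1) : ℕ) : ℤ) → (fun m => E m l) ∈ WW D Φ μ κ s' := by
      intro κ hκ
      have h := hcol l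
      simp only [Submodule.mem_iInf] at h
      exact h κ (by rw [Finset.mem_Ioo]; exact abs_lt.mp hκ)
    have hmain := U5_.main_est hK hμ hmb htail (r i).l (hlen _) s' (fun m => hlen _) (fun m => E m l)
      (fun m => entry_norm_bound_of_unitary hE m l) (l.val / (2 * d1)) hq
    have heq : ((BM Φ T).submatrix r s * E) i l = ∑ m, mix Φ (r i).l (s' m) * E m l := by
      rw [Matrix.mul_apply]
      rfl
    rw [heq]
    refine hmain.trans (mul_le_mul_of_nonneg_left ?_ (Nat.cast_nonneg j))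
    have := U5_.num_est (A := A) (A' := A') hc1 hd1 hT l.val
    exact this

end Pool.Agent.LT
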