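import Pool.Agent.Lib.MP_f58a57_nt.LT.C.CDefs
import Pool.Agent.Lib.MP_f58a57_nt.LT.C.B10
import Pool.Agent.Lib.MP_f58a57_nt.LT.C.U5

/-!
# MP_f58a57_nt, large transcendence degree, part C (row lt-C-Z)

THEOREM C.
-/

open Complex Matrix MeasureTheory

noncomputable section

namespace Pool.Agent.LT

variable {c : ℕ}

theorem thmC : ThmC := fun _ _ _ _ _ hK => ⟨fun h1 h2 => lb_main hK h1 h2, ub_main hK⟩

end Pool.Agent.LT
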